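import Mathlib

/-!
# Moments of centred Gaussian quadratic forms: statements

`S a g = ∑ a_i (g_i² - 1)`. The maximum of `E |S_a|^p` on the unit sphere is attained at `± e_i` only.
-/

set_option autoImplicit false

open MeasureTheory ProbabilityTheory Set

namespace Pool.Agent.Q298.CQ

noncomputable section

/-- `sgn(x) |x|^s` -/
def phi (s x : ℝ) : ℝ := Real.sign x * |x| ^ s

/-- `|x|^t` -/
def ab (t x : ℝ) : ℝ := |x| ^ t

/-- the standard Gaussian measure on `ℝⁿ` -/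
def G (n : ℕ) : Measure (Fin n → ℝ) := Measure.pi fun _ => gaussianReal 0 1

instance (n : ℕ) : IsProbabilityMeasure (G n) := by unfold G; infer_instance

/-- the exponential law with mean one -/
def E1 : Measure ℝ := expMeasure 1

instance : IsProbabilityMeasure E1 := isProbabilityMeasure_expMeasure one_pos

/-- `Γ(a)` with rate `1/2`; the chi-square law with `2a` degrees of freedom -/
def Ga (a : ℝ) : Measure ℝ := gammaMeasure a (1 / 2)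

/-- `S_a = ∑ a_i (g_i² - 1)` -/
def S {n : ℕ} (a g : Fin n → ℝ) : ℝ := ∑ i, a i * (g i ^ 2 - 1)

/-- continuous functions of polynomial growth -/
def PG (h : ℝ → ℝ) : Prop := Continuous h ∧ ∃ (C : ℝ) (N : ℕ), ∀ x, |h x| ≤ C * (1 + |x|) ^ N

/-- `E h(S_a)` -/
def ES {n : ℕ} (a : Fin n → ℝ) (h : ℝ → ℝ) : ℝ := ∫ g, h (S a g) ∂G n

/-- `(A c h)(x) = E h(x + c R)`, `R` exponential -/
def A (c : ℝ) (h : ℝ → ℝ) (x : ℝ) : ℝ := ∫ r, h (x + c * r) ∂E1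

/-- `(B c h)(x) = E R h(x + c R)`, `R` exponential -/
def B (c : ℝ) (h : ℝ → ℝ) (x : ℝ) : ℝ := ∫ r, r * h (x + c * r) ∂E1

/-- `E |S_a|^p` -/
def mom {n : ℕ} (p : ℝ) (a : Fin n → ℝ) : ℝ := ES a (ab p)

/-- `E |S_a + c R|^t` -/
def L {n : ℕ} (t : ℝ) (a : Fin n → ℝ) (c : ℝ) : ℝ := ES a (A c (ab t))

/-- `E R |S_a + c R|^t` -/
def L2 {n : ℕ} (t : ℝ) (a : Fin n → ℝ) (c : ℝ) : ℝ := ES a (B c (ab t))

/-- `E |S_a + c R + d R'|^t` -/
def N {n : ℕ} (t : ℝ) (a : Fin n → ℝ) (c d : ℝ) : ℝ := ES a (A c (A d (ab t)))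

/-- `E sgn(S_a) |S_a|^(t+1)` -/
def mu {n : ℕ} (t : ℝ) (a : Fin n → ℝ) : ℝ := ES a (phi (t + 1))

/-- `E φ_s(S_a + c R + d R')` -/
def Psi {n : ℕ} (s : ℝ) (a : Fin n → ℝ) (c d : ℝ) : ℝ :=
  ∫ z, phi s (S a z.1 + c * z.2.1 + d * z.2.2) ∂((G n).prod (E1.prod E1))

/-- rotation by the angle `θ` in the plane of the coordinates `i`, `j` -/
def rot {n : ℕ} (i j : Fin n) (θ : ℝ) (a : Fin n → ℝ) : Fin n → ℝ := fun k =>
  if k = i then Real.cos θ * a i - Real.sin θ * a j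
  else if k = j then Real.sin θ * a i + Real.cos θ * a j else a k

/-! ### Statements -/

/-- polynomial growth: basic facts -/
def S1 : Prop :=
  (∀ t : ℝ, 0 ≤ t → PG (ab t)) ∧ (∀ t : ℝ, 0 < t → PG (phi t)) ∧
  (∀ h, PG h → ∀ c, PG (A c h) ∧ PG (B c h)) ∧
  (∀ h, PG h → ∀ x c : ℝ, Integrable (fun r => h (x + c * r)) E1 ∧
    Integrable (fun r => r * h (x + c * r)) E1) ∧
  (∀ (n : ℕ) (a : Fin n → ℝ) (h), PG h → Integrable (fun g => h (S a g)) (G n) ∧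
    ∀ i, Integrable (fun g => g i ^ 2 * h (S a g)) (G n))

/-- joint continuity -/
def S2 : Prop := ∀ (n : ℕ) (h : ℝ → ℝ), PG h →
  Continuous fun z : (Fin n → ℝ) × ℝ × ℝ => ES z.1 (A z.2.1 (A z.2.2 h))

/-- integration by parts in `r`, at the level of `sgn |x|^(t+1)` and `|x|^t` -/
def S3 : Prop := ∀ t c x : ℝ, 0 < t →
  A c (phi (t + 1)) x = phi (t + 1) x + (t + 1) * c * A c (ab t) x

/-- the same one level below, integrated -/
def S4 : Prop := ∀ (n : ℕ) (t : ℝ) (a : Fin n → ℝ) (c d : ℝ), 0 < t →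
  N t a c d - L t a d = t * c * Psi (t - 1) a c d

/-- sums of independent exponentials -/
def S5 : Prop := ∀ h : ℝ → ℝ, PG h →
  (∀ c d x : ℝ, c ≠ d → A c (A d h) x = (c * A c h x - d * A d h x) / (c - d)) ∧
  (∀ c x : ℝ, A c (A c h) x = B c h x)

/-- Gaussian integration by parts -/
def S6 : Prop := ∀ (n : ℕ) (a : Fin n → ℝ) (i : Fin n) (h h' : ℝ → ℝ),
  (∀ x, HasDerivAt h (h' x) x) → PG h' →
  ∫ g, (g i ^ 2 - 1) * h (S a g) ∂G n = 2 * a i * ∫ g, g i ^ 2 * h' (S a g) ∂G n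

/-- size bias -/
def S7 : Prop := ∀ (n : ℕ) (a : Fin n → ℝ) (i : Fin n) (h : ℝ → ℝ), PG h →
  ∫ g, g i ^ 2 * h (S a g) ∂G n = ES a (A (2 * a i) h)

/-- the derivative along rotations -/
def S8 : Prop := ∀ (n : ℕ) (p : ℝ) (a : Fin n → ℝ) (i j : Fin n) (θ : ℝ), 2 < p → i ≠ j →
  HasDerivAt (fun θ => mom p (rot i j θ a))
    (2 * p * (p - 1) * (rot i j θ a i * rot i j θ a j) *
      (L (p - 2) (rot i j θ a) (2 * rot i j θ a j) - L (p - 2) (rot i j θ a) (2 * rot i j θ a i))) θ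

/-- the derivative of `L` -/
def S9 : Prop := ∀ (n : ℕ) (t : ℝ) (a : Fin n → ℝ) (c : ℝ), 0 < t → c ≠ 0 →
  HasDerivAt (L t a) ((L2 t a c - L t a c) / c) c

/-- the identity for `L` -/
def S10 : Prop := ∀ (n : ℕ) (t : ℝ) (a : Fin n → ℝ) (c : ℝ), 0 < t →
  mu t a + (t + 1) * c * L t a c =
    ∑ j, a j * (if 2 * a j = c then L2 t a c - L t a c
      else 2 * a j * (L t a c - L t a (2 * a j)) / (c - 2 * a j)) + c * L2 t a c

/-- the values of the level set: real analysis -/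
def S11 : Prop := ∀ (n : ℕ) (w : Fin n → ℝ) (t lam mu : ℝ) (u D : ℝ → ℝ), 0 < t → 0 < lam → mu ≤ 0 →
  Continuous u → (∀ c, c ≠ 0 → HasDerivAt u (D c) c) → (∀ j, w j ≠ 0 → u (w j) = 0) →
  (∀ c, c ≠ 0 → mu + t * lam * c + t * c * u c = c ^ 2 * D c +
    ∑ j, w j / 2 * (if w j = c then c * D c else w j * u c / (c - w j))) →
  ∀ i j, w i ≠ 0 → w j ≠ 0 → w i ≠ w j → (mu + t * lam * w i) * (mu + t * lam * w j) < 0

/-- two independent gamma variables, right-heavy about the centre -/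
def S12 : Prop := ∀ (s x y : ℝ) (k l : ℕ), -1 < s → 0 < x → 0 < y → 1 ≤ k → 1 ≤ l →
  0 < ∫ z, phi s (x * (z.1 - k) + y * (z.2 - l)) ∂((Ga ((k + 2) / 2)).prod (Ga ((l + 2) / 2)))

/-- one gamma variable -/
def S13 : Prop := ∀ (s x : ℝ) (m : ℕ), -1 < s → 0 < x → 1 ≤ m →
  0 < ∫ u, phi s (x * (u - m)) ∂(Ga ((m + 4) / 2))

/-- a difference of gamma variables -/
def S14 : Prop := ∀ s x y : ℝ, -1 < s → 0 < y → y < x →
  0 < ∫ z, phi s (x * (z.1 - 1) - y * (z.2 - 1)) ∂((Ga (3 / 2)).prod (Ga (3 / 2)))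

/-- the law of `S_a + 2x R + 2y R'` if `a` has the values `0, x, y` -/
def S15 : Prop := ∀ (n : ℕ) (a : Fin n → ℝ) (s x y : ℝ) (k l : ℕ), x ≠ 0 → y ≠ 0 → x ≠ y →
  (∀ i, a i = 0 ∨ a i = x ∨ a i = y) → (Finset.univ.filter fun i => a i = x).card = k →
  (Finset.univ.filter fun i => a i = y).card = l → 1 ≤ k → 1 ≤ l →
  Psi s a (2 * x) (2 * y) =
    ∫ z, phi s (x * (z.1 - k) + y * (z.2 - l)) ∂((Ga ((k + 2) / 2)).prod (Ga ((l + 2) / 2)))

/-- the law of `S_a + 2x R + 2x R'` if `a` has the values `0, x` -/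
def S16 : Prop := ∀ (n : ℕ) (a : Fin n → ℝ) (s x : ℝ) (m : ℕ), x ≠ 0 →
  (∀ i, a i = 0 ∨ a i = x) → (Finset.univ.filter fun i => a i = x).card = m → 1 ≤ m →
  Psi s a (2 * x) (2 * x) = ∫ u, phi s (x * (u - m)) ∂(Ga ((m + 4) / 2))

/-! ### Parts of `S14` -/

/-- the average over the semicircle law -/
def eta (s v : ℝ) : ℝ := ∫ w in Ioo (-1 : ℝ) 1, Real.sqrt (1 - w ^ 2) * phi s (w + v)

/-- the average over the semicircle law in the integral of `S14` -/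
def W (s d D q : ℝ) : ℝ :=
  ∫ w in Ioo (-1 : ℝ) 1, Real.sqrt (1 - w ^ 2) * phi s (q * (d + D * w) - d)

/-- change of variables `u = q (1 + w)`, `v = q (1 - w)` -/
def T1 : Prop := ∀ s x y : ℝ, -1 < s → 0 < y → y < x →
  ∫ z, phi s (x * (z.1 - 1) - y * (z.2 - 1)) ∂((Ga (3 / 2)).prod (Ga (3 / 2))) =
    (1 / Real.pi) * ∫ q in Ioi (0 : ℝ), q ^ 2 * Real.exp (-q) * W s (x - y) (x + y) q

/-- positivity, `s ≥ 1` -/
def T2 : Prop := ∀ s d D : ℝ, 1 ≤ s → 0 < d → d < D →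
  0 < ∫ q in Ioi (0 : ℝ), q ^ 2 * Real.exp (-q) * W s d D q

/-- facts on `eta` -/
def T3a : Prop := (∀ s v, eta s (-v) = -eta s v) ∧
  ∀ s, -1 < s → Continuous (eta s) ∧ ∀ v, 0 < v → 0 < eta s v

/-- monotonicity, `0 ≤ s ≤ 1` -/
def T3b : Prop := ∀ s, 0 ≤ s → s ≤ 1 → AntitoneOn (fun v => eta s v / v) (Ioi 0)

/-- monotonicity, `-1 < s < 0` -/
def T3c : Prop := ∀ s, -1 < s → s < 0 → AntitoneOn (fun v => eta s v / v) (Ioi 0)

/-- positivity, `-1 < s ≤ 1` -/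
def T4 : Prop := ∀ s d D : ℝ, -1 < s → s ≤ 1 → 0 < d → d < D →
  0 < ∫ q in Ioi (0 : ℝ), q ^ 2 * Real.exp (-q) * W s d D q

/-! ### Parts of `S15`, `S16` -/

/-- sums of independent gamma variables -/
def T5 : Prop := ∀ a b : ℝ, 0 < a → 0 < b →
  Measure.map (fun z : ℝ × ℝ => z.1 + z.2) ((Ga a).prod (Ga b)) = Ga (a + b)

/-- the law of `g²` and of `2R` -/
def T6 : Prop := Measure.map (fun x : ℝ => x ^ 2) (gaussianReal 0 1) = Ga (1 / 2) ∧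
  Measure.map (fun r : ℝ => 2 * r) E1 = Ga 1

end

end Pool.Agent.Q298.CQ
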