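import Pool.Agent.Q298.CQ.J5

/-!
# Functions of polynomial growth: `S1`
-/

set_option autoImplicit false

open MeasureTheory ProbabilityTheory Set Filter Topology

namespace Pool.Agent.Q298.CQ.J1

noncomputable section

theorem pg_ab {t : ℝ} (ht : 0 ≤ t) : PG (ab t) := by
  refine ⟨continuous_abs.rpow_const fun _ => Or.inr ht, 1, ⌈t⌉₊, fun x => ?_⟩
  have h0 := abs_nonneg x
  rw [ab, abs_of_nonneg (by positivity), one_mul, ← Real.rpow_natCast]
  exact (Real.rpow_le_rpow h0 (by linarith) ht).trans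
    (Real.rpow_le_rpow_of_exponent_le (by linarith) (Nat.le_ceil t))

theorem phi_max {t : ℝ} (ht : 0 < t) (x : ℝ) : phi t x = (max x 0) ^ t - (max (-x) 0) ^ t := by
  unfold phi
  rcases lt_trichotomy x 0 with h | h | h
  · rw [Real.sign_of_neg h, abs_of_neg h, max_eq_right h.le, max_eq_left (by linarith),
      Real.zero_rpow ht.ne']
    ring
  · subst h
    simp
  · rw [Real.sign_of_pos h, abs_of_pos h, max_eq_left h.le, max_eq_right (by linarith),
      Real.zero_rpow ht.ne']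
    ring

theorem abs_phi_le (t x : ℝ) : |phi t x| ≤ |x| ^ t := by
  unfold phi
  rw [abs_mul, abs_of_nonneg (Real.rpow_nonneg (abs_nonneg x) t)]
  have : |Real.sign x| ≤ 1 := by
    rcases Real.sign_apply_eq x with h | h | h <;> rw [h] <;> simp
  exact mul_le_of_le_one_left (Real.rpow_nonneg (abs_nonneg x) t) this

theorem pg_phi {t : ℝ} (ht : 0 < t) : PG (phi t) := by
  obtain ⟨-, C, N, h⟩ := pg_ab ht.le
  refine ⟨?_, C, N, fun x => (abs_phi_le t x).trans ((le_abs_self _).trans (h x))⟩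
  have h1 : phi t = fun x => (max x 0) ^ t - (max (-x) 0) ^ t := funext fun x => phi_max ht x
  rw [h1]
  exact ((continuous_id.max continuous_const).rpow_const fun _ => Or.inr ht.le).sub
    (((continuous_neg).max continuous_const).rpow_const fun _ => Or.inr ht.le)

/-- moments of the exponential law -/
theorem mE (M : ℕ) : Integrable (fun r : ℝ => (1 + |r|) ^ M) E1 := by
  rw [integrable_E1_iff]
  have h1 : IntegrableOn (fun x : ℝ => Real.exp (-x) * x ^ ((M : ℝ) + 1 - 1)) (Ioi 0) :=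
    Real.GammaIntegral_convergent (by positivity)
  have h2 : IntegrableOn (fun x : ℝ => Real.exp (-x) * x ^ ((1 : ℝ) - 1)) (Ioi 0) :=
    Real.GammaIntegral_convergent one_pos
  have h3 := (h2.add h1).const_mul ((2 : ℝ) ^ (M - 1))
  refine Integrable.mono' h3 ?_ ?_
  · exact (by fun_prop : Continuous fun r : ℝ => (1 + |r|) ^ M * Real.exp (-r)).aestronglyMeasurable
  · filter_upwards [ae_restrict_mem measurableSet_Ioi] with r hr
    have hr' : 0 < r := hr
    have h4 := add_pow_le (zero_le_one (α := ℝ)) hr'.le M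
    have h5 := Real.exp_pos (-r)
    rw [Real.norm_eq_abs, abs_of_nonneg (by positivity), abs_of_pos hr']
    simp only [Pi.add_apply, sub_self, Real.rpow_zero, mul_one, add_sub_cancel_right,
      Real.rpow_natCast]
    rw [one_pow] at h4
    calc (1 + r) ^ M * Real.exp (-r) ≤ (2 ^ (M - 1) * (1 + r ^ M)) * Real.exp (-r) :=
          mul_le_mul_of_nonneg_right h4 h5.le
      _ = _ := by ring

theorem C_nonneg {h : ℝ → ℝ} {C : ℝ} {N : ℕ} (hC : ∀ x, |h x| ≤ C * (1 + |x|) ^ N) : 0 ≤ C := by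
  have := hC 0
  rw [abs_zero, add_zero, one_pow, mul_one] at this
  exact (abs_nonneg _).trans this

theorem bd {h : ℝ → ℝ} {C : ℝ} {N : ℕ} (hC : ∀ x, |h x| ≤ C * (1 + |x|) ^ N) (x c r : ℝ) :
    |h (x + c * r)| ≤ C * (1 + |x|) ^ N * (1 + |c|) ^ N * (1 + |r|) ^ N := by
  refine (hC _).trans ?_
  have h0 := C_nonneg hC
  have h1 : 1 + |x + c * r| ≤ (1 + |x|) * (1 + |c|) * (1 + |r|) := by
    have h2 : |x + c * r| ≤ |x| + |c| * |r| := by
      rw [← abs_mul]; exact abs_add_le _ _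
    have h3 := abs_nonneg x
    have h4 := abs_nonneg c
    have h5 := abs_nonneg r
    nlinarith [mul_nonneg h3 h4, mul_nonneg h3 h5, mul_nonneg h4 h5,
      mul_nonneg (mul_nonneg h3 h4) h5]
  have h2 : (1 + |x + c * r|) ^ N ≤ ((1 + |x|) * (1 + |c|) * (1 + |r|)) ^ N :=
    pow_le_pow_left₀ (by positivity) h1 N
  rw [mul_pow, mul_pow] at h2
  calc C * (1 + |x + c * r|) ^ N ≤ C * ((1 + |x|) ^ N * (1 + |c|) ^ N * (1 + |r|) ^ N) :=
        mul_le_mul_of_nonneg_left h2 h0
    _ = _ := by ring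

theorem bdw {h : ℝ → ℝ} {C : ℝ} {N : ℕ} (hC : ∀ x, |h x| ≤ C * (1 + |x|) ^ N) {w : ℝ → ℝ} {M : ℕ}
    (hw : ∀ r, |w r| ≤ (1 + |r|) ^ M) (x c r : ℝ) :
    |w r * h (x + c * r)| ≤ C * (1 + |x|) ^ N * (1 + |c|) ^ N * (1 + |r|) ^ (M + N) := by
  have h0 := C_nonneg hC
  rw [abs_mul]
  calc |w r| * |h (x + c * r)| ≤ (1 + |r|) ^ M *
        (C * (1 + |x|) ^ N * (1 + |c|) ^ N * (1 + |r|) ^ N) :=
        mul_le_mul (hw r) (bd hC x c r) (abs_nonneg _) (by positivity)
    _ = _ := by rw [pow_add]; ring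

theorem intw {h : ℝ → ℝ} (hh : PG h) {w : ℝ → ℝ} (hwc : Continuous w) {M : ℕ}
    (hw : ∀ r, |w r| ≤ (1 + |r|) ^ M) (x c : ℝ) :
    Integrable (fun r => w r * h (x + c * r)) E1 := by
  obtain ⟨hc, C, N, hC⟩ := hh
  refine Integrable.mono' ((mE (M + N)).const_mul (C * (1 + |x|) ^ N * (1 + |c|) ^ N)) ?_
    (Eventually.of_forall fun r => ?_)
  · exact (hwc.mul (hc.comp (by fun_prop))).aestronglyMeasurable
  · rw [Real.norm_eq_abs]
    exact bdw hC hw x c r

theorem pgw {h : ℝ → ℝ} (hh : PG h) {w : ℝ → ℝ} (hwc : Continuous w) {M : ℕ}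
    (hw : ∀ r, |w r| ≤ (1 + |r|) ^ M) (c : ℝ) :
    PG (fun x => ∫ r, w r * h (x + c * r) ∂E1) := by
  have hint := fun x => intw hh hwc hw x c
  obtain ⟨hc, C, N, hC⟩ := hh
  have h0 := C_nonneg hC
  refine ⟨?_, C * (1 + |c|) ^ N * ∫ r, (1 + |r|) ^ (M + N) ∂E1, N, fun x => ?_⟩
  · rw [continuous_iff_continuousAt]
    intro x0
    refine continuousAt_of_dominated
      (bound := fun r => C * (2 + |x0|) ^ N * (1 + |c|) ^ N * (1 + |r|) ^ (M + N)) ?_ ?_ ?_ ?_
    · exact Eventually.of_forall fun x => (hint x).aestronglyMeasurable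
    · filter_upwards [Metric.ball_mem_nhds x0 one_pos] with x hx
      refine Eventually.of_forall fun r => ?_
      rw [Real.norm_eq_abs]
      refine (bdw hC hw x c r).trans ?_
      have h1 : |x| ≤ 1 + |x0| := by
        rw [Metric.mem_ball, Real.dist_eq] at hx
        have := abs_sub_abs_le_abs_sub x x0
        linarith
      have h2 : (1 + |x|) ^ N ≤ (2 + |x0|) ^ N :=
        pow_le_pow_left₀ (by positivity) (by linarith) N
      have h3 := mul_le_mul_of_nonneg_left h2 h0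
      exact mul_le_mul_of_nonneg_right (mul_le_mul_of_nonneg_right h3 (by positivity))
        (by positivity)
    · exact (mE (M + N)).const_mul _
    · exact Eventually.of_forall fun r =>
        (continuous_const.mul (hc.comp (by fun_prop : Continuous fun x : ℝ => x + c * r))).continuousAt
  · have h1 : |∫ r, w r * h (x + c * r) ∂E1| ≤
        ∫ r, C * (1 + |x|) ^ N * (1 + |c|) ^ N * (1 + |r|) ^ (M + N) ∂E1 := by
      rw [← Real.norm_eq_abs]
      refine norm_integral_le_of_norm_le ((mE (M + N)).const_mul _)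
        (Eventually.of_forall fun r => ?_)
      rw [Real.norm_eq_abs]
      exact bdw hC hw x c r
    rw [integral_const_mul] at h1
    calc _ ≤ _ := h1
      _ = _ := by ring

theorem w1 : ∀ r : ℝ, |(1 : ℝ)| ≤ (1 + |r|) ^ 0 := fun r => by simp

theorem w2 : ∀ r : ℝ, |r| ≤ (1 + |r|) ^ 1 := fun r => by
  rw [pow_one]; linarith

/-! ### Gaussian side -/

theorem one_add_sum_le {n : ℕ} (f : Fin n → ℝ) (hf : ∀ i, 0 ≤ f i) :
    1 + ∑ i, f i ≤ ∏ i, (1 + f i) := by
  classical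
  have : ∀ s : Finset (Fin n), 1 + ∑ i ∈ s, f i ≤ ∏ i ∈ s, (1 + f i) := by
    intro s
    induction s using Finset.induction_on with
    | empty => simp
    | insert a s ha ih =>
      rw [Finset.sum_insert ha, Finset.prod_insert ha]
      have h1 : 0 ≤ ∑ i ∈ s, f i := Finset.sum_nonneg fun i _ => hf i
      have h2 := mul_le_mul_of_nonneg_left ih (by linarith [hf a] : 0 ≤ 1 + f a)
      nlinarith [mul_nonneg (hf a) h1]
  exact this Finset.univ

theorem one_add_S {n : ℕ} (a g : Fin n → ℝ) :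
    1 + ∑ i, |a i| * (g i ^ 2 + 1) ≤ ∏ i, ((1 + |a i|) * (1 + g i ^ 2)) := by
  refine (one_add_sum_le _ fun i => by positivity).trans ?_
  refine Finset.prod_le_prod (fun i _ => by positivity) fun i _ => ?_
  have h1 := abs_nonneg (a i)
  have h2 := sq_nonneg (g i)
  nlinarith

theorem abs_S {n : ℕ} (a g : Fin n → ℝ) : |S a g| ≤ ∑ i, |a i| * (g i ^ 2 + 1) := by
  unfold S
  refine (Finset.abs_sum_le_sum_abs _ _).trans (Finset.sum_le_sum fun i _ => ?_)
  rw [abs_mul]
  refine mul_le_mul_of_nonneg_left ?_ (abs_nonneg _)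
  rw [abs_le]
  constructor <;> nlinarith [sq_nonneg (g i)]

theorem mG (C : ℝ) (M : ℕ) : Integrable (fun x : ℝ => (C * (1 + x ^ 2)) ^ M) (gaussianReal 0 1) := by
  have h1 : Integrable (fun x : ℝ => ‖x‖ ^ (2 * M)) (gaussianReal 0 1) := by
    by_cases hM : M = 0
    · subst hM; simp
    · exact (memLp_id_gaussianReal' (μ := 0) (v := 1) ((2 * M : ℕ) : ENNReal)
        (ENNReal.natCast_ne_top _)).integrable_norm_pow (by omega)
  have h2 := ((integrable_const (1 : ℝ)).add h1).const_mul (|C| ^ M * 2 ^ (M - 1))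
  refine Integrable.mono' h2 ?_ (Eventually.of_forall fun x => ?_)
  · exact (by fun_prop : Continuous fun x : ℝ => (C * (1 + x ^ 2)) ^ M).aestronglyMeasurable
  · rw [Real.norm_eq_abs, abs_pow, abs_mul, abs_of_nonneg (by positivity : 0 ≤ 1 + x ^ 2), mul_pow]
    have h4 := add_pow_le (zero_le_one (α := ℝ)) (sq_nonneg x) M
    rw [one_pow] at h4
    simp only [Pi.add_apply, Real.norm_eq_abs]
    rw [pow_mul, sq_abs]
    calc |C| ^ M * (1 + x ^ 2) ^ M ≤ |C| ^ M * (2 ^ (M - 1) * (1 + (x ^ 2) ^ M)) :=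
          mul_le_mul_of_nonneg_left h4 (by positivity)
      _ = _ := by ring

theorem bdG {n : ℕ} (a : Fin n → ℝ) {h : ℝ → ℝ} {C : ℝ} {N : ℕ}
    (hC : ∀ x, |h x| ≤ C * (1 + |x|) ^ N) (g : Fin n → ℝ) :
    |h (S a g)| ≤ C * ∏ i, ((1 + |a i|) * (1 + g i ^ 2)) ^ N := by
  refine (hC _).trans ?_
  have h0 := C_nonneg hC
  rw [Finset.prod_pow]
  refine mul_le_mul_of_nonneg_left ?_ h0
  refine pow_le_pow_left₀ (by positivity) ?_ N
  exact (by linarith [abs_S a g] : 1 + |S a g| ≤ 1 + ∑ i, |a i| * (g i ^ 2 + 1)).trans (one_add_S a g)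

theorem contS {n : ℕ} (a : Fin n → ℝ) : Continuous fun g : Fin n → ℝ => S a g := by
  unfold S
  fun_prop

theorem intG {n : ℕ} (a : Fin n → ℝ) {h : ℝ → ℝ} (hh : PG h) :
    Integrable (fun g => h (S a g)) (G n) := by
  obtain ⟨hc, C, N, hC⟩ := hh
  have h1 : Integrable (fun g : Fin n → ℝ => ∏ i, ((1 + |a i|) * (1 + g i ^ 2)) ^ N) (G n) :=
    Integrable.fintype_prod (f := fun i (x : ℝ) => ((1 + |a i|) * (1 + x ^ 2)) ^ N)
      (μ := fun _ => gaussianReal 0 1) fun i => mG _ N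
  refine Integrable.mono' (h1.const_mul C) (hc.comp (contS a)).aestronglyMeasurable
    (Eventually.of_forall fun g => ?_)
  rw [Real.norm_eq_abs]
  exact bdG a hC g

theorem intG2 {n : ℕ} (a : Fin n → ℝ) {h : ℝ → ℝ} (hh : PG h) (i : Fin n) :
    Integrable (fun g => g i ^ 2 * h (S a g)) (G n) := by
  obtain ⟨hc, C, N, hC⟩ := hh
  have h0 := C_nonneg hC
  have h1 : Integrable (fun g : Fin n → ℝ => ∏ i, ((2 + |a i|) * (1 + g i ^ 2)) ^ (N + 1)) (G n) :=
    Integrable.fintype_prod (f := fun i (x : ℝ) => ((2 + |a i|) * (1 + x ^ 2)) ^ (N + 1))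
      (μ := fun _ => gaussianReal 0 1) fun i => mG _ (N + 1)
  refine Integrable.mono' (h1.const_mul C)
    (((continuous_apply i).pow 2).mul (hc.comp (contS a))).aestronglyMeasurable
    (Eventually.of_forall fun g => ?_)
  rw [Real.norm_eq_abs, abs_mul, abs_of_nonneg (sq_nonneg (g i))]
  have h2 : g i ^ 2 ≤ ∏ i, ((2 + |a i|) * (1 + g i ^ 2)) := by
    have h3 : g i ^ 2 ≤ 1 + ∑ j, g j ^ 2 := by
      have := Finset.single_le_sum (f := fun j => g j ^ 2) (fun j _ => sq_nonneg (g j))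
        (Finset.mem_univ i)
      linarith
    refine h3.trans ((one_add_sum_le _ fun i => sq_nonneg (g i)).trans ?_)
    refine Finset.prod_le_prod (fun i _ => by positivity) fun j _ => ?_
    have h4 := abs_nonneg (a j)
    have h5 := sq_nonneg (g j)
    nlinarith
  have h3 : ∏ i, ((1 + |a i|) * (1 + g i ^ 2)) ^ N ≤ (∏ i, ((2 + |a i|) * (1 + g i ^ 2))) ^ N := by
    rw [Finset.prod_pow]
    refine pow_le_pow_left₀ (Finset.prod_nonneg fun i _ => by positivity) ?_ N
    refine Finset.prod_le_prod (fun i _ => by positivity) fun j _ => ?_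
    have h4 := abs_nonneg (a j)
    have h5 := sq_nonneg (g j)
    nlinarith
  have h4 : 0 ≤ ∏ i, ((2 + |a i|) * (1 + g i ^ 2)) := Finset.prod_nonneg fun i _ => by positivity
  calc g i ^ 2 * |h (S a g)| ≤ (∏ i, ((2 + |a i|) * (1 + g i ^ 2))) *
        (C * (∏ i, ((2 + |a i|) * (1 + g i ^ 2))) ^ N) :=
        mul_le_mul h2 ((bdG a hC g).trans (mul_le_mul_of_nonneg_left h3 h0)) (abs_nonneg _) h4
    _ = C * ∏ i, ((2 + |a i|) * (1 + g i ^ 2)) ^ (N + 1) := by
        rw [Finset.prod_pow]; ring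

end

end Pool.Agent.Q298.CQ.J1

namespace Pool.Agent.Q298.CQ

theorem t1 : S1 := by
  refine ⟨fun t ht => J1.pg_ab ht, fun t ht => J1.pg_phi ht, fun h hh c => ⟨?_, ?_⟩,
    fun h hh x c => ⟨?_, ?_⟩, fun n a h hh => ⟨J1.intG a hh, fun i => J1.intG2 a hh i⟩⟩
  · have := J1.pgw hh (continuous_const (y := (1 : ℝ))) J1.w1 c
    simp only [one_mul] at this
    exact this
  · exact J1.pgw hh continuous_id J1.w2 c
  · have := J1.intw hh (continuous_const (y := (1 : ℝ))) J1.w1 x c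
    simp only [one_mul] at this
    exact this
  · exact J1.intw hh continuous_id J1.w2 x c

end Pool.Agent.Q298.CQ
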