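import Pool.Agent.Q298.CQ.Stm

/-!
# The level set of `L`: real analysis
-/

set_option autoImplicit false

open MeasureTheory ProbabilityTheory Set Filter Topology

namespace Pool.Agent.Q298.CQ

noncomputable section

/-- behaviour of `u` near a zero -/
theorem near_zero_neg {u : ℝ → ℝ} {d z : ℝ} (h : HasDerivAt u d z) (hz : u z = 0) (hd : d < 0) :
    (∀ᶠ x in 𝓝[>] z, u x < 0) ∧ ∀ᶠ x in 𝓝[<] z, 0 < u x := by
  have hs := hasDerivAt_iff_tendsto_slope.mp h
  have he : ∀ᶠ x in 𝓝[≠] z, slope u z x < 0 := hs.eventually (isOpen_Iio.mem_nhds hd)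
  constructor
  · have : ∀ᶠ x in 𝓝[>] z, slope u z x < 0 :=
      he.filter_mono (nhdsWithin_mono z fun x hx => ne_of_gt hx)
    filter_upwards [this, self_mem_nhdsWithin] with x hx hxz
    rw [slope_def_field, hz, sub_zero] at hx
    have hxz' : (0 : ℝ) < x - z := sub_pos.mpr hxz
    exact (div_neg_iff.mp hx).resolve_left (fun h => by linarith [h.2]) |>.1
  · have : ∀ᶠ x in 𝓝[<] z, slope u z x < 0 :=
      he.filter_mono (nhdsWithin_mono z fun x hx => ne_of_lt hx)
    filter_upwards [this, self_mem_nhdsWithin] with x hx hxz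
    rw [slope_def_field, hz, sub_zero] at hx
    have hxz' : x - z < 0 := sub_neg.mpr hxz
    exact (div_neg_iff.mp hx).resolve_right (fun h => by linarith [h.2]) |>.1

/-- the next zero -/
theorem next_zero {u : ℝ → ℝ} (hu : Continuous u) {a b : ℝ} (hab : a < b)
    (h : ∀ᶠ x in 𝓝[>] a, u x < 0) (hb : u b = 0) :
    ∃ z, a < z ∧ z ≤ b ∧ u z = 0 ∧ ∀ x, a < x → x < z → u x < 0 := by
  obtain ⟨c, hc, hcu⟩ : ∃ c, a < c ∧ ∀ x, a < x → x ≤ c → u x < 0 := by
    obtain ⟨c, hc, hcs⟩ := mem_nhdsGT_iff_exists_Ioc_subset.mp h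
    exact ⟨c, hc, fun x h1 h2 => hcs ⟨h1, h2⟩⟩
  have hcb : c < b := by
    by_contra hcon
    push Not at hcon
    have := hcu b hab hcon
    linarith
  have hcpt : IsCompact (Icc c b ∩ u ⁻¹' {0}) :=
    isCompact_Icc.inter_right (isClosed_singleton.preimage hu)
  obtain ⟨z, ⟨⟨hcz, hzb⟩, hz0⟩, hmin⟩ := hcpt.exists_isLeast ⟨b, ⟨hcb.le, le_rfl⟩, hb⟩
  have hz0' : u z = 0 := hz0
  refine ⟨z, lt_of_lt_of_le hc hcz, hzb, hz0', fun x hax hxz => ?_⟩
  rcases le_or_gt x c with hxc | hxc
  · exact hcu x hax hxc
  · by_contra hcon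
    push Not at hcon
    have huc : u c < 0 := hcu c hc le_rfl
    obtain ⟨y, hy, hy0⟩ := intermediate_value_Icc hxc.le hu.continuousOn ⟨huc.le, hcon⟩
    have : z ≤ y := hmin ⟨⟨hy.1, hy.2.trans (hxz.le.trans hzb)⟩, hy0⟩
    linarith [hy.2]

/-- a zero from the left with `u < 0` before it has nonnegative derivative -/
theorem deriv_nonneg_of_before {u : ℝ → ℝ} {a z d : ℝ} (haz : a < z) (hz : u z = 0)
    (hneg : ∀ x, a < x → x < z → u x < 0) (hd : HasDerivAt u d z) : 0 ≤ d := by
  by_contra hcon
  push Not at hcon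
  have h1 := (near_zero_neg hd hz hcon).2
  have h2 : ∀ᶠ x in 𝓝[<] z, a < x := by
    filter_upwards [Ioo_mem_nhdsLT haz] with x hx using hx.1
  obtain ⟨x, hx1, hx2, hx3⟩ := (h1.and (h2.and self_mem_nhdsWithin)).exists
  linarith [hneg x hx2 hx3]

theorem t11 : S11 := by
  intro n w t lam mu u D ht hlam hmu hu hD hw hode
  have htl : 0 < t * lam := mul_pos ht hlam
  -- the equation at zeros
  have hzero : ∀ c, c ≠ 0 → u c = 0 → ∃ κ : ℝ, 0 < κ ∧ mu + t * lam * c = κ * D c := by
    intro c hc huc
    have h := hode c hc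
    rw [huc] at h
    have hterm : ∀ j, w j / 2 * (if w j = c then c * D c else w j * 0 / (c - w j)) =
        if w j = c then c / 2 * (c * D c) else 0 := by
      intro j
      by_cases hj : w j = c
      · rw [if_pos hj, if_pos hj, hj]
      · rw [if_neg hj, if_neg hj]; simp
    rw [Finset.sum_congr rfl (fun j _ => hterm j), ← Finset.sum_filter, Finset.sum_const,
      nsmul_eq_mul] at h
    refine ⟨c ^ 2 * (1 + ((Finset.univ.filter fun j => w j = c).card : ℝ) / 2), by positivity, ?_⟩
    linear_combination h
  have hDneg : ∀ c, c ≠ 0 → u c = 0 → mu + t * lam * c < 0 → D c < 0 := by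
    intro c hc huc hP
    obtain ⟨κ, hκ, h⟩ := hzero c hc huc
    rw [h] at hP
    exact (mul_neg_iff.mp hP).resolve_right (fun h => by linarith [h.1]) |>.2
  have hDpos : ∀ c, c ≠ 0 → u c = 0 → 0 < mu + t * lam * c → 0 < D c := by
    intro c hc huc hP
    obtain ⟨κ, hκ, h⟩ := hzero c hc huc
    rw [h] at hP
    exact (pos_iff_pos_of_mul_pos hP).mp hκ
  have hDzero : ∀ c, c ≠ 0 → u c = 0 → mu + t * lam * c = 0 → D c = 0 := by
    intro c hc huc hP
    obtain ⟨κ, hκ, h⟩ := hzero c hc huc
    rw [h] at hP
    exact (mul_eq_zero.mp hP).resolve_left hκ.ne'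
  -- at the origin
  have horig : mu < 0 → u 0 = 0 → ∃ δ > 0, ∀ x, -δ < x → x < 0 → 0 < u x := by
    intro hmu0 hu0
    let F : ℝ → ℝ := fun c => mu + t * lam * c + t * c * u c -
      ∑ j, w j / 2 * (w j * u c / (c - w j))
    have hF : Tendsto F (𝓝 0) (𝓝 mu) := by
      have h1 : Tendsto (fun c => mu + t * lam * c + t * c * u c) (𝓝 0) (𝓝 mu) := by
        have : Continuous fun c => mu + t * lam * c + t * c * u c := by fun_prop
        have h := this.tendsto 0
        simpa using h
      have h2 : Tendsto (fun c => ∑ j, w j / 2 * (w j * u c / (c - w j))) (𝓝 0) (𝓝 0) := by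
        rw [show (0 : ℝ) = ∑ j : Fin n, (0 : ℝ) by simp]
        apply tendsto_finsetSum
        intro j _
        by_cases hj : w j = 0
        · simp [hj]
        · have : ContinuousAt (fun c => w j / 2 * (w j * u c / (c - w j))) 0 := by
            apply ContinuousAt.mul continuousAt_const
            apply ContinuousAt.div
            · exact continuousAt_const.mul hu.continuousAt
            · fun_prop
            · simpa using hj
          have h := this.tendsto
          simpa [hu0] using h
      have := h1.sub h2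
      rw [sub_zero] at this
      exact this
    have hev : ∀ᶠ c in 𝓝 (0 : ℝ), F c < 0 := hF.eventually (isOpen_Iio.mem_nhds hmu0)
    have hev2 : ∀ᶠ c in 𝓝 (0 : ℝ), ∀ j, w j ≠ 0 → c ≠ w j := by
      rw [eventually_all]
      intro j
      by_cases hj : w j = 0
      · simp [hj]
      · filter_upwards [isOpen_ne.mem_nhds (Ne.symm hj : (0 : ℝ) ≠ w j)] with c hc _
        exact hc
    obtain ⟨δ, hδ, hball⟩ := Metric.eventually_nhds_iff.mp (hev.and hev2)
    refine ⟨δ, hδ, fun x hx1 hx2 => ?_⟩
    have hDc : ∀ c, -δ < c → c < 0 → D c < 0 := by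
      intro c hc1 hc2
      have hc0 : c ≠ 0 := hc2.ne
      obtain ⟨h1, h2⟩ := hball (y := c) (by rw [Real.dist_eq, sub_zero, abs_of_neg hc2]; linarith)
      have h := hode c hc0
      have hterm : ∀ j, w j / 2 * (if w j = c then c * D c else w j * u c / (c - w j)) =
          w j / 2 * (w j * u c / (c - w j)) := by
        intro j
        by_cases hj : w j = 0
        · simp [hj]
        · rw [if_neg (h2 j hj).symm]
      rw [Finset.sum_congr rfl (fun j _ => hterm j)] at h
      have h3 : c ^ 2 * D c = F c := by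
        show _ = mu + t * lam * c + t * c * u c - ∑ j, w j / 2 * (w j * u c / (c - w j))
        linarith
      rw [← h3] at h1
      have hc2' : 0 < c ^ 2 := by positivity
      exact (mul_neg_iff.mp h1).resolve_right (fun h => by linarith [h.1]) |>.2
    have hanti : StrictAntiOn u (Icc x 0) := by
      apply strictAntiOn_of_deriv_neg (convex_Icc x 0) hu.continuousOn
      intro c hc
      rw [interior_Icc] at hc
      rw [(hD c hc.2.ne).deriv]
      exact hDc c (by linarith [hc.1]) hc.2
    have := hanti (left_mem_Icc.mpr hx2.le) (right_mem_Icc.mpr hx2.le) hx2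
    linarith
  -- at the point where `P = 0`
  have hstar : ∀ q, 0 < q → u q = 0 → mu + t * lam * q = 0 →
      ∀ᶠ c in 𝓝[≠] q, u c < 0 → 0 < (c - q) * D c := by
    intro q hq huq hPq
    have hDq := hDzero q hq.ne' huq hPq
    have hslope : Tendsto (fun c => u c / (c - q)) (𝓝[≠] q) (𝓝 0) := by
      have h := hasDerivAt_iff_tendsto_slope.mp (hD q hq.ne')
      rw [hDq] at h
      refine h.congr' ?_
      filter_upwards with c
      rw [slope_def_field, huq, sub_zero]
    let Bk : ℝ → ℝ := fun c => t * lam + t * c * (u c / (c - q)) -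
      ∑ j, (if w j = q then 0 else w j ^ 2 / 2 * (u c / (c - q)) / (c - w j))
    have hB : Tendsto Bk (𝓝[≠] q) (𝓝 (t * lam)) := by
      have hid : Tendsto (fun c : ℝ => c) (𝓝[≠] q) (𝓝 q) := nhdsWithin_le_nhds
      have h1 : Tendsto (fun c => t * lam + t * c * (u c / (c - q))) (𝓝[≠] q)
          (𝓝 (t * lam + t * q * 0)) :=
        tendsto_const_nhds.add ((tendsto_const_nhds.mul hid).mul hslope)
      have h2 : Tendsto (fun c => ∑ j, (if w j = q then 0 else w j ^ 2 / 2 * (u c / (c - q)) /
          (c - w j))) (𝓝[≠] q) (𝓝 0) := by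
        rw [show (0 : ℝ) = ∑ j : Fin n, (0 : ℝ) by simp]
        apply tendsto_finsetSum
        intro j _
        by_cases hj : w j = q
        · simp [hj]
        · simp only [if_neg hj]
          have : Tendsto (fun c => w j ^ 2 / 2 * (u c / (c - q)) / (c - w j)) (𝓝[≠] q)
              (𝓝 (w j ^ 2 / 2 * 0 / (q - w j))) := by
            apply Tendsto.div (tendsto_const_nhds.mul hslope) (hid.sub tendsto_const_nhds)
            exact sub_ne_zero.mpr (Ne.symm hj)
          simpa using this
      have := h1.sub h2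
      rw [mul_zero, add_zero, sub_zero] at this
      exact this
    have hev : ∀ᶠ c in 𝓝[≠] q, 0 < Bk c := hB.eventually (isOpen_Ioi.mem_nhds htl)
    have hev2 : ∀ᶠ c in 𝓝[≠] q, ∀ j, w j ≠ q → c ≠ w j := by
      apply Filter.Eventually.filter_mono nhdsWithin_le_nhds
      rw [eventually_all]
      intro j
      by_cases hj : w j = q
      · simp [hj]
      · filter_upwards [isOpen_ne.mem_nhds (Ne.symm hj : q ≠ w j)] with c hc _
        exact hc
    have hev3 : ∀ᶠ c in 𝓝[≠] q, 0 < c :=
      Filter.Eventually.filter_mono nhdsWithin_le_nhds (isOpen_Ioi.mem_nhds hq)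
    filter_upwards [hev, hev2, hev3, self_mem_nhdsWithin] with c h1 h2 h3 hcq huc
    have hcq' : c - q ≠ 0 := sub_ne_zero.mpr hcq
    have h := hode c h3.ne'
    have hterm : ∀ j, (c - q) * (w j / 2 * (if w j = c then c * D c else w j * u c / (c - w j))) =
        (if w j = q then q ^ 2 / 2 * u c else 0) + (c - q) ^ 2 *
          (if w j = q then 0 else w j ^ 2 / 2 * (u c / (c - q)) / (c - w j)) := by
      intro j
      by_cases hj : w j = q
      · rw [if_neg (by rw [hj]; exact Ne.symm hcq), if_pos hj, if_pos hj, hj]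
        field_simp
        ring
      · rw [if_neg (h2 j hj).symm, if_neg hj, if_neg hj]
        have hcw : c - w j ≠ 0 := sub_ne_zero.mpr (h2 j hj)
        field_simp
        ring
    have hsum : (c - q) * ∑ j, (w j / 2 * (if w j = c then c * D c else w j * u c / (c - w j))) =
        (∑ j, (if w j = q then q ^ 2 / 2 * u c else 0)) + (c - q) ^ 2 *
          ∑ j, (if w j = q then 0 else w j ^ 2 / 2 * (u c / (c - q)) / (c - w j)) := by
      rw [Finset.mul_sum, Finset.mul_sum, ← Finset.sum_add_distrib]
      exact Finset.sum_congr rfl (fun j _ => hterm j)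
    have hsneg : ∑ j, (if w j = q then q ^ 2 / 2 * u c else 0) ≤ 0 := by
      apply Finset.sum_nonpos
      intro j _
      split_ifs
      · have : 0 ≤ q ^ 2 / 2 := by positivity
        nlinarith
      · exact le_rfl
    have hP : mu + t * lam * c = t * lam * (c - q) := by linear_combination hPq
    have huc' : t * c * u c = t * c * (u c / (c - q)) * (c - q) := by field_simp
    have hfin : c ^ 2 * ((c - q) * D c) = (c - q) ^ 2 * Bk c -
        ∑ j, (if w j = q then q ^ 2 / 2 * u c else 0) := by
      show _ = (c - q) ^ 2 * (t * lam + t * c * (u c / (c - q)) -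
        ∑ j, (if w j = q then 0 else w j ^ 2 / 2 * (u c / (c - q)) / (c - w j))) - _
      rw [hP, huc'] at h
      linear_combination (-(c - q)) * h - hsum
    have hpos : 0 < c ^ 2 * ((c - q) * D c) := by
      rw [hfin]
      have : 0 < (c - q) ^ 2 * Bk c := by positivity
      linarith
    exact (pos_iff_pos_of_mul_pos hpos).mp (by positivity)
  -- no two zeros below
  have hlow : ∀ a b, a ≠ 0 → u a = 0 → mu + t * lam * a < 0 → u b = 0 → a < b →
      mu + t * lam * b ≤ 0 → (mu + t * lam * b = 0 → 0 < b) → b ≠ 0 → False := by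
    intro a b ha0 hua hPa hub hab hPb hb0 hbne
    obtain ⟨z, haz, hzb, huz, hneg⟩ := next_zero hu hab (near_zero_neg (hD a ha0) hua
      (hDneg a ha0 hua hPa)).1 hub
    have hPz : mu + t * lam * z ≤ 0 := by nlinarith
    by_cases hz0 : z = 0
    · subst hz0
      have hmu0 : mu < 0 := by
        by_contra hcon
        have hmu' : mu = 0 := le_antisymm hmu (not_lt.mp hcon)
        have hb' : 0 < b := lt_of_le_of_ne hzb hbne.symm
        rw [hmu'] at hPb
        nlinarith
      obtain ⟨δ, hδ, hpos⟩ := horig hmu0 huz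
      have hx1 := hneg (max (a / 2) (-δ / 2)) (lt_max_of_lt_left (by linarith))
        (max_lt (by linarith) (by linarith))
      have hx2 := hpos (max (a / 2) (-δ / 2)) (lt_max_of_lt_right (by linarith))
        (max_lt (by linarith) (by linarith))
      linarith
    · rcases hPz.lt_or_eq with hPz | hPz
      · have := deriv_nonneg_of_before haz huz hneg (hD z hz0)
        linarith [hDneg z hz0 huz hPz]
      · -- z = b = c*
        have hzb' : z = b := by
          apply le_antisymm hzb
          by_contra hcon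
          push Not at hcon
          nlinarith
        subst hzb'
        have hz := hb0 hPz
        have hst := hstar z hz huz hPz
        have hst' : ∀ᶠ c in 𝓝[<] z, u c < 0 → 0 < (c - z) * D c :=
          hst.filter_mono (nhdsWithin_mono z fun x hx => ne_of_lt hx)
        obtain ⟨l, hl, hls⟩ := mem_nhdsLT_iff_exists_Ioo_subset.mp hst'
        have hl' : l < z := hl
        obtain ⟨x, hx1, hx2⟩ := exists_between (max_lt (max_lt haz hl') hz)
        have hxa : a < x := lt_of_le_of_lt ((le_max_left a l).trans (le_max_left _ _)) hx1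
        have hxl : l < x := lt_of_le_of_lt ((le_max_right a l).trans (le_max_left _ _)) hx1
        have hx0 : 0 < x := lt_of_le_of_lt (le_max_right _ _) hx1
        have hanti : StrictAntiOn u (Icc x z) := by
          apply strictAntiOn_of_deriv_neg (convex_Icc x z) hu.continuousOn
          intro c hc
          rw [interior_Icc] at hc
          rw [(hD c (by linarith [hc.1])).deriv]
          have h1 := hls ⟨by linarith [hc.1], hc.2⟩ (hneg c (by linarith [hc.1]) hc.2)
          have h2 : c - z < 0 := by linarith [hc.2]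
          nlinarith
        have := hanti (left_mem_Icc.mpr hx2.le) (right_mem_Icc.mpr hx2.le) hx2
        linarith [hneg x hxa hx2]
  -- no two zeros above
  have hhigh : ∀ a b, u a = 0 → 0 ≤ mu + t * lam * a → a ≠ 0 → u b = 0 → a < b → False := by
    intro a b hua hPa ha0 hub hab
    have ha : 0 < a := by
      rcases lt_or_gt_of_ne ha0 with h | h
      · nlinarith
      · exact h
    have hPb : 0 < mu + t * lam * b := by nlinarith
    have hDb := hDpos b (by linarith) hub hPb
    -- reflect
    let v : ℝ → ℝ := fun x => u (-x)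
    have hv : Continuous v := hu.comp continuous_neg
    have hdv : ∀ x, x ≠ 0 → HasDerivAt v (-D (-x)) x := by
      intro x hx
      have h := (hD (-x) (neg_ne_zero.mpr hx)).comp x (hasDerivAt_neg x)
      rw [mul_neg, mul_one] at h
      exact h
    have hvb : v (-b) = 0 := by show u (- -b) = 0; rw [neg_neg]; exact hub
    have hva : v (-a) = 0 := by show u (- -a) = 0; rw [neg_neg]; exact hua
    have hdvb := hdv (-b) (by linarith)
    rw [neg_neg] at hdvb
    obtain ⟨z, hz1, hz2, hz3, hz4⟩ := next_zero hv (neg_lt_neg hab)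
      (near_zero_neg hdvb hvb (by linarith)).1 hva
    have hz5 : u (-z) = 0 := hz3
    have hza : a ≤ -z := by linarith
    have hz0 : z ≠ 0 := by intro h; rw [h] at hza; linarith
    rcases (show 0 ≤ mu + t * lam * (-z) by nlinarith).lt_or_eq with hP | hP
    · have hDz := hDpos (-z) (neg_ne_zero.mpr hz0) hz5 hP
      have := deriv_nonneg_of_before hz1 hz3 hz4 (hdv z hz0)
      linarith
    · have hst := hstar (-z) (by linarith) hz5 hP.symm
      have hst' : ∀ᶠ c in 𝓝[>] (-z), u c < 0 → 0 < (c - -z) * D c :=
        hst.filter_mono (nhdsWithin_mono _ fun x hx => ne_of_gt hx)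
      obtain ⟨l, hl, hls⟩ := mem_nhdsGT_iff_exists_Ioo_subset.mp hst'
      have hl' : -z < l := hl
      obtain ⟨x, hx1, hx2⟩ := exists_between (lt_min (show -z < b by linarith) hl')
      have hxb : x < b := lt_of_lt_of_le hx2 (min_le_left _ _)
      have hxl : x < l := lt_of_lt_of_le hx2 (min_le_right _ _)
      have hun : ∀ c, -z < c → c < b → u c < 0 := by
        intro c h1 h2
        have := hz4 (-c) (by linarith) (by linarith)
        have e : v (-c) = u c := by show u (- -c) = u c; rw [neg_neg]
        rwa [e] at this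
      have hmono : StrictMonoOn u (Icc (-z) x) := by
        apply strictMonoOn_of_deriv_pos (convex_Icc (-z) x) hu.continuousOn
        intro c hc
        rw [interior_Icc] at hc
        rw [(hD c (by linarith [hc.1])).deriv]
        have h1 := hls ⟨hc.1, by linarith [hc.2]⟩ (hun c hc.1 (by linarith [hc.2]))
        have h2 : 0 < c - -z := by linarith [hc.1]
        exact (pos_iff_pos_of_mul_pos h1).mp h2
      have := hmono (left_mem_Icc.mpr hx1.le) (right_mem_Icc.mpr hx1.le) hx1
      linarith [hun x hx1 hxb]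
  -- conclusion
  have hmain : ∀ i j, w i ≠ 0 → w j ≠ 0 → w i < w j →
      (mu + t * lam * w i) * (mu + t * lam * w j) < 0 := by
    intro i j hi hj hij
    have hui := hw i hi
    have huj := hw j hj
    rcases lt_or_ge (mu + t * lam * w i) 0 with hPi | hPi
    · rcases lt_or_ge 0 (mu + t * lam * w j) with hPj | hPj
      · exact mul_neg_of_neg_of_pos hPi hPj
      · exfalso
        refine hlow (w i) (w j) hi hui hPi huj hij hPj ?_ hj
        intro h
        by_contra hcon
        have : w j < 0 := lt_of_le_of_ne (not_lt.mp hcon) hj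
        nlinarith
    · exact (hhigh (w i) (w j) hui hPi hi huj hij).elim
  intro i j hi hj hij
  rcases lt_or_gt_of_ne hij with h | h
  · exact hmain i j hi hj h
  · rw [mul_comm]
    exact hmain j i hj hi h

end

end Pool.Agent.Q298.CQ
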