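import Pool.Agent.Q298.CQ.J12a

/-!
# Gamma densities are right-heavy about the mode
-/

set_option autoImplicit false

open MeasureTheory ProbabilityTheory Set Filter Topology

namespace Pool.Agent.Q298.CQ

noncomputable section

/-- `log((1+y)/(1-y)) ≥ 2y` in the form needed -/
theorem log_ineq {k p : ℝ} (hk : 0 < k) (hp : 0 ≤ p) (hpk : p < k) :
    2 * (p / k) ≤ Real.log (k + p) - Real.log (k - p) := by
  have hy : |p / k| < 1 := by
    rw [abs_of_nonneg (by positivity), div_lt_one hk]; exact hpk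
  have h := Real.hasSum_log_sub_log_of_abs_lt_one hy
  have h2 : (2 : ℝ) * (1 / (2 * ((0 : ℕ) : ℝ) + 1)) * (p / k) ^ (2 * 0 + 1) ≤
      Real.log (1 + p / k) - Real.log (1 - p / k) :=
    le_hasSum h 0 (fun i _ => by positivity)
  have e1 : Real.log (k + p) = Real.log k + Real.log (1 + p / k) := by
    rw [← Real.log_mul hk.ne' (by positivity)]
    congr 1
    field_simp
  have e2 : Real.log (k - p) = Real.log k + Real.log (1 - p / k) := by
    have : 0 < 1 - p / k := by
      have : p / k < 1 := by rw [div_lt_one hk]; exact hpk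
      linarith
    rw [← Real.log_mul hk.ne' this.ne']
    congr 1
    field_simp
  norm_num at h2
  rw [e1, e2]
  linarith

/-- the shifted density -/
def gd (α k : ℝ) (p : ℝ) : ℝ := gammaPDFReal (α + 1) (1 / 2) (p + k)

theorem gd_pos_eq {α k p : ℝ} (hp : 0 < p + k) : gd α k p =
    (1 / 2 : ℝ) ^ (α + 1) / Real.Gamma (α + 1) *
      Real.exp (α * Real.log (p + k) - (p + k) / 2) := by
  unfold gd gammaPDFReal
  rw [if_pos hp.le, mul_assoc]
  congr 1
  rw [add_sub_cancel_right, Real.rpow_def_of_pos hp, ← Real.exp_add]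
  congr 1
  ring

theorem gd_zero {α k p : ℝ} (hα : 0 < α) (hp : p + k ≤ 0) : gd α k p = 0 := by
  unfold gd gammaPDFReal
  rcases hp.lt_or_eq with h | h
  · rw [if_neg (not_le.mpr h)]
  · rw [h, if_pos le_rfl, add_sub_cancel_right, Real.zero_rpow hα.ne']
    simp

theorem gd_nonneg {α k : ℝ} (hα : 0 < α) (p : ℝ) : 0 ≤ gd α k p :=
  gammaPDFReal_nonneg (by linarith) (by norm_num) _

theorem gd_const_pos {α : ℝ} (hα : 0 < α) : 0 < (1 / 2 : ℝ) ^ (α + 1) / Real.Gamma (α + 1) := by
  have := Real.Gamma_pos_of_pos (show 0 < α + 1 by linarith)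
  positivity

theorem gd_mono {α k : ℝ} (hα : 0 < α) (hk : k ≤ 2 * α) (p q : ℝ) (hpq : p ≤ q) (hq : q ≤ 0) :
    gd α k p ≤ gd α k q := by
  rcases le_or_gt (p + k) 0 with h | h
  · rw [gd_zero hα h]; exact gd_nonneg hα q
  · have hq' : 0 < q + k := by linarith
    rw [gd_pos_eq h, gd_pos_eq hq']
    apply mul_le_mul_of_nonneg_left _ (gd_const_pos hα).le
    apply Real.exp_le_exp.mpr
    -- α (log v - log u) ≥ (v - u)/2
    have h1 : Real.log (q + k) - Real.log (p + k) ≥ (q - p) / (q + k) := by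
      rw [← Real.log_div hq'.ne' h.ne']
      have := Real.one_sub_inv_le_log_of_pos (show 0 < (q + k) / (p + k) by positivity)
      have e : 1 - ((q + k) / (p + k))⁻¹ = (q - p) / (q + k) := by
        rw [inv_div]
        field_simp
        ring
      rw [e] at this
      exact this
    have h2 : (q - p) / (2 * α) ≤ (q - p) / (q + k) := by
      apply div_le_div_of_nonneg_left (by linarith) hq'
      linarith
    have h3 : α * ((q - p) / (2 * α)) = (q - p) / 2 := by field_simp
    have h4 : α * ((q - p) / (2 * α)) ≤ α * (Real.log (q + k) - Real.log (p + k)) :=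
      mul_le_mul_of_nonneg_left (h2.trans h1) hα.le
    linarith

theorem gd_heavy {α k : ℝ} (hα : 0 < α) (hk0 : 0 < k) (hk : k ≤ 2 * α) (p : ℝ) (hp : 0 < p) :
    gd α k (-p) ≤ gd α k p := by
  rcases le_or_gt (-p + k) 0 with h | h
  · rw [gd_zero hα h]; exact gd_nonneg hα p
  · have hq' : 0 < p + k := by linarith
    rw [gd_pos_eq h, gd_pos_eq hq']
    apply mul_le_mul_of_nonneg_left _ (gd_const_pos hα).le
    apply Real.exp_le_exp.mpr
    have h1 := log_ineq hk0 hp.le (by linarith : p < k)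
    rw [show k + p = p + k by ring, show k - p = -p + k by ring] at h1
    have h2 : p ≤ α * (2 * (p / k)) := by
      rw [show α * (2 * (p / k)) = p * (2 * α / k) by ring]
      have : 1 ≤ 2 * α / k := by rw [le_div_iff₀ hk0]; linarith
      nlinarith
    have h3 := mul_le_mul_of_nonneg_left h1 hα.le
    linarith

theorem gd_strict {α k : ℝ} (hα : 0 < α) (hk0 : 0 < k) (p : ℝ) (hp : k < p) :
    gd α k (-p) < gd α k p := by
  rw [gd_zero hα (by linarith : -p + k ≤ 0)]
  exact gammaPDFReal_pos (by linarith) (by norm_num) (by linarith)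

theorem gd_nice {α k : ℝ} (hα : 0 < α) (hk0 : 0 < k) : Nice (gd α k) := by
  refine ⟨(measurable_gammaPDFReal _ _).comp (by fun_prop), gd_nonneg hα, fun r => ?_⟩
  obtain ⟨m, hm⟩ := exists_nat_ge (α + |r|)
  obtain ⟨c, hc⟩ : ∃ c, c = (1 / 2 : ℝ) ^ (α + 1) / Real.Gamma (α + 1) := ⟨_, rfl⟩
  have hc0 : 0 < c := by rw [hc]; exact gd_const_pos hα
  refine ⟨c * ((1 + k) ^ |r| * (2 ^ m * m.factorial * Real.exp (1 / 2))), fun p => ?_⟩
  have hw : 0 < 1 + |p| := by positivity
  rcases le_or_gt (p + k) 0 with h | h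
  · rw [gd_zero hα h]; positivity
  · have hu : 0 < p + k := h
    have h1 : gd α k p = c * ((p + k) ^ α * Real.exp (-(p + k) / 2)) := by
      unfold gd gammaPDFReal
      rw [if_pos hu.le, add_sub_cancel_right, ← hc, mul_assoc]
      congr 3
      ring
    have h2 : 1 + |p| ≤ (1 + k) * (1 + (p + k)) := by
      have : |p| ≤ (p + k) + k := by
        rw [abs_le]; constructor <;> linarith
      nlinarith
    have h3 : (1 + |p|) ^ r ≤ (1 + k) ^ |r| * (1 + (p + k)) ^ |r| := by
      rw [← Real.mul_rpow (by linarith) (by linarith)]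
      calc (1 + |p|) ^ r ≤ (1 + |p|) ^ |r| :=
            Real.rpow_le_rpow_of_exponent_le (by linarith [abs_nonneg p]) (le_abs_self r)
        _ ≤ _ := Real.rpow_le_rpow hw.le h2 (abs_nonneg r)
    have h4 : (p + k) ^ α * (1 + (p + k)) ^ |r| ≤ (1 + (p + k)) ^ m := by
      have hb : (1 : ℝ) ≤ 1 + (p + k) := by linarith
      calc (p + k) ^ α * (1 + (p + k)) ^ |r| ≤ (1 + (p + k)) ^ α * (1 + (p + k)) ^ |r| := by
            apply mul_le_mul_of_nonneg_right _ (by positivity)
            exact Real.rpow_le_rpow hu.le (by linarith) hα.le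
        _ = (1 + (p + k)) ^ (α + |r|) := by rw [← Real.rpow_add (by linarith)]
        _ ≤ (1 + (p + k)) ^ (m : ℝ) := Real.rpow_le_rpow_of_exponent_le hb hm
        _ = _ := Real.rpow_natCast _ _
    have h5 : (1 + (p + k)) ^ m * Real.exp (-(p + k) / 2) ≤
        2 ^ m * m.factorial * Real.exp (1 / 2) := by
      have h6 := Real.pow_div_factorial_le_exp (x := (1 + (p + k)) / 2) (by positivity) m
      rw [div_le_iff₀ (by positivity)] at h6
      have h7 : (1 + (p + k)) ^ m = 2 ^ m * ((1 + (p + k)) / 2) ^ m := by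
        rw [← mul_pow]; congr 1; ring
      rw [h7]
      have h8 : Real.exp (-(p + k) / 2) = Real.exp (1 / 2) / Real.exp ((1 + (p + k)) / 2) := by
        rw [← Real.exp_sub]; congr 1; ring
      rw [h8, ← mul_div_assoc, div_le_iff₀ (Real.exp_pos _)]
      have h9 : 0 < Real.exp (1 / 2) := Real.exp_pos _
      have h10 : 0 < (2:ℝ) ^ m := by positivity
      calc 2 ^ m * ((1 + (p + k)) / 2) ^ m * Real.exp (1 / 2)
          ≤ 2 ^ m * (Real.exp ((1 + (p + k)) / 2) * m.factorial) * Real.exp (1 / 2) := by gcongr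
        _ = _ := by ring
    rw [Real.rpow_neg hw.le, ← div_eq_mul_inv, le_div_iff₀ (by positivity), h1]
    calc c * ((p + k) ^ α * Real.exp (-(p + k) / 2)) * (1 + |p|) ^ r
        ≤ c * ((p + k) ^ α * Real.exp (-(p + k) / 2)) *
          ((1 + k) ^ |r| * (1 + (p + k)) ^ |r|) := by gcongr
      _ = c * ((1 + k) ^ |r| * (((p + k) ^ α * (1 + (p + k)) ^ |r|) *
          Real.exp (-(p + k) / 2))) := by ring
      _ ≤ c * ((1 + k) ^ |r| * ((1 + (p + k)) ^ m * Real.exp (-(p + k) / 2))) := by gcongr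
      _ ≤ _ := by gcongr

/-- the product of gamma measures as an integral -/
theorem Ga_prod_integral {α β k l : ℝ} (hα : 0 < α) (hβ : 0 < β) (φ : ℝ × ℝ → ℝ) :
    ∫ z, φ (z.1 - k, z.2 - l) ∂((Ga (α + 1)).prod (Ga (β + 1))) =
      ∫ z : ℝ × ℝ, gd α k z.1 * gd β l z.2 * φ z := by
  have hm1 : Measurable (gammaPDF (α + 1) (1 / 2)) :=
    (measurable_gammaPDFReal _ _).ennreal_ofReal
  have hm2 : Measurable (gammaPDF (β + 1) (1 / 2)) :=
    (measurable_gammaPDFReal _ _).ennreal_ofReal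
  have hm : Measurable fun z : ℝ × ℝ =>
      gammaPDF (α + 1) (1 / 2) z.1 * gammaPDF (β + 1) (1 / 2) z.2 :=
    (hm1.comp measurable_fst).mul (hm2.comp measurable_snd)
  have hf : ∀ᵐ z : ℝ × ℝ ∂(volume.prod volume),
      gammaPDF (α + 1) (1 / 2) z.1 * gammaPDF (β + 1) (1 / 2) z.2 < ⊤ :=
    Eventually.of_forall fun z => ENNReal.mul_lt_top ENNReal.ofReal_lt_top ENNReal.ofReal_lt_top
  unfold Ga gammaMeasure
  rw [prod_withDensity hm1 hm2, integral_withDensity_eq_integral_toReal_smul hm hf]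
  have h := integral_add_right_eq_self (μ := (volume : Measure (ℝ × ℝ)))
    (fun z : ℝ × ℝ => (gammaPDF (α + 1) (1 / 2) z.1 * gammaPDF (β + 1) (1 / 2) z.2).toReal •
      φ (z.1 - k, z.2 - l)) (k, l)
  rw [← Measure.volume_eq_prod, ← h]
  congr 1
  funext z
  show (gammaPDF (α + 1) (1 / 2) (z.1 + k) * gammaPDF (β + 1) (1 / 2) (z.2 + l)).toReal •
    φ (z.1 + k - k, z.2 + l - l) = _
  rw [add_sub_cancel_right, add_sub_cancel_right, ENNReal.toReal_mul, smul_eq_mul]
  unfold gammaPDF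
  rw [ENNReal.toReal_ofReal (gammaPDFReal_nonneg (by linarith) (by norm_num) _),
    ENNReal.toReal_ofReal (gammaPDFReal_nonneg (by linarith) (by norm_num) _)]
  rfl

theorem t12 : S12 := by
  intro s x y k l hs hx hy hk hl
  have hk' : (0 : ℝ) < k := by exact_mod_cast hk
  have hl' : (0 : ℝ) < l := by exact_mod_cast hl
  have hα : (0 : ℝ) < (k : ℝ) / 2 := by positivity
  have hβ : (0 : ℝ) < (l : ℝ) / 2 := by positivity
  have h := right_heavy (gd_nice hα hk') (gd_nice hβ hl') (gd_mono hα (by linarith))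
    (gd_heavy hα hk' (by linarith)) (gd_mono hβ (by linarith)) (gd_heavy hβ hl' (by linarith))
    hk'.le hl'.le (gd_strict hα hk') (gd_strict hβ hl') hs hx hy
  have e1 : ((k : ℝ) + 2) / 2 = (k : ℝ) / 2 + 1 := by ring
  have e2 : ((l : ℝ) + 2) / 2 = (l : ℝ) / 2 + 1 := by ring
  rw [e1, e2]
  have h2 := Ga_prod_integral hα hβ (α := (k : ℝ) / 2) (β := (l : ℝ) / 2) (k := k) (l := l)
    (fun z => phi s (x * z.1 + y * z.2))
  simp only at h2
  rw [h2]
  exact h

end

end Pool.Agent.Q298.CQ
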