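import Pool.Agent.Q298.CQ.J6

/-!
# Joint continuity
-/

set_option autoImplicit false

open MeasureTheory ProbabilityTheory Set Filter Topology

namespace Pool.Agent.Q298.CQ

noncomputable section

theorem continuous_S' {n : ℕ} :
    Continuous fun z : (Fin n → ℝ) × (Fin n → ℝ) => S z.1 z.2 := by
  unfold S
  fun_prop

/-- a polynomial bound is of polynomial growth -/
theorem PG_bound (C : ℝ) (N : ℕ) : PG fun x => |C| * (1 + |x|) ^ N := by
  refine ⟨by fun_prop, |C|, N, fun x => ?_⟩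
  rw [abs_of_nonneg (by positivity)]

theorem prod_int (h1 : S1) {n : ℕ} (a : Fin n → ℝ) (c d : ℝ) {h : ℝ → ℝ} (hPG : PG h) :
    Integrable (fun w : (Fin n → ℝ) × ℝ × ℝ => h (S a w.1 + c * w.2.1 + d * w.2.2))
      ((G n).prod (E1.prod E1)) ∧
    ∫ w : (Fin n → ℝ) × ℝ × ℝ, h (S a w.1 + c * w.2.1 + d * w.2.2) ∂((G n).prod (E1.prod E1)) =
      ES a (A c (A d h)) := by
  obtain ⟨C, N, hCN⟩ := hPG.2
  let H : ℝ → ℝ := fun x => |C| * (1 + |x|) ^ N
  have hH : PG H := PG_bound C N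
  have hH0 : ∀ x, 0 ≤ H x := fun x => by show 0 ≤ |C| * (1 + |x|) ^ N; positivity
  have hle : ∀ x, |h x| ≤ H x := by
    intro x
    refine (hCN x).trans ?_
    show C * (1 + |x|) ^ N ≤ |C| * (1 + |x|) ^ N
    gcongr
    exact le_abs_self C
  have hScont : Continuous fun g : Fin n → ℝ => S a g := by unfold S; fun_prop
  have hcont : Continuous fun w : (Fin n → ℝ) × ℝ × ℝ => h (S a w.1 + c * w.2.1 + d * w.2.2) :=
    hPG.1.comp (by fun_prop)
  have hPGd : PG (A d H) := (h1.2.2.1 _ hH d).1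
  have hPGc : PG (A c (A d H)) := (h1.2.2.1 _ hPGd c).1
  have hin : ∀ x, ∫⁻ r', ‖h (x + d * r')‖ₑ ∂E1 ≤ ENNReal.ofReal (A d H x) := by
    intro x
    have e : ENNReal.ofReal (A d H x) = ∫⁻ r', ENNReal.ofReal (H (x + d * r')) ∂E1 :=
      ofReal_integral_eq_lintegral_ofReal (h1.2.2.2.1 _ hH x d).1
        (Eventually.of_forall fun r => hH0 _)
    rw [e]
    apply lintegral_mono
    intro r'
    show ‖h (x + d * r')‖ₑ ≤ ENNReal.ofReal (H (x + d * r'))
    rw [Real.enorm_eq_ofReal_abs]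
    exact ENNReal.ofReal_le_ofReal (hle _)
  have hAd0 : ∀ x, 0 ≤ A d H x := fun x => integral_nonneg fun r => hH0 _
  have hx : ∀ x, ∫⁻ w : ℝ × ℝ, ‖h (x + c * w.1 + d * w.2)‖ₑ ∂(E1.prod E1) ≤
      ENNReal.ofReal (A c (A d H) x) := by
    intro x
    have hm : Measurable fun w : ℝ × ℝ => ‖h (x + c * w.1 + d * w.2)‖ₑ :=
      (hPG.1.measurable.comp (by fun_prop)).enorm
    have e : ENNReal.ofReal (A c (A d H) x) =
        ∫⁻ r, ENNReal.ofReal (A d H (x + c * r)) ∂E1 :=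
      ofReal_integral_eq_lintegral_ofReal (h1.2.2.2.1 _ hPGd x c).1
        (Eventually.of_forall fun r => hAd0 _)
    rw [lintegral_prod _ hm.aemeasurable, e]
    exact lintegral_mono fun r => hin _
  have hxi : ∀ x, Integrable (fun w : ℝ × ℝ => h (x + c * w.1 + d * w.2)) (E1.prod E1) := by
    intro x
    refine ⟨(hPG.1.measurable.comp (by fun_prop)).aestronglyMeasurable, ?_⟩
    exact lt_of_le_of_lt (hx x) ENNReal.ofReal_lt_top
  have hint : Integrable (fun w : (Fin n → ℝ) × ℝ × ℝ => h (S a w.1 + c * w.2.1 + d * w.2.2))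
      ((G n).prod (E1.prod E1)) := by
    refine ⟨hcont.aestronglyMeasurable, ?_⟩
    show ∫⁻ z : (Fin n → ℝ) × ℝ × ℝ, ‖h (S a z.1 + c * z.2.1 + d * z.2.2)‖ₑ
      ∂((G n).prod (E1.prod E1)) < ⊤
    rw [lintegral_prod _ hcont.measurable.enorm.aemeasurable]
    calc _ ≤ ∫⁻ g, ENNReal.ofReal (A c (A d H) (S a g)) ∂G n := lintegral_mono fun g => hx (S a g)
      _ < ⊤ := (h1.2.2.2.2 n a _ hPGc).1.lintegral_lt_top
  refine ⟨hint, ?_⟩
  rw [integral_prod _ hint]
  unfold ES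
  congr 1
  funext g
  show ∫ w : ℝ × ℝ, h (S a g + c * w.1 + d * w.2) ∂(E1.prod E1) = _
  rw [integral_prod _ (hxi _)]
  rfl

theorem E1_nonneg : ∀ᵐ r ∂E1, 0 ≤ r := by
  have hm : Measurable (gammaPDF 1 1) := (measurable_gammaPDFReal 1 1).ennreal_ofReal
  unfold E1 expMeasure gammaMeasure
  rw [ae_withDensity_iff hm]
  apply Eventually.of_forall
  intro r hr
  by_contra h
  apply hr
  unfold gammaPDF gammaPDFReal
  rw [if_neg h]
  simp

theorem t2 (h1 : S1) : S2 := by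
  intro n h hPG
  have e : (fun z : (Fin n → ℝ) × ℝ × ℝ => ES z.1 (A z.2.1 (A z.2.2 h))) = fun z =>
      ∫ w : (Fin n → ℝ) × ℝ × ℝ, h (S z.1 w.1 + z.2.1 * w.2.1 + z.2.2 * w.2.2)
        ∂((G n).prod (E1.prod E1)) := by
    funext z
    exact (prod_int h1 z.1 z.2.1 z.2.2 hPG).2.symm
  rw [e, continuous_iff_continuousAt]
  intro z₀
  obtain ⟨C, N, hCN⟩ := hPG.2
  obtain ⟨M, hM⟩ : ∃ M : ℝ, M = ‖z₀‖ + 1 := ⟨_, rfl⟩
  have hM0 : 0 ≤ M := by rw [hM]; positivity
  have hnear : ∀ᶠ z in 𝓝 z₀, ‖z‖ ≤ M := by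
    filter_upwards [Metric.ball_mem_nhds z₀ one_pos] with z hz
    rw [mem_ball_iff_norm] at hz
    rw [hM]
    have := norm_le_norm_add_norm_sub' z z₀
    linarith
  let H : ℝ → ℝ := fun x => |C| * (1 + |x|) ^ N
  have hH : PG fun x => H (x + 2 * n * M) := (PG_bound C N).shift _
  have hbi := (prod_int h1 (fun _ : Fin n => M) M M hH).1
  have hscont : ∀ z : (Fin n → ℝ) × ℝ × ℝ, Continuous fun w : (Fin n → ℝ) × ℝ × ℝ =>
      h (S z.1 w.1 + z.2.1 * w.2.1 + z.2.2 * w.2.2) := by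
    intro z
    apply hPG.1.comp
    have hS1 : Continuous fun w : (Fin n → ℝ) × ℝ × ℝ => S z.1 w.1 := by
      unfold S
      fun_prop
    fun_prop
  apply continuousAt_of_dominated (bound := fun w : (Fin n → ℝ) × ℝ × ℝ =>
    H (S (fun _ : Fin n => M) w.1 + M * w.2.1 + M * w.2.2 + 2 * n * M))
  · exact Eventually.of_forall fun z => (hscont z).aestronglyMeasurable
  · filter_upwards [hnear] with z hz
    have hr1 : ∀ᵐ w : (Fin n → ℝ) × ℝ × ℝ ∂((G n).prod (E1.prod E1)), 0 ≤ w.2.1 := by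
      have h2 : ∀ᵐ w : ℝ × ℝ ∂(E1.prod E1), 0 ≤ w.1 :=
        Measure.quasiMeasurePreserving_fst.ae E1_nonneg
      exact Measure.quasiMeasurePreserving_snd.ae h2
    have hr2 : ∀ᵐ w : (Fin n → ℝ) × ℝ × ℝ ∂((G n).prod (E1.prod E1)), 0 ≤ w.2.2 := by
      have h2 : ∀ᵐ w : ℝ × ℝ ∂(E1.prod E1), 0 ≤ w.2 :=
        Measure.quasiMeasurePreserving_snd.ae E1_nonneg
      exact Measure.quasiMeasurePreserving_snd.ae h2
    filter_upwards [hr1, hr2] with w hw1 hw2
    have hz1 : ∀ k, |z.1 k| ≤ M := fun k =>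
      ((norm_le_pi_norm z.1 k).trans (norm_fst_le z)).trans hz
    have hz2 : |z.2.1| ≤ M := ((norm_fst_le z.2).trans (norm_snd_le z)).trans hz
    have hz3 : |z.2.2| ≤ M := ((norm_snd_le z.2).trans (norm_snd_le z)).trans hz
    have hS : |S z.1 w.1| ≤ S (fun _ : Fin n => M) w.1 + 2 * n * M := by
      have e1 : S (fun _ : Fin n => M) w.1 + 2 * n * M = ∑ k, M * (w.1 k ^ 2 + 1) := by
        unfold S
        simp only [mul_sub, mul_add, Finset.sum_sub_distrib, Finset.sum_add_distrib,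
          Finset.sum_const, Finset.card_univ, Fintype.card_fin, nsmul_eq_mul]
        ring
      rw [e1]
      unfold S
      refine (Finset.abs_sum_le_sum_abs _ _).trans (Finset.sum_le_sum fun k _ => ?_)
      rw [abs_mul]
      have h3 : |w.1 k ^ 2 - 1| ≤ w.1 k ^ 2 + 1 := by
        rw [abs_le]
        constructor <;> nlinarith [sq_nonneg (w.1 k)]
      exact mul_le_mul (hz1 k) h3 (abs_nonneg _) hM0
    have h4 : |S z.1 w.1 + z.2.1 * w.2.1 + z.2.2 * w.2.2| ≤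
        S (fun _ : Fin n => M) w.1 + M * w.2.1 + M * w.2.2 + 2 * n * M := by
      have e1 : |z.2.1 * w.2.1| ≤ M * w.2.1 := by
        rw [abs_mul, abs_of_nonneg hw1]; exact mul_le_mul_of_nonneg_right hz2 hw1
      have e2 : |z.2.2 * w.2.2| ≤ M * w.2.2 := by
        rw [abs_mul, abs_of_nonneg hw2]; exact mul_le_mul_of_nonneg_right hz3 hw2
      have e3 := abs_add_le (S z.1 w.1 + z.2.1 * w.2.1) (z.2.2 * w.2.2)
      have e4 := abs_add_le (S z.1 w.1) (z.2.1 * w.2.1)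
      linarith
    rw [Real.norm_eq_abs]
    calc |h (S z.1 w.1 + z.2.1 * w.2.1 + z.2.2 * w.2.2)|
        ≤ C * (1 + |S z.1 w.1 + z.2.1 * w.2.1 + z.2.2 * w.2.2|) ^ N := hCN _
      _ ≤ |C| * (1 + |S z.1 w.1 + z.2.1 * w.2.1 + z.2.2 * w.2.2|) ^ N := by
          gcongr; exact le_abs_self C
      _ ≤ |C| * (1 + |S (fun _ : Fin n => M) w.1 + M * w.2.1 + M * w.2.2 + 2 * n * M|) ^ N := by
          have := h4.trans (le_abs_self _)
          gcongr
  · exact hbi
  · apply Eventually.of_forall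
    intro w
    have hS1 : Continuous fun z : (Fin n → ℝ) × ℝ × ℝ => S z.1 w.1 := by
      unfold S
      fun_prop
    have : Continuous fun z : (Fin n → ℝ) × ℝ × ℝ =>
        h (S z.1 w.1 + z.2.1 * w.2.1 + z.2.2 * w.2.2) := hPG.1.comp (by fun_prop)
    exact this.continuousAt

end

end Pool.Agent.Q298.CQ
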