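import Pool.Agent.Q298.CQ.J4a

/-!
# The divided difference of `L` as an integral
-/

set_option autoImplicit false

open MeasureTheory ProbabilityTheory Set Filter Topology

namespace Pool.Agent.Q298.CQ

noncomputable section

theorem A_comm (h1 : S1) {h : ℝ → ℝ} (hPG : PG h) (c d x : ℝ) : A c (A d h) x = A d (A c h) x := by
  by_cases hcd : c = d
  · rw [hcd]
  · have h5 := t5 h1 h hPG
    rw [h5.1 c d x hcd, h5.1 d c x (Ne.symm hcd)]
    have e1 : c - d ≠ 0 := sub_ne_zero.mpr hcd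
    have e2 : d - c ≠ 0 := sub_ne_zero.mpr (Ne.symm hcd)
    field_simp
    ring

theorem continuous_S {n : ℕ} (a : Fin n → ℝ) : Continuous fun g : Fin n → ℝ => S a g := by
  unfold S
  fun_prop

theorem t4 (h1 : S1) : S4 := by
  intro n t a c d ht
  by_cases hc : c = 0
  · subst hc
    have hA0 : ∀ h, A 0 h = h := fun h => by funext x; unfold A; simp
    unfold N L
    rw [hA0]
    ring
  have hs : -1 < t - 1 := by linarith
  have hPG : PG (ab t) := h1.1 t ht.le
  obtain ⟨R, hRPG, hR⟩ := phi_E1 h1 hs hc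
  -- lintegral bound in r
  have hin : ∀ x, ∫⁻ r, ‖phi (t - 1) (x + c * r)‖ₑ ∂E1 ≤ ENNReal.ofReal (R x) := by
    intro x
    obtain ⟨_, i1, i2⟩ := hR x
    have e : ∫⁻ r, ‖phi (t - 1) (x + c * r)‖ₑ ∂E1 =
        ENNReal.ofReal (∫ r, ‖phi (t - 1) (x + c * r)‖ ∂E1) :=
      (ofReal_integral_norm_eq_lintegral_enorm i1).symm
    rw [e]
    exact ENNReal.ofReal_le_ofReal i2
  have hPGR : PG (A d R) := (h1.2.2.1 _ hRPG d).1
  have hin2 : ∀ x, ∫⁻ r', ENNReal.ofReal (R (x + d * r')) ∂E1 = ENNReal.ofReal (A d R x) := by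
    intro x
    exact (ofReal_integral_eq_lintegral_ofReal (h1.2.2.2.1 _ hRPG x d).1
      (Eventually.of_forall fun r => (hR _).1)).symm
  -- for fixed x
  have hm2 : Measurable fun z : ℝ × ℝ × ℝ => phi (t - 1) (z.1 + c * z.2.1 + d * z.2.2) :=
    (measurable_phi _).comp (by fun_prop)
  have hx : ∀ x, ∫⁻ w : ℝ × ℝ, ‖phi (t - 1) (x + c * w.1 + d * w.2)‖ₑ ∂(E1.prod E1) ≤
      ENNReal.ofReal (A d R x) := by
    intro x
    have hm : Measurable fun w : ℝ × ℝ => ‖phi (t - 1) (x + c * w.1 + d * w.2)‖ₑ :=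
      ((measurable_phi _).comp (by fun_prop)).enorm
    rw [lintegral_prod_symm' _ hm, ← hin2 x]
    apply lintegral_mono
    intro r'
    have e : ∀ r, x + c * r + d * r' = (x + d * r') + c * r := fun r => by ring
    simp only [e]
    exact hin _
  have hxi : ∀ x, Integrable (fun w : ℝ × ℝ => phi (t - 1) (x + c * w.1 + d * w.2))
      (E1.prod E1) := by
    intro x
    refine ⟨((measurable_phi _).comp (by fun_prop)).aestronglyMeasurable, ?_⟩
    exact lt_of_le_of_lt (hx x) ENNReal.ofReal_lt_top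
  have hmS : Measurable fun z : (Fin n → ℝ) × ℝ × ℝ =>
      phi (t - 1) (S a z.1 + c * z.2.1 + d * z.2.2) := by
    apply (measurable_phi _).comp
    have := (continuous_S a).measurable
    fun_prop
  have hint : Integrable (fun z : (Fin n → ℝ) × ℝ × ℝ =>
      phi (t - 1) (S a z.1 + c * z.2.1 + d * z.2.2)) ((G n).prod (E1.prod E1)) := by
    refine ⟨hmS.aestronglyMeasurable, ?_⟩
    show ∫⁻ z : (Fin n → ℝ) × ℝ × ℝ, ‖phi (t - 1) (S a z.1 + c * z.2.1 + d * z.2.2)‖ₑ
      ∂((G n).prod (E1.prod E1)) < ⊤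
    rw [lintegral_prod _ hmS.enorm.aemeasurable]
    calc _ ≤ ∫⁻ g, ENNReal.ofReal (A d R (S a g)) ∂G n := lintegral_mono fun g => hx (S a g)
      _ < ⊤ := (h1.2.2.2.2 n a _ hPGR).1.lintegral_lt_top
  -- inner value
  have hval : ∀ x, (∫ w : ℝ × ℝ, phi (t - 1) (x + c * w.1 + d * w.2) ∂(E1.prod E1)) * (t * c) =
      A d (A c (ab t)) x - A d (ab t) x := by
    intro x
    rw [integral_prod_symm _ (hxi x)]
    have e : ∀ r', (∫ r, phi (t - 1) (x + c * r + d * r') ∂E1) * (t * c) =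
        A c (ab t) (x + d * r') - ab t (x + d * r') := by
      intro r'
      have h2 := A_parts_ab h1 hs hc (x + d * r')
      rw [show t - 1 + 1 = t by ring] at h2
      rw [h2]
      unfold A
      have e2 : ∀ r, x + c * r + d * r' = (x + d * r') + c * r := fun r => by ring
      simp only [e2]
      ring
    rw [← integral_mul_const]
    simp only [e]
    unfold A
    rw [integral_sub]
    · exact (h1.2.2.2.1 _ (h1.2.2.1 _ hPG c).1 x d).1
    · exact (h1.2.2.2.1 _ hPG x d).1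
  have hfin : Psi (t - 1) a c d * (t * c) = N t a c d - L t a d := by
    unfold Psi
    rw [integral_prod _ hint, ← integral_mul_const]
    simp only [hval]
    rw [integral_sub]
    · congr 1
      unfold N ES
      congr 1
      funext g
      exact A_comm h1 hPG d c _
    · exact (h1.2.2.2.2 n a _ (h1.2.2.1 _ (h1.2.2.1 _ hPG c).1 d).1).1
    · exact (h1.2.2.2.2 n a _ (h1.2.2.1 _ hPG d).1).1
  rw [← hfin]
  ring

end

end Pool.Agent.Q298.CQ
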