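import Pool.Agent.Q298.CQ.Stm

/-!
# Moments of centred Gaussian quadratic forms: first and second order conditions
-/

set_option autoImplicit false

open MeasureTheory ProbabilityTheory Set Filter Topology

namespace Pool.Agent.Q298.CQ

noncomputable section

variable {n : ℕ}

/-! ### elementary facts -/

theorem phi_neg (s x : ℝ) : phi s (-x) = -phi s x := by
  unfold phi
  rw [abs_neg, Real.sign_neg]
  ring

theorem S_neg (a g : Fin n → ℝ) : S (-a) g = -S a g := by
  unfold S
  simp [Finset.sum_neg_distrib]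

theorem ab_neg (t x : ℝ) : ab t (-x) = ab t x := by
  unfold ab; rw [abs_neg]

theorem mom_neg (p : ℝ) (a : Fin n → ℝ) : mom p (-a) = mom p a := by
  unfold mom ES
  simp only [S_neg, ab_neg]

theorem mu_neg (t : ℝ) (a : Fin n → ℝ) : mu t (-a) = -mu t a := by
  unfold mu ES
  simp only [S_neg, phi_neg]
  rw [integral_neg]

theorem A_zero (h : ℝ → ℝ) : A 0 h = h := by
  funext x
  unfold A
  simp

theorem L_eq_N (t : ℝ) (a : Fin n → ℝ) (c : ℝ) : L t a c = N t a 0 c := by
  unfold N L
  rw [A_zero]

theorem mom_eq_N (t : ℝ) (a : Fin n → ℝ) : mom t a = N t a 0 0 := by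
  unfold mom N
  rw [A_zero, A_zero]

theorem rot_i (i j : Fin n) (θ : ℝ) (a : Fin n → ℝ) :
    rot i j θ a i = Real.cos θ * a i - Real.sin θ * a j := by
  simp [rot]

theorem rot_j {i j : Fin n} (h : i ≠ j) (θ : ℝ) (a : Fin n → ℝ) :
    rot i j θ a j = Real.sin θ * a i + Real.cos θ * a j := by
  simp [rot, h.symm]

theorem rot_k {i j k : Fin n} (hi : k ≠ i) (hj : k ≠ j) (θ : ℝ) (a : Fin n → ℝ) :
    rot i j θ a k = a k := by
  simp [rot, hi, hj]

theorem rot_zero {i j : Fin n} (h : i ≠ j) (a : Fin n → ℝ) : rot i j 0 a = a := by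
  funext k
  by_cases hi : k = i
  · subst hi; rw [rot_i]; simp
  · by_cases hj : k = j
    · subst hj; rw [rot_j h]; simp
    · rw [rot_k hi hj]

theorem rot_sq {i j : Fin n} (h : i ≠ j) (θ : ℝ) (a : Fin n → ℝ) :
    ∑ k, rot i j θ a k ^ 2 = ∑ k, a k ^ 2 := by
  classical
  have hsplit : ∀ b : Fin n → ℝ, ∑ k, b k ^ 2 =
      b i ^ 2 + b j ^ 2 + ∑ k ∈ (Finset.univ.erase i).erase j, b k ^ 2 := by
    intro b
    rw [← Finset.add_sum_erase Finset.univ (fun k => b k ^ 2) (Finset.mem_univ i),
      ← Finset.add_sum_erase (Finset.univ.erase i) (fun k => b k ^ 2)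
        (Finset.mem_erase.mpr ⟨h.symm, Finset.mem_univ j⟩)]
    ring
  rw [hsplit, hsplit a, rot_i, rot_j h]
  have : ∑ k ∈ (Finset.univ.erase i).erase j, rot i j θ a k ^ 2 =
      ∑ k ∈ (Finset.univ.erase i).erase j, a k ^ 2 := by
    apply Finset.sum_congr rfl
    intro k hk
    rw [Finset.mem_erase, Finset.mem_erase] at hk
    rw [rot_k hk.2.1 hk.1]
  rw [this]
  have := Real.sin_sq_add_cos_sq θ
  linear_combination (a i ^ 2 + a j ^ 2) * this

theorem continuous_rot (i j : Fin n) (a : Fin n → ℝ) : Continuous fun θ => rot i j θ a := by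
  apply continuous_pi
  intro k
  unfold rot
  by_cases hi : k = i
  · simp only [hi, if_true]
    fun_prop
  · by_cases hj : k = j
    · simp only [hj, if_true]
      split_ifs <;> fun_prop
    · simp only [hi, hj, if_false]
      fun_prop

/-! ### derivative of `L` -/

theorem t9 (h1 : S1) (h2 : S2) (h5 : S5) : S9 := by
  intro n t a c ht hc
  have hPG : PG (ab t) := h1.1 t ht.le
  have hPGA : ∀ c, PG (A c (ab t)) := fun c => (h1.2.2.1 _ hPG c).1
  have hint : ∀ h, PG h → Integrable (fun g => h (S a g)) (G n) := fun h hh =>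
    (h1.2.2.2.2 n a h hh).1
  -- M c = c L c has derivative L2
  have hN : ∀ d, d ≠ c → N t a d c = (d * L t a d - c * L t a c) / (d - c) := by
    intro d hd
    unfold N L ES
    rw [← integral_const_mul, ← integral_const_mul, ← integral_sub, ← integral_div]
    · congr 1
      funext g
      exact (h5 _ hPG).1 d c (S a g) hd
    · exact (hint _ (hPGA d)).const_mul d
    · exact (hint _ (hPGA c)).const_mul c
  have hNc : N t a c c = L2 t a c := by
    unfold N L2 ES
    congr 1
    funext g
    exact (h5 _ hPG).2 c (S a g)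
  have hcont : Continuous fun d => N t a d c := by
    have := h2 n (ab t) hPG
    exact this.comp (by fun_prop : Continuous fun d : ℝ => (a, d, c))
  have hM : HasDerivAt (fun d => d * L t a d) (L2 t a c) c := by
    rw [hasDerivAt_iff_tendsto_slope]
    have : Tendsto (fun d => N t a d c) (𝓝[≠] c) (𝓝 (L2 t a c)) := by
      rw [← hNc]
      exact (hcont.tendsto c).mono_left nhdsWithin_le_nhds
    refine this.congr' ?_
    filter_upwards [self_mem_nhdsWithin] with d hd
    rw [hN d hd, slope_def_field]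
  have hL : (fun d => d * L t a d / d) =ᶠ[𝓝 c] L t a := by
    filter_upwards [isOpen_ne.mem_nhds hc] with d hd
    have hd' : d ≠ 0 := hd
    field_simp
  have h3 := (hM.div (hasDerivAt_id c) hc)
  have h4 := h3.congr_of_eventuallyEq (f₁ := L t a) (by
    refine hL.symm.trans ?_
    exact Eventually.of_forall fun d => rfl)
  have e : (L2 t a c - L t a c) / c = (L2 t a c * id c - c * L t a c * 1) / id c ^ 2 := by
    simp only [id]
    field_simp
  rw [e]
  exact h4

end

end Pool.Agent.Q298.CQ
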