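import Pool.Agent.Q298.CQ.J6
import Pool.Agent.Q298.CQ.Fin0

/-!
# The derivative along rotations
-/

set_option autoImplicit false

open MeasureTheory ProbabilityTheory Set Filter Topology

namespace Pool.Agent.Q298.CQ

noncomputable section

theorem rot_abs_le {n : ℕ} (i j : Fin n) (hij : i ≠ j) (θ : ℝ) (a : Fin n → ℝ) (k : Fin n) :
    |rot i j θ a k| ≤ ∑ l, |a l| := by
  classical
  have h2 : |a i| + |a j| ≤ ∑ l, |a l| := by
    rw [← Finset.add_sum_erase Finset.univ _ (Finset.mem_univ i),
      ← Finset.add_sum_erase (Finset.univ.erase i) _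
        (Finset.mem_erase.mpr ⟨hij.symm, Finset.mem_univ j⟩)]
    have : 0 ≤ ∑ x ∈ (Finset.univ.erase i).erase j, |a x| :=
      Finset.sum_nonneg fun _ _ => abs_nonneg _
    linarith
  have hs := Real.abs_sin_le_one θ
  have hc := Real.abs_cos_le_one θ
  by_cases hi : k = i
  · subst hi
    rw [rot_i]
    calc |Real.cos θ * a k - Real.sin θ * a j| ≤ |Real.cos θ * a k| + |Real.sin θ * a j| :=
        abs_sub _ _
      _ = |Real.cos θ| * |a k| + |Real.sin θ| * |a j| := by rw [abs_mul, abs_mul]
      _ ≤ 1 * |a k| + 1 * |a j| := by gcongr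
      _ ≤ _ := by linarith
  · by_cases hj : k = j
    · subst hj
      rw [rot_j hij]
      calc |Real.sin θ * a i + Real.cos θ * a k| ≤ |Real.sin θ * a i| + |Real.cos θ * a k| :=
          abs_add_le _ _
        _ = |Real.sin θ| * |a i| + |Real.cos θ| * |a k| := by rw [abs_mul, abs_mul]
        _ ≤ 1 * |a i| + 1 * |a k| := by gcongr
        _ ≤ _ := by linarith
    · rw [rot_k hi hj]
      exact Finset.single_le_sum (f := fun l => |a l|) (fun l _ => abs_nonneg _)
        (Finset.mem_univ k)

theorem t8 (h1 : S1) (h6 : S6) (h7 : S7) : S8 := by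
  intro n p a i j θ₀ hp hij
  have ht : 0 < p - 2 := by linarith
  obtain ⟨M, hMdef⟩ : ∃ M, M = ∑ l, |a l| := ⟨_, rfl⟩
  have hM0 : 0 ≤ M := by rw [hMdef]; exact Finset.sum_nonneg fun _ _ => abs_nonneg _
  have hb : ∀ θ k, |rot i j θ a k| ≤ M := fun θ k => by
    rw [hMdef]; exact rot_abs_le i j hij θ a k
  let T : (Fin n → ℝ) → ℝ := fun g => ∑ k, (g k ^ 2 + 1)
  have hT0 : ∀ g, 0 ≤ T g := fun g => Finset.sum_nonneg fun k _ => by positivity
  have hTk : ∀ g k, g k ^ 2 + 1 ≤ T g := fun g k =>
    Finset.single_le_sum (f := fun k => g k ^ 2 + 1) (fun k _ => by positivity) (Finset.mem_univ k)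
  have hXk : ∀ (g : Fin n → ℝ) k, |g k ^ 2 - 1| ≤ g k ^ 2 + 1 := by
    intro g k
    rw [abs_le]
    constructor <;> nlinarith [sq_nonneg (g k)]
  have hSb : ∀ θ g, |S (rot i j θ a) g| ≤ M * T g := by
    intro θ g
    unfold S
    calc |∑ k, rot i j θ a k * (g k ^ 2 - 1)| ≤ ∑ k, |rot i j θ a k * (g k ^ 2 - 1)| :=
        Finset.abs_sum_le_sum_abs _ _
      _ ≤ ∑ k, M * (g k ^ 2 + 1) := by
          apply Finset.sum_le_sum
          intro k _
          rw [abs_mul]
          exact mul_le_mul (hb θ k) (hXk g k) (abs_nonneg _) hM0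
      _ = M * T g := by rw [← Finset.mul_sum]
  -- derivative of S
  let X' : ℝ → (Fin n → ℝ) → ℝ := fun θ g =>
    -(rot i j θ a j) * (g i ^ 2 - 1) + rot i j θ a i * (g j ^ 2 - 1)
  have hSd : ∀ θ g, HasDerivAt (fun θ => S (rot i j θ a) g) (X' θ g) θ := by
    intro θ g
    have hk : ∀ k ∈ (Finset.univ : Finset (Fin n)), HasDerivAt
        (fun θ => rot i j θ a k * (g k ^ 2 - 1))
        ((if k = i then -(rot i j θ a j) else if k = j then rot i j θ a i else 0) *
          (g k ^ 2 - 1)) θ := by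
      intro k _
      apply HasDerivAt.mul_const
      by_cases hi : k = i
      · subst hi
        rw [if_pos rfl]
        have h := ((Real.hasDerivAt_cos θ).mul_const (a k)).sub
          ((Real.hasDerivAt_sin θ).mul_const (a j))
        have e : (fun θ => rot k j θ a k) = fun θ => Real.cos θ * a k - Real.sin θ * a j := by
          funext θ; exact rot_i _ _ _ _
        rw [e]
        refine HasDerivAt.congr_deriv h ?_
        rw [rot_j hij]; ring
      · rw [if_neg hi]
        by_cases hj : k = j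
        · subst hj
          rw [if_pos rfl]
          have h := ((Real.hasDerivAt_sin θ).mul_const (a i)).add
            ((Real.hasDerivAt_cos θ).mul_const (a k))
          have e : (fun θ => rot i k θ a k) = fun θ => Real.sin θ * a i + Real.cos θ * a k := by
            funext θ; exact rot_j hij _ _
          rw [e]
          refine HasDerivAt.congr_deriv h ?_
          rw [rot_i]; ring
        · rw [if_neg hj]
          have e : (fun θ => rot i j θ a k) = fun _ => a k := by
            funext θ; exact rot_k hi hj _ _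
          rw [e]
          exact hasDerivAt_const _ _
    have h := HasDerivAt.fun_sum hk
    refine HasDerivAt.congr_deriv h ?_
    classical
    rw [← Finset.add_sum_erase Finset.univ _ (Finset.mem_univ i),
      ← Finset.add_sum_erase (Finset.univ.erase i) _
        (Finset.mem_erase.mpr ⟨hij.symm, Finset.mem_univ j⟩)]
    rw [if_pos rfl, if_neg hij.symm, if_pos rfl, Finset.sum_eq_zero]
    · ring
    · intro k hk
      rw [Finset.mem_erase, Finset.mem_erase] at hk
      rw [if_neg hk.2.1, if_neg hk.1, zero_mul]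
  have hX'b : ∀ θ g, |X' θ g| ≤ 2 * (M * T g) := by
    intro θ g
    calc |X' θ g| ≤ |-(rot i j θ a j) * (g i ^ 2 - 1)| + |rot i j θ a i * (g j ^ 2 - 1)| :=
        abs_add_le _ _
      _ = |rot i j θ a j| * |g i ^ 2 - 1| + |rot i j θ a i| * |g j ^ 2 - 1| := by
          rw [abs_mul, abs_mul, abs_neg]
      _ ≤ M * T g + M * T g := by
          apply add_le_add
          · exact mul_le_mul (hb θ j) ((hXk g i).trans (hTk g i)) (abs_nonneg _) hM0
          · exact mul_le_mul (hb θ i) ((hXk g j).trans (hTk g j)) (abs_nonneg _) hM0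
      _ = _ := by ring
  -- the derivative of |S|^p
  let F' : ℝ → (Fin n → ℝ) → ℝ := fun θ g =>
    p * |S (rot i j θ a) g| ^ (p - 2) * S (rot i j θ a) g * X' θ g
  have hFd : ∀ θ g, HasDerivAt (fun θ => ab p (S (rot i j θ a) g)) (F' θ g) θ := by
    intro θ g
    exact (hasDerivAt_abs_rpow _ (by linarith : 1 < p)).comp θ (hSd θ g)
  have hScont : ∀ θ, Continuous fun g : Fin n → ℝ => S (rot i j θ a) g := by
    intro θ
    unfold S
    fun_prop
  have hF'm : ∀ θ, Continuous (F' θ) := by
    intro θ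
    have h2 := hScont θ
    have h3 : Continuous fun g : Fin n → ℝ => |S (rot i j θ a) g| ^ (p - 2) :=
      h2.abs.rpow_const fun _ => Or.inr ht.le
    have h4 : Continuous (X' θ) := by
      show Continuous fun g : Fin n → ℝ =>
        -(rot i j θ a j) * (g i ^ 2 - 1) + rot i j θ a i * (g j ^ 2 - 1)
      fun_prop
    exact ((continuous_const.mul h3).mul h2).mul h4
  have hbound : ∀ θ g, ‖F' θ g‖ ≤ 2 * p * (M ^ p * T g ^ p) := by
    intro θ g
    have hMT : 0 ≤ M * T g := mul_nonneg hM0 (hT0 g)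
    have e1 : |S (rot i j θ a) g| ^ (p - 2) ≤ (M * T g) ^ (p - 2) :=
      Real.rpow_le_rpow (abs_nonneg _) (hSb θ g) ht.le
    show ‖p * |S (rot i j θ a) g| ^ (p - 2) * S (rot i j θ a) g * X' θ g‖ ≤ _
    rw [norm_mul, norm_mul, norm_mul, Real.norm_eq_abs, Real.norm_eq_abs, Real.norm_eq_abs,
      Real.norm_eq_abs, abs_of_pos (by linarith : 0 < p),
      abs_of_nonneg (Real.rpow_nonneg (abs_nonneg _) _)]
    calc p * |S (rot i j θ a) g| ^ (p - 2) * |S (rot i j θ a) g| * |X' θ g|
        ≤ p * (M * T g) ^ (p - 2) * (M * T g) * (2 * (M * T g)) := by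
          have := hSb θ g
          have := hX'b θ g
          have hp0 : 0 ≤ p := by linarith
          gcongr
      _ = 2 * p * (M * T g) ^ p := by
          have : (M * T g) ^ p = (M * T g) ^ (p - 2) * (M * T g) ^ (2 : ℕ) := by
            by_cases h0 : M * T g = 0
            · rw [h0, Real.zero_rpow (by linarith)]; ring
            · rw [← Real.rpow_add_natCast h0]
              congr 1
              push_cast
              ring
          rw [this]; ring
      _ = _ := by rw [Real.mul_rpow hM0 (hT0 g)]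
  have hTint : Integrable (fun g => 2 * p * (M ^ p * T g ^ p)) (G n) := by
    have h2 := (h1.2.2.2.2 n (fun _ => 1) _ ((h1.1 p (by linarith)).shift (2 * n))).1
    have h3 := (h2.const_mul (M ^ p)).const_mul (2 * p)
    refine h3.congr (Eventually.of_forall fun g => ?_)
    show 2 * p * (M ^ p * ab p (S (fun _ => 1) g + 2 * n)) = 2 * p * (M ^ p * T g ^ p)
    have : S (fun _ => 1) g + 2 * n = T g := by
      show ∑ k, (1 : ℝ) * (g k ^ 2 - 1) + 2 * (n : ℝ) = ∑ k, (g k ^ 2 + 1)
      simp only [one_mul, Finset.sum_sub_distrib, Finset.sum_add_distrib, Finset.sum_const,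
        Finset.card_univ, Fintype.card_fin, nsmul_eq_mul, mul_one]
      ring
    rw [this]
    unfold ab
    rw [abs_of_nonneg (hT0 g)]
  have hint0 : Integrable (fun g => ab p (S (rot i j θ₀ a) g)) (G n) :=
    (h1.2.2.2.2 n _ _ (h1.1 p (by linarith))).1
  have hmeas : ∀ᶠ θ in 𝓝 θ₀, AEStronglyMeasurable (fun g => ab p (S (rot i j θ a) g)) (G n) := by
    apply Eventually.of_forall
    intro θ
    exact ((hScont θ).abs.rpow_const fun _ => Or.inr (by linarith)).aestronglyMeasurable
  have hmain := (hasDerivAt_integral_of_dominated_loc_of_deriv_le (F := fun θ g =>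
    ab p (S (rot i j θ a) g)) (F' := F') (x₀ := θ₀) (bound := fun g => 2 * p * (M ^ p * T g ^ p))
    (s := univ) univ_mem hmeas hint0 (hF'm θ₀).aestronglyMeasurable
    (Eventually.of_forall fun g θ _ => hbound θ g) hTint
    (Eventually.of_forall fun g θ _ => hFd θ g)).2
  refine HasDerivAt.congr_deriv hmain ?_
  -- evaluation
  obtain ⟨b, hbdef⟩ : ∃ b, b = rot i j θ₀ a := ⟨_, rfl⟩
  have hPGphi : PG (phi (p - 2 + 1)) := h1.2.1 _ (by linarith)
  have hPGab : PG (ab (p - 2)) := h1.1 _ ht.le
  have hk : ∀ k, ∫ g, (g k ^ 2 - 1) * phi (p - 2 + 1) (S b g) ∂G n =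
      2 * b k * ((p - 1) * L (p - 2) b (2 * b k)) := by
    intro k
    rw [h6 n b k _ _ (hasDerivAt_phi ht) (hPGab.const_mul _)]
    congr 1
    have e : ∀ g : Fin n → ℝ, g k ^ 2 * ((p - 2 + 1) * ab (p - 2) (S b g)) =
        (p - 1) * (g k ^ 2 * ab (p - 2) (S b g)) := by
      intro g; ring
    simp only [e]
    rw [integral_const_mul, h7 n b k _ hPGab]
    rfl
  have hik : ∀ k, Integrable (fun g : Fin n → ℝ => (g k ^ 2 - 1) * phi (p - 2 + 1) (S b g)) (G n) := by
    intro k
    obtain ⟨j1, j2⟩ := h1.2.2.2.2 n b _ hPGphi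
    refine ((j2 k).sub j1).congr (Eventually.of_forall fun g => ?_)
    show g k ^ 2 * phi (p - 2 + 1) (S b g) - phi (p - 2 + 1) (S b g) = _
    ring
  have e1 : ∀ g, F' θ₀ g = p * (-(b j)) * ((g i ^ 2 - 1) * phi (p - 2 + 1) (S b g)) +
      p * b i * ((g j ^ 2 - 1) * phi (p - 2 + 1) (S b g)) := by
    intro g
    show p * |S (rot i j θ₀ a) g| ^ (p - 2) * S (rot i j θ₀ a) g *
      (-(rot i j θ₀ a j) * (g i ^ 2 - 1) + rot i j θ₀ a i * (g j ^ 2 - 1)) = _
    rw [← hbdef, phi_eq]
    ring
  simp only [e1]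
  rw [integral_add ((hik i).const_mul _) ((hik j).const_mul _), integral_const_mul,
    integral_const_mul, hk, hk, ← hbdef]
  ring

end

end Pool.Agent.Q298.CQ
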