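import Pool.Agent.Q223.CQ.EtaMono

/-!
# Monotonicity of `eta s v / v` for `-1 < s < 0`
-/

set_option autoImplicit false

open MeasureTheory ProbabilityTheory Set Filter Topology
open scoped ENNReal

namespace Pool.Agent.Q298.CQ

open Pool.Agent.Q223.CQ

noncomputable section

def rh (t v : ℝ) : ℝ := Real.sqrt (1 + t ^ 2 * (1 - v ^ 2))

/-- the boundary of the disc in the direction `t` -/
def X (t v : ℝ) : ℝ := (v + rh t v) / (1 + t ^ 2)

theorem rh_sq {t v : ℝ} (h1 : -1 < v) (h2 : v < 1) : rh t v ^ 2 = 1 + t ^ 2 * (1 - v ^ 2) := by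
  unfold rh
  rw [Real.sq_sqrt]
  have : 0 < 1 - v ^ 2 := by nlinarith
  positivity

theorem lt_rh {t v : ℝ} (h1 : -1 < v) (h2 : v < 1) : |v| < rh t v := by
  have h3 : 0 < 1 - v ^ 2 := by nlinarith
  unfold rh
  rw [Real.lt_sqrt (abs_nonneg v), sq_abs]
  nlinarith [mul_nonneg (sq_nonneg t) h3.le]

theorem X_pos {t v : ℝ} (h1 : -1 < v) (h2 : v < 1) : 0 < X t v := by
  unfold X
  have := lt_rh (t := t) h1 h2
  have h3 := neg_abs_le v
  apply div_pos (by linarith) (by positivity)

theorem mem_X {t v w : ℝ} (h1 : -1 < v) (h2 : v < 1) (hw : 0 < w) :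
    (w - v) ^ 2 + w ^ 2 * t ^ 2 < 1 ↔ w < X t v := by
  have hr := rh_sq (t := t) h1 h2
  have hlt := lt_rh (t := t) h1 h2
  have h3 := neg_abs_le v
  have h4 := le_abs_self v
  have hm : 0 < 1 + t ^ 2 := by positivity
  have h0 : 0 ≤ rh t v := Real.sqrt_nonneg _
  unfold X
  rw [lt_div_iff₀ hm]
  have key : (w - v) ^ 2 + w ^ 2 * t ^ 2 < 1 ↔ ((1 + t ^ 2) * w - v) ^ 2 < rh t v ^ 2 := by
    rw [hr]
    have e : ((1 + t ^ 2) * w - v) ^ 2 - (1 + t ^ 2 * (1 - v ^ 2)) =
        (1 + t ^ 2) * ((w - v) ^ 2 + w ^ 2 * t ^ 2 - 1) := by ring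
    constructor
    · intro h
      have : (1 + t ^ 2) * ((w - v) ^ 2 + w ^ 2 * t ^ 2 - 1) < 0 :=
        mul_neg_of_pos_of_neg hm (by linarith)
      linarith
    · intro h
      have : (1 + t ^ 2) * ((w - v) ^ 2 + w ^ 2 * t ^ 2 - 1) < 0 := by linarith
      have := (mul_neg_iff.mp this).resolve_right (fun h => by linarith [h.1])
      linarith [this.2]
  rw [key, sq_lt_sq, abs_of_nonneg h0, abs_lt]
  constructor
  · rintro ⟨_, h⟩
    linarith
  · intro h
    constructor
    · nlinarith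
    · linarith

/-- the kernel on the plane -/
def Kr (s v : ℝ) (z : ℝ × ℝ) : ℝ≥0∞ :=
  {z : ℝ × ℝ | 0 < z.1 ∧ (z.1 - v) ^ 2 + z.1 ^ 2 * z.2 ^ 2 < 1}.indicator
    (fun z => ENNReal.ofReal (z.1 ^ (s + 1) / 2)) z

theorem Kr_meas (s v : ℝ) : Measurable (Kr s v) := by
  unfold Kr
  apply Measurable.indicator
  · exact ((measurable_fst.pow_const (s + 1)).div_const 2).ennreal_ofReal
  · have m1 : MeasurableSet {z : ℝ × ℝ | 0 < z.1} := measurableSet_lt measurable_const measurable_fst
    have m2 : MeasurableSet {z : ℝ × ℝ | (z.1 - v) ^ 2 + z.1 ^ 2 * z.2 ^ 2 < 1} :=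
      measurableSet_lt (by fun_prop) measurable_const
    exact m1.inter m2

theorem Kr_left {s v w : ℝ} (hw : 0 < w) :
    ∫⁻ t, Kr s v (w, t) = ENNReal.ofReal (w ^ s * sc (w - v)) := by
  have hset : ∀ t, Kr s v (w, t) = (Ioo (-(sc (w - v) / w)) (sc (w - v) / w)).indicator
      (fun _ => ENNReal.ofReal (w ^ (s + 1) / 2)) t := by
    intro t
    have hiff : (w, t) ∈ {z : ℝ × ℝ | 0 < z.1 ∧ (z.1 - v) ^ 2 + z.1 ^ 2 * z.2 ^ 2 < 1} ↔
        t ∈ Ioo (-(sc (w - v) / w)) (sc (w - v) / w) := by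
      rw [mem_Ioo, ← abs_lt, lt_div_iff₀ hw]
      unfold sc
      rw [Real.lt_sqrt (by positivity), mul_pow, sq_abs]
      constructor
      · rintro ⟨_, h⟩
        have h' : (w - v) ^ 2 + w ^ 2 * t ^ 2 < 1 := h
        nlinarith
      · intro h
        refine ⟨hw, ?_⟩
        show (w - v) ^ 2 + w ^ 2 * t ^ 2 < 1
        nlinarith
    unfold Kr
    by_cases h : (w, t) ∈ {z : ℝ × ℝ | 0 < z.1 ∧ (z.1 - v) ^ 2 + z.1 ^ 2 * z.2 ^ 2 < 1}
    · rw [indicator_of_mem h, indicator_of_mem (hiff.mp h)]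
    · rw [indicator_of_notMem h, indicator_of_notMem (fun h' => h (hiff.mpr h'))]
  simp only [hset]
  rw [lintegral_indicator measurableSet_Ioo, lintegral_const, Measure.restrict_apply MeasurableSet.univ,
    univ_inter, Real.volume_Ioo, ← ENNReal.ofReal_mul (by positivity)]
  congr 1
  rw [Real.rpow_add_one hw.ne']
  field_simp
  ring

theorem Kr_zero {s v w : ℝ} (hw : w ≤ 0) : ∫⁻ t, Kr s v (w, t) = 0 := by
  have : ∀ t, Kr s v (w, t) = 0 := by
    intro t
    unfold Kr
    apply indicator_of_notMem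
    intro h
    have : 0 < w := h.1
    linarith
  simp only [this, lintegral_zero]

theorem Kr_right {s v t : ℝ} (hs : -1 < s) (h1 : -1 < v) (h2 : v < 1) :
    ∫⁻ w, Kr s v (w, t) = ENNReal.ofReal (X t v ^ (s + 2) / (2 * (s + 2))) := by
  have hX := X_pos (t := t) h1 h2
  have hset : ∀ w, Kr s v (w, t) = (Ioo 0 (X t v)).indicator
      (fun w => ENNReal.ofReal (w ^ (s + 1) / 2)) w := by
    intro w
    have hiff : (w, t) ∈ {z : ℝ × ℝ | 0 < z.1 ∧ (z.1 - v) ^ 2 + z.1 ^ 2 * z.2 ^ 2 < 1} ↔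
        w ∈ Ioo 0 (X t v) := by
      constructor
      · rintro ⟨h3, h4⟩
        exact ⟨h3, (mem_X h1 h2 h3).mp h4⟩
      · rintro ⟨h3, h4⟩
        exact ⟨h3, (mem_X h1 h2 h3).mpr h4⟩
    unfold Kr
    by_cases h : (w, t) ∈ {z : ℝ × ℝ | 0 < z.1 ∧ (z.1 - v) ^ 2 + z.1 ^ 2 * z.2 ^ 2 < 1}
    · rw [indicator_of_mem h, indicator_of_mem (hiff.mp h)]
    · rw [indicator_of_notMem h, indicator_of_notMem (fun h' => h (hiff.mpr h'))]
  simp only [hset]
  rw [lintegral_indicator measurableSet_Ioo]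
  have hi : IntegrableOn (fun w : ℝ => w ^ (s + 1) / 2) (Ioo 0 (X t v)) := by
    have : IntervalIntegrable (fun w : ℝ => w ^ (s + 1)) volume 0 (X t v) :=
      intervalIntegral.intervalIntegrable_rpow' (by linarith)
    exact ((intervalIntegrable_iff_integrableOn_Ioo_of_le hX.le).mp this).div_const 2
  rw [← ofReal_integral_eq_lintegral_ofReal hi]
  · congr 1
    rw [← integral_Ioc_eq_integral_Ioo, ← intervalIntegral.integral_of_le hX.le,
      intervalIntegral.integral_div, integral_rpow (Or.inl (by linarith)), Real.zero_rpow (by linarith)]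
    rw [show s + 1 + 1 = s + 2 by ring]
    field_simp
    ring
  · rw [EventuallyLE, ae_restrict_iff' measurableSet_Ioo]
    apply Eventually.of_forall
    intro w hw
    have := hw.1
    show 0 ≤ w ^ (s + 1) / 2
    positivity

theorem half_lint {s v : ℝ} (hs : -1 < s) (h1 : -1 < v) (h2 : v < 1) :
    ∫⁻ w in Ioi (0 : ℝ), ENNReal.ofReal (w ^ s * sc (w - v)) =
      ∫⁻ t, ENNReal.ofReal (X t v ^ (s + 2) / (2 * (s + 2))) := by
  have e1 : ∫⁻ w in Ioi (0 : ℝ), ENNReal.ofReal (w ^ s * sc (w - v)) =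
      ∫⁻ w, ∫⁻ t, Kr s v (w, t) := by
    rw [← lintegral_indicator measurableSet_Ioi]
    congr 1
    funext w
    by_cases hw : w ∈ Ioi (0 : ℝ)
    · rw [indicator_of_mem hw, Kr_left hw]
    · rw [indicator_of_notMem hw, Kr_zero (not_lt.mp hw)]
  have hm : AEMeasurable (Function.uncurry fun w t => Kr s v (w, t))
      ((volume : Measure ℝ).prod (volume : Measure ℝ)) := (Kr_meas s v).aemeasurable
  rw [e1, lintegral_lintegral_swap hm]
  congr 1
  funext t
  exact Kr_right hs h1 h2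

theorem half_int {s : ℝ} (hs : -1 < s) (v : ℝ) :
    IntegrableOn (fun w => w ^ s * sc (w - v)) (Ioi 0) := by
  refine (g_int hs v).integrableOn.congr_fun (fun w hw => ?_) measurableSet_Ioi
  have hw0 : 0 < w := hw
  show Pool.Agent.Q298.CQ.phi s w * sc (w - v) = _
  rw [Pool.Agent.Q223.CQ.phi_pos hw0]

theorem half_nonneg {s v : ℝ} :
    0 ≤ᵐ[volume.restrict (Ioi (0 : ℝ))] fun w => w ^ s * sc (w - v) := by
  rw [EventuallyLE, ae_restrict_iff' measurableSet_Ioi]
  apply Eventually.of_forall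
  intro w hw
  have hw0 : 0 < w := hw
  exact mul_nonneg (Real.rpow_nonneg hw0.le _) (sc_nonneg _)

theorem X_cont (v : ℝ) : Continuous fun t => X t v := by
  unfold X rh
  apply Continuous.div (by fun_prop) (by fun_prop)
  intro t
  positivity

theorem X_int {s v : ℝ} (hs : -1 < s) (h1 : -1 < v) (h2 : v < 1) :
    Integrable fun t => X t v ^ (s + 2) / (2 * (s + 2)) := by
  refine ⟨?_, ?_⟩
  · exact (((X_cont v).rpow_const fun t => Or.inl (X_pos h1 h2).ne').div_const _).aestronglyMeasurable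
  · rw [hasFiniteIntegral_iff_ofReal]
    · rw [← half_lint hs h1 h2]
      exact (half_int hs v).lintegral_lt_top
    · apply Eventually.of_forall
      intro t
      have := X_pos (t := t) h1 h2
      have : 0 < s + 2 := by linarith
      show 0 ≤ X t v ^ (s + 2) / (2 * (s + 2))
      positivity

theorem half_eq {s v : ℝ} (hs : -1 < s) (h1 : -1 < v) (h2 : v < 1) :
    ∫ w in Ioi (0 : ℝ), w ^ s * sc (w - v) = ∫ t, X t v ^ (s + 2) / (2 * (s + 2)) := by
  rw [integral_eq_lintegral_of_nonneg_ae half_nonneg (half_int hs v).aestronglyMeasurable,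
    half_lint hs h1 h2, integral_eq_lintegral_of_nonneg_ae _ (X_int hs h1 h2).aestronglyMeasurable]
  apply Eventually.of_forall
  intro t
  have := X_pos (t := t) h1 h2
  have : 0 < s + 2 := by linarith
  show 0 ≤ X t v ^ (s + 2) / (2 * (s + 2))
  positivity

theorem eta_half {s : ℝ} (hs : -1 < s) (v : ℝ) :
    eta s v = (∫ w in Ioi (0 : ℝ), w ^ s * sc (w - v)) -
      ∫ w in Ioi (0 : ℝ), w ^ s * sc (w - -v) := by
  have hint := g_int hs v
  rw [eta_eq']
  have h2 : ∫ w, phi s w * sc (w - v) = (∫ w in Iic (0 : ℝ), phi s w * sc (w - v)) +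
      ∫ w in Ioi (0 : ℝ), phi s w * sc (w - v) := by
    rw [← setIntegral_union (Iic_disjoint_Ioi le_rfl) measurableSet_Ioi hint.integrableOn
      hint.integrableOn, Iic_union_Ioi, setIntegral_univ]
  have h3 : ∫ w in Iic (0 : ℝ), phi s w * sc (w - v) =
      ∫ w in Ioi (0 : ℝ), phi s (-w) * sc (-w - v) := by
    have := integral_comp_neg_Ioi 0 (fun w => phi s w * sc (w - v))
    rw [neg_zero] at this
    exact this.symm
  have h4 : ∫ w in Ioi (0 : ℝ), phi s (-w) * sc (-w - v) =
      -∫ w in Ioi (0 : ℝ), w ^ s * sc (w - -v) := by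
    rw [← integral_neg]
    refine setIntegral_congr_fun measurableSet_Ioi fun w hw => ?_
    have hw0 : 0 < w := hw
    have e1 : -w - v = -(w - -v) := by ring
    show phi s (-w) * sc (-w - v) = -(w ^ s * sc (w - -v))
    rw [Pool.Agent.Q223.CQ.phi_neg, e1, sc_neg, Pool.Agent.Q223.CQ.phi_pos hw0]
    ring
  have h5 : ∫ w in Ioi (0 : ℝ), phi s w * sc (w - v) =
      ∫ w in Ioi (0 : ℝ), w ^ s * sc (w - v) := by
    refine setIntegral_congr_fun measurableSet_Ioi fun w hw => ?_
    have hw0 : 0 < w := hw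
    show phi s w * sc (w - v) = w ^ s * sc (w - v)
    rw [Pool.Agent.Q223.CQ.phi_pos hw0]
  rw [h2, h3, h4, h5]
  ring

/-- the pointwise inequality -/
theorem X_ineq {s u v t : ℝ} (hs : -1 < s) (hs0 : s < 0) (hu : 0 < u) (huv : u ≤ v) (hv : v < 1) :
    u * (X t v ^ (s + 2) - X t (-v) ^ (s + 2)) ≤ v * (X t u ^ (s + 2) - X t (-u) ^ (s + 2)) := by
  have hv0 : 0 < v := by linarith
  have hm : 0 < 1 + t ^ 2 := by positivity
  have hsym : ∀ v, rh t (-v) = rh t v := fun v => by unfold rh; rw [neg_sq]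
  have hru := lt_rh (t := t) (v := u) (by linarith) (by linarith)
  have hrv := lt_rh (t := t) (v := v) (by linarith) hv
  rw [abs_of_pos hu] at hru
  rw [abs_of_pos hv0] at hrv
  have hrle : rh t v ≤ rh t u := by
    unfold rh
    apply Real.sqrt_le_sqrt
    have : u ^ 2 ≤ v ^ 2 := by nlinarith
    nlinarith [mul_le_mul_of_nonneg_left this (sq_nonneg t)]
  have hXe : ∀ v, -rh t v < v → X t v ^ (s + 2) = (rh t v + v) ^ (s + 2) / (1 + t ^ 2) ^ (s + 2) := by
    intro v h
    unfold X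
    rw [Real.div_rpow (by linarith) hm.le, add_comm v]
  rw [hXe v (by linarith), hXe u (by linarith), hXe (-v) (by rw [hsym]; linarith),
    hXe (-u) (by rw [hsym]; linarith), hsym, hsym]
  have hmp : 0 < (1 + t ^ 2) ^ (s + 2) := by positivity
  have key := key_ineq (s := s + 1) (r := rh t u) (by linarith) (by linarith) (by linarith) hu huv
  unfold Ph at key
  rw [show s + 1 + 1 = s + 2 by ring, abs_of_pos (by linarith : 0 < v + rh t u),
    abs_of_neg (by linarith : v - rh t u < 0), abs_of_pos (by linarith : 0 < u + rh t u),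
    abs_of_neg (by linarith : u - rh t u < 0)] at key
  have hs2 : 0 < s + 2 := by linarith
  have key2 : u * ((rh t u + v) ^ (s + 2) - (rh t u + -v) ^ (s + 2)) ≤
      v * ((rh t u + u) ^ (s + 2) - (rh t u + -u) ^ (s + 2)) := by
    have e1 : -(v - rh t u) = rh t u + -v := by ring
    have e2 : -(u - rh t u) = rh t u + -u := by ring
    rw [e1, e2, add_comm v, add_comm u] at key
    have h := mul_le_mul_of_nonneg_left key hs2.le
    have e3 : ∀ a b c : ℝ, (s + 2) * (a * (b / (s + 2) - c / (s + 2))) = a * (b - c) := by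
      intro a b c
      field_simp
    rw [e3, e3] at h
    exact h
  have hconc : ConcaveOn ℝ (Ici 0) fun x : ℝ => -(x ^ (s + 2)) :=
    (convexOn_rpow (by linarith : 1 ≤ s + 2)).neg
  have key3 := four_point hconc (a := rh t v - v) (b := rh t u - v) (h := 2 * v) (by linarith)
    (by linarith) (by linarith)
  rw [show rh t u - v + 2 * v = rh t u + v by ring, show rh t v - v + 2 * v = rh t v + v by ring]
    at key3
  have key4 : (rh t v + v) ^ (s + 2) - (rh t v + -v) ^ (s + 2) ≤
      (rh t u + v) ^ (s + 2) - (rh t u + -v) ^ (s + 2) := by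
    rw [show rh t v + -v = rh t v - v by ring, show rh t u + -v = rh t u - v by ring]
    linarith
  have key5 : u * ((rh t v + v) ^ (s + 2) - (rh t v + -v) ^ (s + 2)) ≤
      v * ((rh t u + u) ^ (s + 2) - (rh t u + -u) ^ (s + 2)) :=
    (mul_le_mul_of_nonneg_left key4 hu.le).trans key2
  rw [← sub_div, ← sub_div, ← mul_div_assoc, ← mul_div_assoc]
  exact div_le_div_of_nonneg_right key5 hmp.le

theorem part1 {s u v : ℝ} (hs : -1 < s) (hs0 : s < 0) (hu : 0 < u) (huv : u ≤ v) (hv : v < 1) :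
    u * eta s v ≤ v * eta s u := by
  have hX : ∀ v, 0 < v → v < 1 → eta s v =
      ∫ t, (X t v ^ (s + 2) / (2 * (s + 2)) - X t (-v) ^ (s + 2) / (2 * (s + 2))) := by
    intro v h0 h1
    rw [eta_half hs, half_eq hs (by linarith) h1, half_eq hs (by linarith) (by linarith),
      integral_sub (X_int hs (by linarith) h1) (X_int hs (by linarith) (by linarith))]
  rw [hX v (by linarith) hv, hX u hu (by linarith), ← integral_const_mul, ← integral_const_mul]
  apply integral_mono
  · exact ((X_int hs (by linarith) hv).sub (X_int hs (by linarith) (by linarith))).const_mul u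
  · exact ((X_int hs (by linarith) (by linarith)).sub
      (X_int hs (by linarith) (by linarith))).const_mul v
  · intro t
    show u * (X t v ^ (s + 2) / (2 * (s + 2)) - X t (-v) ^ (s + 2) / (2 * (s + 2))) ≤
      v * (X t u ^ (s + 2) / (2 * (s + 2)) - X t (-u) ^ (s + 2) / (2 * (s + 2)))
    have h := X_ineq (t := t) hs hs0 hu huv hv
    have hs2 : 0 < 2 * (s + 2) := by linarith
    rw [← sub_div, ← sub_div, ← mul_div_assoc, ← mul_div_assoc]
    exact div_le_div_of_nonneg_right h hs2.le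

theorem part2 {s u v : ℝ} (hs : -1 < s) (hs0 : s < 0) (hu : 1 ≤ u) (huv : u ≤ v) :
    eta s v ≤ eta s u := by
  have hint : ∀ v, Integrable fun w => sc w * phi s (w + v) := by
    intro v
    have h := (g_int hs v).comp_add_right v
    refine h.congr (Eventually.of_forall fun w => ?_)
    show phi s (w + v) * sc (w + v - v) = _
    rw [add_sub_cancel_right, mul_comm]
  rw [eta_eq, eta_eq]
  apply integral_mono (hint v) (hint u)
  intro w
  show sc w * phi s (w + v) ≤ sc w * phi s (w + u)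
  by_cases hw : 1 ≤ |w|
  · rw [sc_zero hw]; simp
  · have hw' : |w| < 1 := not_le.mp hw
    have h3 := (abs_lt.mp hw').1
    apply mul_le_mul_of_nonneg_left _ (sc_nonneg w)
    rw [Pool.Agent.Q223.CQ.phi_pos (by linarith : 0 < w + v),
      Pool.Agent.Q223.CQ.phi_pos (by linarith : 0 < w + u)]
    exact Real.rpow_le_rpow_of_nonpos (by linarith) (by linarith) hs0.le

theorem tT3c : T3c := by
  intro s hs hs0
  have hpos := (tT3a.2 s hs).2
  have hcont := (tT3a.2 s hs).1
  have hA : ∀ u v, 0 < u → u ≤ v → v < 1 → eta s v / v ≤ eta s u / u := by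
    intro u v hu huv hv
    rw [div_le_div_iff₀ (by linarith) hu]
    have := part1 hs hs0 hu huv hv
    linarith
  have hB : ∀ u v, 1 ≤ u → u ≤ v → eta s v / v ≤ eta s u / u := by
    intro u v hu huv
    rw [div_le_div_iff₀ (by linarith) (by linarith)]
    have h1 := part2 hs hs0 hu huv
    have h2 := hpos u (by linarith)
    have h3 := hpos v (by linarith)
    nlinarith
  have hC : ∀ u, 0 < u → u < 1 → eta s 1 / 1 ≤ eta s u / u := by
    intro u hu hu1
    have hc : ContinuousAt (fun v => eta s v / v) 1 :=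
      hcont.continuousAt.div continuousAt_id one_ne_zero
    have ht : Tendsto (fun v => eta s v / v) (𝓝[<] 1) (𝓝 (eta s 1 / 1)) :=
      hc.tendsto.mono_left nhdsWithin_le_nhds
    refine le_of_tendsto ht ?_
    filter_upwards [Ioo_mem_nhdsLT hu1] with v hv
    exact hA u v hu hv.1.le hv.2
  intro u hu v hv huv
  have hu' : 0 < u := hu
  show eta s v / v ≤ eta s u / u
  rcases lt_or_ge v 1 with h1 | h1
  · exact hA u v hu' huv h1
  · rcases lt_or_ge u 1 with h2 | h2
    · exact (hB 1 v le_rfl h1).trans (hC u hu' h2)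
    · exact hB u v h2 huv

end

end Pool.Agent.Q298.CQ
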