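import Pool.Agent.Q298.CQ.Fin3
import Pool.Agent.Q298.CQ.J1
import Pool.Agent.Q298.CQ.J2
import Pool.Agent.Q298.CQ.J4
import Pool.Agent.Q298.CQ.J8
import Pool.Agent.Q298.CQ.J11
import Pool.Agent.Q298.CQ.J12
import Pool.Agent.Q298.CQ.K5
import Pool.Agent.Q166.CQ.J13
import Pool.Agent.Q166.CQ.L2
import Pool.Agent.Q166.CQ.L3
import Pool.Agent.Q223.CQ.GamSum
import Pool.Agent.Q224.CQ.K2
import Pool.Agent.Q224.CQ.K6

/-!
# Moments of centred Gaussian quadratic forms: all lemmas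
-/

set_option autoImplicit false

open MeasureTheory ProbabilityTheory Set Filter Topology

namespace Pool.Agent.Q298.CQ

noncomputable section

theorem final_all {n : ℕ} (hn : 1 ≤ n) {p : ℝ} (hp : 2 < p) (a : Fin n → ℝ)
    (ha : ∑ k, a k ^ 2 = 1) :
    mom p a ≤ ∫ x, |x ^ 2 - 1| ^ p ∂gaussianReal 0 1 ∧
    (mom p a = ∫ x, |x ^ 2 - 1| ^ p ∂gaussianReal 0 1 ↔ ∃ i, |a i| = 1 ∧ ∀ k, k ≠ i → a k = 0) := by
  have h1 : S1 := t1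
  have h2 : S2 := t2 h1
  have h3 : S3 := t3 h1
  have h4 : S4 := t4 h1
  have h5 : S5 := t5 h1
  have h6 : S6 := t6 h1
  have h7 : S7 := t7 h1 h6
  have h8 : S8 := t8 h1 h6 h7
  have h9 : S9 := t9 h1 h2 h5
  have h10 : S10 := t10 h1 h3 h5 h7
  have k4 : T4 := Pool.Agent.Q224.CQ.tT4 Pool.Agent.Q223.CQ.tT3a Pool.Agent.Q223.CQ.tT3b tT3c
  have h14 : S14 := t14 Pool.Agent.Q224.CQ.K1.tT1 Pool.Agent.Q224.CQ.K2.tT2 k4
  have k5 : T5 := Pool.Agent.Q223.CQ.tT5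
  have k6 : T6 := Pool.Agent.Q166.CQ.tT6
  exact final h1 h2 h4 h5 h8 h9 h10 t11 t12 Pool.Agent.Q166.CQ.J13.t13 h14
    (Pool.Agent.Q166.CQ.t15 k5 k6) (Pool.Agent.Q166.CQ.t16 k5 k6) hn hp a ha

end

end Pool.Agent.Q298.CQ
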