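import Pool.Agent.Q298.CQ.Fin0

/-!
# Moments of centred Gaussian quadratic forms: the maximiser
-/

set_option autoImplicit false

open MeasureTheory ProbabilityTheory Set Filter Topology

namespace Pool.Agent.Q298.CQ

noncomputable section

variable {n : ℕ}

/-- maximisers on the unit sphere -/
def IsMax (p : ℝ) (a : Fin n → ℝ) : Prop :=
  ∑ k, a k ^ 2 = 1 ∧ ∀ b : Fin n → ℝ, ∑ k, b k ^ 2 = 1 → mom p b ≤ mom p a

theorem IsMax.neg {p : ℝ} {a : Fin n → ℝ} (h : IsMax p a) : IsMax p (-a) := by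
  refine ⟨by simpa using h.1, fun b hb => ?_⟩
  rw [mom_neg]
  exact h.2 b hb

/-- the divided difference of `L` -/
theorem N_sub_L (h1 : S1) (h5 : S5) (t : ℝ) (ht : 0 < t) (a : Fin n → ℝ) (c d : ℝ) (hcd : c ≠ d) :
    (c - d) * (N t a c d - L t a d) = c * (L t a c - L t a d) := by
  have hPG : PG (ab t) := h1.1 t ht.le
  have hPGA : ∀ c, PG (A c (ab t)) := fun c => (h1.2.2.1 _ hPG c).1
  have hint : ∀ h, PG h → Integrable (fun g => h (S a g)) (G n) := fun h hh =>
    (h1.2.2.2.2 n a h hh).1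
  have hN : N t a c d = (c * L t a c - d * L t a d) / (c - d) := by
    unfold N L ES
    rw [← integral_const_mul, ← integral_const_mul, ← integral_sub, ← integral_div]
    · congr 1
      funext g
      exact (h5 _ hPG).1 c d (S a g) hcd
    · exact (hint _ (hPGA c)).const_mul c
    · exact (hint _ (hPGA d)).const_mul d
  have h : c - d ≠ 0 := sub_ne_zero.mpr hcd
  rw [hN]
  field_simp
  ring

theorem N_diag (h1 : S1) (h5 : S5) (t : ℝ) (ht : 0 < t) (a : Fin n → ℝ) (c : ℝ) :
    N t a c c = L2 t a c := by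
  have hPG : PG (ab t) := h1.1 t ht.le
  unfold N L2 ES
  congr 1
  funext g
  exact (h5 _ hPG).2 c (S a g)

theorem A_pos (h1 : S1) (t : ℝ) (ht : 0 < t) (c x : ℝ) (hc : c ≠ 0) : 0 < A c (ab t) x := by
  have hPG : PG (ab t) := h1.1 t ht.le
  have hi := (h1.2.2.2.1 _ hPG x c).1
  unfold A
  rw [integral_pos_iff_support_of_nonneg (f := fun r => ab t (x + c * r))
    (fun r => Real.rpow_nonneg (abs_nonneg _) _) hi]
  have hsub : ({-x / c}ᶜ : Set ℝ) ⊆ Function.support fun r => ab t (x + c * r) := by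
    intro r hr
    rw [Function.mem_support]
    have : x + c * r ≠ 0 := by
      intro h
      apply hr
      rw [mem_singleton_iff, eq_div_iff hc]
      linarith
    exact (Real.rpow_pos_of_pos (abs_pos.mpr this) t).ne'
  refine lt_of_lt_of_le ?_ (measure_mono hsub)
  have hz : E1 {-x / c} = 0 := by
    have : E1 ≪ volume := by
      unfold E1 expMeasure gammaMeasure
      exact withDensity_absolutelyContinuous _ _
    exact this (by simp)
  rw [measure_compl (measurableSet_singleton _) (by simp [hz]), hz, measure_univ]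
  simp

theorem L_pos (h1 : S1) (t : ℝ) (ht : 0 < t) (a : Fin n → ℝ) (c : ℝ) (hc : c ≠ 0) :
    0 < L t a c := by
  have hPG : PG (A c (ab t)) := (h1.2.2.1 _ (h1.1 t ht.le) c).1
  unfold L ES
  rw [integral_pos_iff_support_of_nonneg (fun g => (A_pos h1 t ht c _ hc).le)
    (h1.2.2.2.2 n a _ hPG).1]
  have : Function.support (fun g => A c (ab t) (S a g)) = univ := by
    apply eq_univ_of_forall
    intro g
    exact (A_pos h1 t ht c _ hc).ne'
  rw [this, measure_univ]
  simp

/-- first order condition -/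
theorem first (h8 : S8) {p : ℝ} (hp : 2 < p) {a : Fin n → ℝ} (hm : IsMax p a) {i j : Fin n}
    (hij : i ≠ j) (hi : a i ≠ 0) (hj : a j ≠ 0) : L (p - 2) a (2 * a i) = L (p - 2) a (2 * a j) := by
  have hd := h8 n p a i j 0 hp hij
  rw [rot_zero hij] at hd
  have hmax : IsLocalMax (fun θ => mom p (rot i j θ a)) 0 := by
    apply Eventually.of_forall
    intro θ
    show mom p (rot i j θ a) ≤ mom p (rot i j 0 a)
    rw [rot_zero hij]
    exact hm.2 _ (by rw [rot_sq hij]; exact hm.1)
  have h0 := hmax.hasDerivAt_eq_zero hd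
  have h1 : 2 * p * (p - 1) * (a i * a j) ≠ 0 := by
    have : (0:ℝ) < 2 * p * (p - 1) := by
      have : 0 < p - 1 := by linarith
      positivity
    exact mul_ne_zero this.ne' (mul_ne_zero hi hj)
  have := (mul_eq_zero.mp h0).resolve_left h1
  linarith

/-- increasing along a rotation contradicts maximality -/
theorem no_incr {p : ℝ} {a : Fin n → ℝ} (hm : IsMax p a) {i j : Fin n} (hij : i ≠ j)
    (f' : ℝ → ℝ) (hd : ∀ θ, HasDerivAt (fun θ => mom p (rot i j θ a)) (f' θ) θ) (δ : ℝ) (hδ : 0 < δ)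
    (hpos : ∀ θ, 0 < θ → θ < δ → 0 < f' θ) : False := by
  have hmono : StrictMonoOn (fun θ => mom p (rot i j θ a)) (Icc 0 δ) := by
    apply strictMonoOn_of_deriv_pos (convex_Icc 0 δ)
    · exact fun θ _ => (hd θ).continuousAt.continuousWithinAt
    · intro θ hθ
      rw [interior_Icc] at hθ
      rw [(hd θ).deriv]
      exact hpos θ hθ.1 hθ.2
  have := hmono (left_mem_Icc.mpr hδ.le) (right_mem_Icc.mpr hδ.le) hδ
  have h2 : mom p (rot i j δ a) ≤ mom p a := hm.2 _ (by rw [rot_sq hij]; exact hm.1)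
  simp only [rot_zero hij] at this
  linarith

/-- second order condition -/
theorem second (h1 : S1) (h2 : S2) (h5 : S5) (h8 : S8) {p : ℝ} (hp : 2 < p) {a : Fin n → ℝ}
    (hm : IsMax p a) {i j : Fin n} (hij : i ≠ j) (hi : a i ≠ 0) (hj : a j = a i) :
    L2 (p - 2) a (2 * a i) ≤ L (p - 2) a (2 * a i) := by
  by_contra hcon
  push Not at hcon
  have ht : 0 < p - 2 := by linarith
  have hPG : PG (ab (p - 2)) := h1.1 _ ht.le
  have hNc : Continuous fun z : (Fin n → ℝ) × ℝ × ℝ => N (p - 2) z.1 z.2.1 z.2.2 :=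
    h2 n (ab (p - 2)) hPG
  have hrc : Continuous fun θ => rot i j θ a := continuous_rot i j a
  have hri : Continuous fun θ => 2 * rot i j θ a i :=
    continuous_const.mul ((continuous_apply i).comp hrc)
  have hrj : Continuous fun θ => 2 * rot i j θ a j :=
    continuous_const.mul ((continuous_apply j).comp hrc)
  have hcomp : ∀ f g : ℝ → ℝ, Continuous f → Continuous g →
      Continuous fun θ => N (p - 2) (rot i j θ a) (f θ) (g θ) := by
    intro f g hf hg
    have hz : Continuous fun θ => ((rot i j θ a, f θ, g θ) : (Fin n → ℝ) × ℝ × ℝ) :=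
      hrc.prodMk (hf.prodMk hg)
    have hc := hNc.comp hz
    simp only [Function.comp_def] at hc
    exact hc
  obtain ⟨K, hKdef⟩ : ∃ K : ℝ → ℝ, K = fun θ =>
      N (p - 2) (rot i j θ a) (2 * rot i j θ a j) (2 * rot i j θ a i) -
      L (p - 2) (rot i j θ a) (2 * rot i j θ a i) := ⟨_, rfl⟩
  have hK : Continuous K := by
    rw [hKdef]
    apply Continuous.sub
    · exact hcomp _ _ hrj hri
    · have := hcomp (fun _ => 0) _ continuous_const hri
      simpa only [← L_eq_N] using this
  have hK0 : 0 < K 0 := by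
    rw [hKdef]
    simp only [rot_zero hij, hj, N_diag h1 h5 _ ht]
    linarith
  obtain ⟨δ, hδ, hKpos⟩ := Metric.eventually_nhds_iff.mp
    (hK.continuousAt.eventually (isOpen_Ioi.mem_nhds hK0) : ∀ᶠ θ in 𝓝 0, K θ ∈ Ioi 0)
  refine no_incr hm hij _ (fun θ => h8 n p a i j θ hp hij) (min δ (Real.pi / 4)) (by positivity) ?_
  intro θ h0 hθ
  have hθδ : θ < δ := lt_of_lt_of_le hθ (min_le_left _ _)
  have hθ4 : θ < Real.pi / 4 := lt_of_lt_of_le hθ (min_le_right _ _)
  have hKθ : 0 < K θ := hKpos (by rw [Real.dist_eq, sub_zero, abs_of_pos h0]; exact hθδ)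
  have hs : 0 < Real.sin θ := Real.sin_pos_of_pos_of_lt_pi h0 (by linarith [Real.pi_pos])
  have hcs : Real.sin θ < Real.cos θ := by
    rw [← Real.sin_pi_div_two_sub]
    apply Real.sin_lt_sin_of_lt_of_le_pi_div_two <;> linarith [Real.pi_pos]
  have hbi : rot i j θ a i = a i * (Real.cos θ - Real.sin θ) := by
    rw [rot_i, hj]; ring
  have hbj : rot i j θ a j = a i * (Real.cos θ + Real.sin θ) := by
    rw [rot_j hij, hj]; ring
  have hne : 2 * rot i j θ a j ≠ 2 * rot i j θ a i := by
    rw [hbi, hbj]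
    intro h
    have : a i * Real.sin θ = 0 := by linarith
    rcases mul_eq_zero.mp this with h | h
    · exact hi h
    · exact hs.ne' h
  have hdiv := N_sub_L h1 h5 _ ht (rot i j θ a) _ _ hne
  have hdiv' : (2 * rot i j θ a j - 2 * rot i j θ a i) * K θ =
      2 * rot i j θ a j * (L (p - 2) (rot i j θ a) (2 * rot i j θ a j) -
        L (p - 2) (rot i j θ a) (2 * rot i j θ a i)) := by
    rw [hKdef]
    exact hdiv
  have hfin : 2 * p * (p - 1) * (rot i j θ a i * rot i j θ a j) *
      (L (p - 2) (rot i j θ a) (2 * rot i j θ a j) - L (p - 2) (rot i j θ a) (2 * rot i j θ a i)) =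
      2 * p * (p - 1) * (a i ^ 2 * (Real.cos θ - Real.sin θ) * (2 * Real.sin θ) * K θ) := by
    have : rot i j θ a j * (L (p - 2) (rot i j θ a) (2 * rot i j θ a j) -
        L (p - 2) (rot i j θ a) (2 * rot i j θ a i)) =
        (rot i j θ a j - rot i j θ a i) * K θ := by linarith
    calc _ = 2 * p * (p - 1) * (rot i j θ a i * (rot i j θ a j * (L (p - 2) (rot i j θ a)
        (2 * rot i j θ a j) - L (p - 2) (rot i j θ a) (2 * rot i j θ a i)))) := by ring
      _ = _ := by
        rw [this, hbi, hbj]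
        ring
  rw [hfin]
  have hp1 : 0 < p - 1 := by linarith
  have ha2 : 0 < a i ^ 2 := by positivity
  have hcs' : 0 < Real.cos θ - Real.sin θ := by linarith
  positivity

end

end Pool.Agent.Q298.CQ
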