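import Pool.Agent.Q298.CQ.Fin1

/-!
# Moments of centred Gaussian quadratic forms: the maximiser has one coordinate
-/

set_option autoImplicit false

open MeasureTheory ProbabilityTheory Set Filter Topology

namespace Pool.Agent.Q298.CQ

noncomputable section

variable {n : ℕ}

theorem t14 (k1 : T1) (k2 : T2) (k4 : T4) : S14 := by
  intro s x y hs hy hyx
  rw [k1 s x y hs hy hyx]
  have hpi : 0 < 1 / Real.pi := by positivity
  apply mul_pos hpi
  rcases le_total 1 s with h | h
  · exact k2 s _ _ h (by linarith) (by linarith)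
  · exact k4 s _ _ hs h (by linarith) (by linarith)

/-- number of coordinates equal to `x` -/
def cnt (a : Fin n → ℝ) (x : ℝ) : ℕ := (Finset.univ.filter fun i => a i = x).card

theorem cnt_pos {a : Fin n → ℝ} {i : Fin n} {x : ℝ} (h : a i = x) : 1 ≤ cnt a x := by
  unfold cnt
  exact Finset.card_pos.mpr ⟨i, by simp [h]⟩

theorem cnt_one {a : Fin n → ℝ} {i : Fin n} {x : ℝ} (h : a i = x)
    (hu : ∀ k, k ≠ i → a k ≠ x) : cnt a x = 1 := by
  unfold cnt
  rw [Finset.card_eq_one]
  refine ⟨i, ?_⟩
  ext k
  simp only [Finset.mem_filter, Finset.mem_univ, true_and, Finset.mem_singleton]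
  constructor
  · intro hk
    by_contra hne
    exact hu k hne hk
  · rintro rfl
    exact h

/-- the formula at the points of the level set -/
theorem level (h10 : S10) {t : ℝ} (ht : 0 < t) (a : Fin n → ℝ) (lam : ℝ)
    (hl : ∀ k, a k ≠ 0 → L t a (2 * a k) = lam) {i : Fin n} (hi : a i ≠ 0) :
    (1 + (cnt a (a i) : ℝ) / 2) * (2 * a i) * (L2 t a (2 * a i) - lam) =
      mu t a + t * lam * (2 * a i) := by
  have h := h10 n t a (2 * a i) ht
  have hterm : ∀ j, a j * (if 2 * a j = 2 * a i then L2 t a (2 * a i) - L t a (2 * a i)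
      else 2 * a j * (L t a (2 * a i) - L t a (2 * a j)) / (2 * a i - 2 * a j)) =
      if a j = a i then a i * (L2 t a (2 * a i) - lam) else 0 := by
    intro j
    by_cases hj : a j = a i
    · rw [if_pos (by rw [hj]), if_pos hj, hj, hl i hi]
    · rw [if_neg (by intro h; exact hj (by linarith)), if_neg hj]
      by_cases hj0 : a j = 0
      · rw [hj0]; ring
      · rw [hl i hi, hl j hj0]; simp
  rw [Finset.sum_congr rfl (fun j _ => hterm j), ← Finset.sum_filter, Finset.sum_const,
    nsmul_eq_mul, hl i hi] at h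
  unfold cnt
  linear_combination (-1 : ℝ) * h

theorem level2 (h1 : S1) (h2 : S2) (h9 : S9) (h10 : S10) (h11 : S11) {t : ℝ} (ht : 0 < t)
    (a : Fin n → ℝ) (lam : ℝ) (hlam : 0 < lam) (hmu : mu t a ≤ 0)
    (hl : ∀ k, a k ≠ 0 → L t a (2 * a k) = lam) {i j : Fin n} (hi : a i ≠ 0) (hj : a j ≠ 0)
    (hij : a i ≠ a j) :
    (mu t a + t * lam * (2 * a i)) * (mu t a + t * lam * (2 * a j)) < 0 := by
  refine h11 n (fun k => 2 * a k) t lam (mu t a) (fun c => L t a c - lam)
    (fun c => (L2 t a c - L t a c) / c) ht hlam hmu ?_ ?_ ?_ ?_ i j (by simpa using hi)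
    (by simpa using hj) (by simpa using hij)
  · have hNc : Continuous fun z : (Fin n → ℝ) × ℝ × ℝ => N t z.1 z.2.1 z.2.2 :=
      h2 n (ab t) (h1.1 _ ht.le)
    have hz : Continuous fun c : ℝ => ((a, 0, c) : (Fin n → ℝ) × ℝ × ℝ) := by fun_prop
    have hc := hNc.comp hz
    simp only [Function.comp_def, ← L_eq_N] at hc
    exact hc.sub continuous_const
  · intro c hc
    exact (h9 n t a c ht hc).sub_const lam
  · intro k hk
    have : a k ≠ 0 := by simpa using hk
    simp only [hl k this, sub_self]
  · intro c hc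
    have h := h10 n t a c ht
    have hterm : ∀ k, a k * (if 2 * a k = c then L2 t a c - L t a c
        else 2 * a k * (L t a c - L t a (2 * a k)) / (c - 2 * a k)) =
        2 * a k / 2 * (if 2 * a k = c then c * ((L2 t a c - L t a c) / c)
          else 2 * a k * (L t a c - lam) / (c - 2 * a k)) := by
      intro k
      by_cases hk : 2 * a k = c
      · rw [if_pos hk, if_pos hk]
        field_simp
      · rw [if_neg hk, if_neg hk]
        by_cases hk0 : a k = 0
        · rw [hk0]; simp
        · rw [hl k hk0]; ring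
    rw [Finset.sum_congr rfl (fun k _ => hterm k)] at h
    have e : c ^ 2 * ((L2 t a c - L t a c) / c) = c * (L2 t a c - L t a c) := by
      field_simp
    show mu t a + t * lam * c + t * c * (L t a c - lam) = c ^ 2 * ((L2 t a c - L t a c) / c) + _
    rw [e]
    linear_combination h

/-- a zero divided difference -/
theorem psi_zero (h1 : S1) (h4 : S4) (h5 : S5) {t : ℝ} (ht : 0 < t) (a : Fin n → ℝ) {c d : ℝ}
    (hc : c ≠ 0) (hcd : c ≠ d) (h : L t a c = L t a d) : Psi (t - 1) a c d = 0 := by
  have h6 := N_sub_L h1 h5 t ht a c d hcd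
  rw [h4 n t a c d ht, h, sub_self, mul_zero] at h6
  have h7 := (mul_eq_zero.mp h6).resolve_left (sub_ne_zero.mpr hcd)
  have h8 : t * c ≠ 0 := mul_ne_zero ht.ne' hc
  exact (mul_eq_zero.mp h7).resolve_left h8

theorem psi_diff (h1 : S1) (h4 : S4) (h5 : S5) {t : ℝ} (ht : 0 < t) (a : Fin n → ℝ) {c d : ℝ}
    (hc : c ≠ 0) (hcd : c ≠ d) : L t a c - L t a d = (c - d) * (t * Psi (t - 1) a c d) := by
  have h6 := N_sub_L h1 h5 t ht a c d hcd
  rw [h4 n t a c d ht] at h6
  have : c * (L t a c - L t a d - (c - d) * (t * Psi (t - 1) a c d)) = 0 := by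
    linear_combination -h6
  have := (mul_eq_zero.mp this).resolve_left hc
  linarith

/-- opposite signs: two coordinates `x > -y > 0` -/
theorem opp (h14 : S14) (h15 : S15) {s : ℝ} (hs : -1 < s) (a : Fin n → ℝ) {i j : Fin n}
    (hij : i ≠ j) (h0 : ∀ k, k ≠ i → k ≠ j → a k = 0) (hj : a j < 0) (hi : -a j < a i) :
    0 < Psi s a (2 * a i) (2 * a j) := by
  have hne : a i ≠ a j := by intro h; linarith
  have hki : cnt a (a i) = 1 := cnt_one rfl (fun k hk => by
    by_cases hkj : k = j
    · subst hkj; exact hne.symm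
    · rw [h0 k hk hkj]; intro h; linarith)
  have hkj : cnt a (a j) = 1 := cnt_one rfl (fun k hk => by
    by_cases hki : k = i
    · subst hki; exact hne
    · rw [h0 k hki hk]; intro h; linarith)
  rw [h15 n a s (a i) (a j) 1 1 (by intro h; linarith) hj.ne hne (fun k => by
    by_cases hki : k = i
    · subst hki; exact Or.inr (Or.inl rfl)
    · by_cases hkj : k = j
      · subst hkj; exact Or.inr (Or.inr rfl)
      · exact Or.inl (h0 k hki hkj)) hki hkj le_rfl le_rfl]
  have := h14 s (a i) (-a j) hs (by linarith) hi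
  convert this using 2
  · norm_num
  · norm_num

theorem opp' (h14 : S14) (h15 : S15) {s : ℝ} (hs : -1 < s) (a : Fin n → ℝ) {i j : Fin n}
    (hij : i ≠ j) (h0 : ∀ k, k ≠ i → k ≠ j → a k = 0) (hi : 0 < a i) (hj : a i < -a j) :
    Psi s a (2 * a j) (2 * a i) < 0 := by
  have h := opp h14 h15 hs (-a) (i := j) (j := i) hij.symm
    (fun k hk hk' => by rw [Pi.neg_apply, h0 k hk' hk, neg_zero])
    (by rw [Pi.neg_apply]; linarith) (by rw [Pi.neg_apply, Pi.neg_apply]; linarith)
  have e : Psi s (-a) (2 * (-a) j) (2 * (-a) i) = -Psi s a (2 * a j) (2 * a i) := by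
    unfold Psi
    rw [← integral_neg]
    congr 1
    funext z
    rw [← phi_neg, S_neg, Pi.neg_apply, Pi.neg_apply]
    congr 1
    ring
  rw [e] at h
  linarith

/-- main step -/
theorem main_step (h1 : S1) (h2 : S2) (h4 : S4) (h5 : S5) (h8 : S8) (h9 : S9) (h10 : S10)
    (h11 : S11) (h12 : S12) (h13 : S13) (h14 : S14) (h15 : S15) (h16 : S16) {p : ℝ} (hp : 2 < p)
    {a : Fin n → ℝ} (hm : IsMax p a) (hmu : mu (p - 2) a ≤ 0) {i j : Fin n} (hij : i ≠ j)
    (hi : a i ≠ 0) (hj : a j ≠ 0) : False := by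
  have ht : 0 < p - 2 := by linarith
  have hs : -1 < p - 2 - 1 := by linarith
  obtain ⟨lam, hlamdef⟩ : ∃ lam, lam = L (p - 2) a (2 * a i) := ⟨_, rfl⟩
  have hlam : 0 < lam := by
    rw [hlamdef]
    exact L_pos h1 _ ht a _ (mul_ne_zero two_ne_zero hi)
  have hl : ∀ k, a k ≠ 0 → L (p - 2) a (2 * a k) = lam := by
    intro k hk
    by_cases hki : k = i
    · subst hki; exact hlamdef.symm
    · rw [hlamdef]
      exact first h8 hp hm hki hk hi
  have htl : 0 < (p - 2) * lam := mul_pos ht hlam
  have hlev := fun k (hk : a k ≠ 0) => level h10 ht a lam hl hk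
  have hlev2 := fun k l (hk : a k ≠ 0) (hl' : a l ≠ 0) (hkl : a k ≠ a l) =>
    level2 h1 h2 h9 h10 h11 ht a lam hlam hmu hl hk hl' hkl
  -- second order condition
  have hsec : ∀ k l, k ≠ l → a k ≠ 0 → a l = a k → L2 (p - 2) a (2 * a k) - lam ≤ 0 := by
    intro k l hkl hk hlk
    have := second h1 h2 h5 h8 hp hm hkl hk hlk
    rw [hl k hk] at this
    linarith
  -- values with P > 0 are positive and simple
  have hposi : ∀ k, a k ≠ 0 → 0 < mu (p - 2) a + (p - 2) * lam * (2 * a k) →
      0 < a k ∧ ∀ l, l ≠ k → a l ≠ a k := by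
    intro k hk hP
    have hk0 : 0 < a k := by
      by_contra hneg
      push Not at hneg
      have : (p - 2) * lam * (2 * a k) ≤ 0 := by nlinarith
      linarith
    refine ⟨hk0, fun l hlk hle => ?_⟩
    have hs2 := hsec k l hlk.symm hk hle
    have hv := hlev k hk
    have : (1 + (cnt a (a k) : ℝ) / 2) * (2 * a k) * (L2 (p - 2) a (2 * a k) - lam) ≤ 0 := by
      apply mul_nonpos_of_nonneg_of_nonpos _ hs2
      positivity
    linarith
  -- negative values are simple
  have hnegi : ∀ k, a k < 0 → ∀ l, l ≠ k → a l ≠ a k := by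
    intro k hk l hlk hle
    have hs2 := hsec k l hlk.symm hk.ne hle
    have hv := hlev k hk.ne
    have h7 : 0 ≤ (1 + (cnt a (a k) : ℝ) / 2) * (2 * a k) * (L2 (p - 2) a (2 * a k) - lam) := by
      apply mul_nonneg_of_nonpos_of_nonpos _ hs2
      apply mul_nonpos_of_nonneg_of_nonpos (by positivity)
      linarith
    have h8 : (p - 2) * lam * (2 * a k) < 0 := by nlinarith
    linarith
  -- two distinct values
  have key : ∀ k l, a k ≠ 0 → a l ≠ 0 →
      mu (p - 2) a + (p - 2) * lam * (2 * a k) < 0 →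
      0 < mu (p - 2) a + (p - 2) * lam * (2 * a l) → False := by
    intro k l hk hl0 hPk hPl
    obtain ⟨hlpos, hlsim⟩ := hposi l hl0 hPl
    have hne : a k ≠ a l := by intro h; rw [h] at hPk; linarith
    have hkl : k ≠ l := by intro h; exact hne (by rw [h])
    have hvals : ∀ m, a m = 0 ∨ a m = a k ∨ a m = a l := by
      intro m
      by_contra hcon
      push Not at hcon
      obtain ⟨hm0, hmk, hml⟩ := hcon
      have e1 := hlev2 m k hm0 hk hmk
      have e2 := hlev2 m l hm0 hl0 hml
      nlinarith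
    have hLe : L (p - 2) a (2 * a k) = L (p - 2) a (2 * a l) := by rw [hl k hk, hl l hl0]
    have hne2 : 2 * a k ≠ 2 * a l := by intro h; exact hne (by linarith)
    have hz1 := psi_zero h1 h4 h5 ht a (mul_ne_zero two_ne_zero hk) hne2 hLe
    have hz2 := psi_zero h1 h4 h5 ht a (mul_ne_zero two_ne_zero hl0) hne2.symm hLe.symm
    rcases lt_or_gt_of_ne hk with hkneg | hkpos
    · -- opposite signs: exactly two coordinates
      have hksim := hnegi k hkneg
      have h0 : ∀ m, m ≠ l → m ≠ k → a m = 0 := by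
        intro m hml hmk
        rcases hvals m with h | h | h
        · exact h
        · exact absurd h (hksim m hmk)
        · exact absurd h (hlsim m hml)
      rcases lt_trichotomy (-a k) (a l) with hc | hc | hc
      · have := opp h14 h15 hs a hkl.symm h0 hkneg hc
        linarith
      · -- equal: rotate
        refine no_incr hm hkl.symm _ (fun θ => h8 n p a l k θ hp hkl.symm) (Real.pi / 4)
          (by positivity) ?_
        intro θ hθ0 hθ4
        have hsn : 0 < Real.sin θ :=
          Real.sin_pos_of_pos_of_lt_pi hθ0 (by linarith [Real.pi_pos])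
        have hcs : Real.sin θ < Real.cos θ := by
          rw [← Real.sin_pi_div_two_sub]
          apply Real.sin_lt_sin_of_lt_of_le_pi_div_two <;> linarith [Real.pi_pos]
        obtain ⟨b, hb⟩ : ∃ b, b = rot l k θ a := ⟨_, rfl⟩
        rw [← hb]
        have hbl : b l = a l * (Real.cos θ + Real.sin θ) := by
          rw [hb, rot_i, ← hc]; ring
        have hbk : b k = a l * (Real.sin θ - Real.cos θ) := by
          rw [hb, rot_j hkl.symm, ← hc]; ring
        have hb0 : ∀ m, m ≠ l → m ≠ k → b m = 0 := by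
          intro m hml hmk
          rw [hb, rot_k hml hmk, h0 m hml hmk]
        have hbkneg : b k < 0 := by
          rw [hbk]; nlinarith
        have hblk : -b k < b l := by
          rw [hbk, hbl]; nlinarith
        have hblpos : 0 < b l := by linarith
        have hpsi := opp h14 h15 hs b hkl.symm hb0 hbkneg hblk
        have hne3 : 2 * b l ≠ 2 * b k := by intro h; linarith
        have hdiff := psi_diff h1 h4 h5 ht b (mul_ne_zero two_ne_zero hblpos.ne') hne3
        have hLL : L (p - 2) b (2 * b k) - L (p - 2) b (2 * b l) < 0 := by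
          have : 0 < (2 * b l - 2 * b k) * ((p - 2) * Psi (p - 2 - 1) b (2 * b l) (2 * b k)) := by
            apply mul_pos (by linarith) (mul_pos ht hpsi)
          linarith
        have hbb : b l * b k < 0 := mul_neg_of_pos_of_neg hblpos hbkneg
        have hp2 : 0 < 2 * p * (p - 1) := by
          have : 0 < p - 1 := by linarith
          positivity
        exact mul_pos_of_neg_of_neg (mul_neg_of_pos_of_neg hp2 hbb) hLL
      · have := opp' h14 h15 hs a hkl.symm h0 hlpos hc
        linarith
    · -- same sign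
      have := h12 (p - 2 - 1) (a k) (a l) (cnt a (a k)) (cnt a (a l)) hs hkpos hlpos
        (cnt_pos rfl) (cnt_pos rfl)
      rw [← h15 n a (p - 2 - 1) (a k) (a l) (cnt a (a k)) (cnt a (a l)) hk hl0 hne hvals rfl rfl (cnt_pos rfl)
        (cnt_pos rfl)] at this
      linarith
  by_cases hall : ∀ k, a k = 0 ∨ a k = a i
  · -- one value
    have hji : a j = a i := (hall j).resolve_left hj
    have hs2 := hsec i j hij hi hji
    have hpos : 0 < a i := by
      by_contra hneg
      push Not at hneg
      have : a i < 0 := lt_of_le_of_ne hneg hi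
      exact hnegi i this j hij.symm hji
    have h7 := h13 (p - 2 - 1) (a i) (cnt a (a i)) hs hpos (cnt_pos rfl)
    rw [← h16 n a (p - 2 - 1) (a i) (cnt a (a i)) hi hall rfl (cnt_pos rfl)] at h7
    have h9' := h4 n (p - 2) a (2 * a i) (2 * a i) ht
    rw [N_diag h1 h5 _ ht, hl i hi] at h9'
    have : 0 < (p - 2) * (2 * a i) * Psi (p - 2 - 1) a (2 * a i) (2 * a i) := by positivity
    linarith
  · push Not at hall
    obtain ⟨k, hk0, hki⟩ := hall
    have hprod := hlev2 k i hk0 hi hki
    rcases lt_or_ge (mu (p - 2) a + (p - 2) * lam * (2 * a k)) 0 with h | h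
    · refine key k i hk0 hi h ?_
      by_contra hcon
      push Not at hcon
      nlinarith
    · refine key i k hi hk0 ?_ ?_
      · by_contra hcon
        push Not at hcon
        nlinarith
      · rcases h.lt_or_eq with h | h
        · exact h
        · rw [← h] at hprod
          simp at hprod

theorem main_step' (h1 : S1) (h2 : S2) (h4 : S4) (h5 : S5) (h8 : S8) (h9 : S9) (h10 : S10)
    (h11 : S11) (h12 : S12) (h13 : S13) (h14 : S14) (h15 : S15) (h16 : S16) {p : ℝ} (hp : 2 < p)
    {a : Fin n → ℝ} (hm : IsMax p a) : ∃ i, |a i| = 1 ∧ ∀ k, k ≠ i → a k = 0 := by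
  have hex : ∃ i, a i ≠ 0 := by
    by_contra hcon
    push Not at hcon
    have := hm.1
    simp [hcon] at this
  obtain ⟨i, hi⟩ := hex
  have h0 : ∀ k, k ≠ i → a k = 0 := by
    intro k hk
    by_contra hk0
    rcases le_total (mu (p - 2) a) 0 with hmu | hmu
    · exact main_step h1 h2 h4 h5 h8 h9 h10 h11 h12 h13 h14 h15 h16 hp hm hmu hk hk0 hi
    · exact main_step h1 h2 h4 h5 h8 h9 h10 h11 h12 h13 h14 h15 h16 hp hm.neg
        (by rw [mu_neg]; linarith) hk (by simpa using hk0) (by simpa using hi)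
  refine ⟨i, ?_, h0⟩
  have h := hm.1
  rw [Finset.sum_eq_single i (fun k _ hk => by rw [h0 k hk]; norm_num) (by simp)] at h
  rwa [← sq_eq_sq₀ (abs_nonneg _) zero_le_one, sq_abs, one_pow]

end

end Pool.Agent.Q298.CQ
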