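import Pool.Agent.Q298.CQ.Fin2

/-!
# Moments of centred Gaussian quadratic forms: the maximum
-/

set_option autoImplicit false

open MeasureTheory ProbabilityTheory Set Filter Topology

namespace Pool.Agent.Q298.CQ

noncomputable section

variable {n : ℕ}

theorem exists_max (h1 : S1) (h2 : S2) (hn : 1 ≤ n) {p : ℝ} (hp : 2 < p) :
    ∃ a : Fin n → ℝ, IsMax p a := by
  have hcpt : IsCompact {a : Fin n → ℝ | ∑ k, a k ^ 2 = 1} := by
    have hcl : IsClosed {a : Fin n → ℝ | ∑ k, a k ^ 2 = 1} := by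
      apply isClosed_eq _ continuous_const
      fun_prop
    refine (isCompact_univ_pi (fun _ : Fin n => isCompact_Icc (a := (-1 : ℝ)) (b := 1))).of_isClosed_subset
      hcl ?_
    intro a ha
    rw [mem_univ_pi]
    intro i
    have h : a i ^ 2 ≤ 1 := by
      rw [← (ha : ∑ k, a k ^ 2 = 1)]
      exact Finset.single_le_sum (f := fun k => a k ^ 2) (fun k _ => sq_nonneg _)
        (Finset.mem_univ i)
    exact abs_le.mp (abs_le_one_iff_mul_self_le_one.mpr (by nlinarith))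
  have hne : {a : Fin n → ℝ | ∑ k, a k ^ 2 = 1}.Nonempty := by
    refine ⟨Pi.single ⟨0, hn⟩ 1, ?_⟩
    show ∑ k, (Pi.single (⟨0, hn⟩ : Fin n) (1 : ℝ) : Fin n → ℝ) k ^ 2 = 1
    rw [Finset.sum_eq_single (⟨0, hn⟩ : Fin n)]
    · simp
    · intro k _ hk
      simp [hk]
    · simp
  have hc : Continuous fun a : Fin n → ℝ => mom p a := by
    have hNc : Continuous fun z : (Fin n → ℝ) × ℝ × ℝ => N p z.1 z.2.1 z.2.2 :=
      h2 n (ab p) (h1.1 _ (by linarith))
    have hz : Continuous fun a : Fin n → ℝ => ((a, 0, 0) : (Fin n → ℝ) × ℝ × ℝ) := by fun_prop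
    have hc := hNc.comp hz
    simp only [Function.comp_def, ← mom_eq_N] at hc
    exact hc
  obtain ⟨a, ha, hmax⟩ := hcpt.exists_isMaxOn hne hc.continuousOn
  exact ⟨a, ha, fun b hb => hmax hb⟩

theorem mom_single {p : ℝ} {a : Fin n → ℝ} {i : Fin n} (hi : |a i| = 1)
    (h0 : ∀ k, k ≠ i → a k = 0) : mom p a = ∫ x, |x ^ 2 - 1| ^ p ∂gaussianReal 0 1 := by
  have hS : ∀ g : Fin n → ℝ, ab p (S a g) = |g i ^ 2 - 1| ^ p := by
    intro g
    unfold ab S
    rw [Finset.sum_eq_single i (fun k _ hk => by rw [h0 k hk, zero_mul]) (by simp), abs_mul, hi,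
      one_mul]
  unfold mom ES
  simp only [hS]
  exact integral_comp_eval (μ := fun _ : Fin n => gaussianReal 0 1) (i := i)
    (f := fun x : ℝ => |x ^ 2 - 1| ^ p)
    ((by fun_prop : Measurable fun x : ℝ => |x ^ 2 - 1|).pow_const p).aestronglyMeasurable

theorem final (h1 : S1) (h2 : S2) (h4 : S4) (h5 : S5) (h8 : S8) (h9 : S9) (h10 : S10)
    (h11 : S11) (h12 : S12) (h13 : S13) (h14 : S14) (h15 : S15) (h16 : S16) (hn : 1 ≤ n) {p : ℝ}
    (hp : 2 < p) (a : Fin n → ℝ) (ha : ∑ k, a k ^ 2 = 1) :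
    mom p a ≤ ∫ x, |x ^ 2 - 1| ^ p ∂gaussianReal 0 1 ∧
    (mom p a = ∫ x, |x ^ 2 - 1| ^ p ∂gaussianReal 0 1 ↔ ∃ i, |a i| = 1 ∧ ∀ k, k ≠ i → a k = 0) := by
  obtain ⟨b, hb⟩ := exists_max h1 h2 hn hp
  obtain ⟨i, hi, h0⟩ := main_step' h1 h2 h4 h5 h8 h9 h10 h11 h12 h13 h14 h15 h16 hp hb
  have hval := mom_single (p := p) hi h0
  refine ⟨?_, ?_, ?_⟩
  · rw [← hval]
    exact hb.2 a ha
  · intro h
    have hmax : IsMax p a := ⟨ha, fun c hc => by
      rw [h, ← hval]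
      exact hb.2 c hc⟩
    exact main_step' h1 h2 h4 h5 h8 h9 h10 h11 h12 h13 h14 h15 h16 hp hmax
  · rintro ⟨j, hj, hj0⟩
    exact mom_single hj hj0

end

end Pool.Agent.Q298.CQ
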