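import Pool.Agent.Q298.CQ.J4a

/-!
# Right-heavy densities
-/

set_option autoImplicit false

open MeasureTheory ProbabilityTheory Set Filter Topology

namespace Pool.Agent.Q298.CQ

noncomputable section

/-- measurable, nonnegative, rapidly decreasing -/
def Nice (f : ℝ → ℝ) : Prop :=
  Measurable f ∧ (∀ p, 0 ≤ f p) ∧ ∀ r : ℝ, ∃ C, ∀ p, f p ≤ C * (1 + |p|) ^ (-r)

theorem Nice.weight {f : ℝ → ℝ} (hf : Nice f) (s : ℝ) :
    Integrable fun p => f p * (1 + |p|) ^ s := by
  obtain ⟨h1, h2, h3⟩ := hf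
  obtain ⟨C, hC⟩ := h3 (s + 2)
  have hi : Integrable fun p : ℝ => C * (1 + |p|) ^ (-(2 : ℝ)) := by
    have := integrable_one_add_norm (E := ℝ) (μ := volume) (r := 2) (by simp)
    simpa only [Real.norm_eq_abs] using this.const_mul C
  refine hi.mono' ?_ (Eventually.of_forall fun p => ?_)
  · have : Measurable fun p : ℝ => (1 + |p|) ^ s :=
      (by fun_prop : Measurable fun p : ℝ => 1 + |p|).pow_const s
    exact (h1.mul this).aestronglyMeasurable
  · have hp : 0 < 1 + |p| := by positivity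
    rw [Real.norm_eq_abs, abs_of_nonneg (mul_nonneg (h2 p) (by positivity))]
    calc f p * (1 + |p|) ^ s ≤ C * (1 + |p|) ^ (-(s + 2)) * (1 + |p|) ^ s := by
          gcongr; exact hC p
      _ = C * (1 + |p|) ^ (-(2 : ℝ)) := by
          rw [mul_assoc, ← Real.rpow_add hp]
          congr 2
          ring

theorem Nice.int {f : ℝ → ℝ} (hf : Nice f) : Integrable f := by
  have := hf.weight 0
  simpa using this

/-- the basic integrability -/
theorem nice_int {f g : ℝ → ℝ} (hf : Nice f) (hg : Nice g) {s x y : ℝ} (hs : -1 < s) (hx : 0 < x)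
    (hy : 0 < y) : Integrable fun z : ℝ × ℝ => f z.1 * g z.2 * phi s (x * z.1 + y * z.2) := by
  have hm : Measurable fun z : ℝ × ℝ => f z.1 * g z.2 * phi s (x * z.1 + y * z.2) :=
    ((hf.1.comp measurable_fst).mul (hg.1.comp measurable_snd)).mul
      ((measurable_phi s).comp (by fun_prop))
  rcases lt_or_ge s 0 with hs0 | hs0
  · obtain ⟨C, hC⟩ := hf.2.2 0
    have hC' : ∀ p, f p ≤ C := fun p => by simpa using hC p
    have hC0 : 0 ≤ C := (hf.2.1 0).trans (hC' 0)
    have i1 : Integrable fun z : ℝ × ℝ => f z.1 * g z.2 := hf.int.mul_prod hg.int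
    have hmc : Measurable (cut s) :=
      (measurable_id.abs.pow_const s).indicator measurableSet_Icc
    have i2 : Integrable (fun z : ℝ × ℝ => C * (g z.2 * cut s (x * z.1 + y * z.2)))
        (volume.prod volume) := by
      apply Integrable.const_mul
      have hm2 : Measurable fun z : ℝ × ℝ => g z.2 * cut s (x * z.1 + y * z.2) :=
        (hg.1.comp measurable_snd).mul (hmc.comp (by fun_prop))
      rw [integrable_prod_iff' hm2.aestronglyMeasurable]
      have hic : ∀ b, Integrable fun p => cut s (x * p + b) := fun b => by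
        have h2 := (integrable_cut hs).comp_add_right b
        exact h2.comp_mul_left' hx.ne'
      constructor
      · exact Eventually.of_forall fun q => (hic (y * q)).const_mul (g q)
      · have e : ∀ q, ∫ p, ‖g q * cut s (x * p + y * q)‖ = g q * (|x⁻¹| * ∫ w, cut s w) := by
          intro q
          have e1 : ∀ p, ‖g q * cut s (x * p + y * q)‖ = g q * cut s (x * p + y * q) := fun p => by
            rw [Real.norm_eq_abs, abs_of_nonneg (mul_nonneg (hg.2.1 q) (cut_nonneg _ _))]
          simp only [e1]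
          rw [integral_const_mul]
          congr 1
          have e2 := Measure.integral_comp_mul_left (fun w => cut s (w + y * q)) x
          rw [e2, integral_add_right_eq_self (cut s) (y * q), smul_eq_mul]
        show Integrable fun q => ∫ p, ‖g q * cut s (x * p + y * q)‖
        simp only [e]
        exact hg.int.mul_const _
    refine (i1.add i2).mono' hm.aestronglyMeasurable (Eventually.of_forall fun z => ?_)
    have hfg : 0 ≤ f z.1 * g z.2 := mul_nonneg (hf.2.1 _) (hg.2.1 _)
    rw [Real.norm_eq_abs, abs_mul, abs_of_nonneg hfg]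
    have hc := cut_nonneg s (x * z.1 + y * z.2)
    calc f z.1 * g z.2 * |phi s (x * z.1 + y * z.2)|
        ≤ f z.1 * g z.2 * (cut s (x * z.1 + y * z.2) + 1) := by
          apply mul_le_mul_of_nonneg_left _ hfg
          exact (abs_phi_le _ _).trans (abs_rpow_le_cut hs0 _)
      _ = f z.1 * g z.2 + f z.1 * (g z.2 * cut s (x * z.1 + y * z.2)) := by ring
      _ ≤ f z.1 * g z.2 + C * (g z.2 * cut s (x * z.1 + y * z.2)) := by
          have := mul_le_mul_of_nonneg_right (hC' z.1) (mul_nonneg (hg.2.1 z.2) hc)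
          linarith
  · have i1 : Integrable fun z : ℝ × ℝ => (f z.1 * (1 + |z.1|) ^ s) * (g z.2 * (1 + |z.2|) ^ s) :=
      (hf.weight s).mul_prod (hg.weight s)
    refine (i1.const_mul ((x + y) ^ s)).mono' hm.aestronglyMeasurable
      (Eventually.of_forall fun z => ?_)
    have hfg : 0 ≤ f z.1 * g z.2 := mul_nonneg (hf.2.1 _) (hg.2.1 _)
    rw [Real.norm_eq_abs, abs_mul, abs_of_nonneg hfg]
    have h1 : |x * z.1 + y * z.2| ≤ (x + y) * ((1 + |z.1|) * (1 + |z.2|)) := by
      calc |x * z.1 + y * z.2| ≤ |x * z.1| + |y * z.2| := abs_add_le _ _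
        _ = x * |z.1| + y * |z.2| := by rw [abs_mul, abs_mul, abs_of_pos hx, abs_of_pos hy]
        _ ≤ _ := by
          have h3 := abs_nonneg z.1
          have h4 := abs_nonneg z.2
          nlinarith [mul_nonneg h3 h4, mul_nonneg (mul_nonneg h3 h4) hx.le,
            mul_nonneg (mul_nonneg h3 h4) hy.le, mul_nonneg h3 hx.le, mul_nonneg h3 hy.le,
            mul_nonneg h4 hx.le, mul_nonneg h4 hy.le]
    have h2 : |phi s (x * z.1 + y * z.2)| ≤
        (x + y) ^ s * ((1 + |z.1|) ^ s * (1 + |z.2|) ^ s) := by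
      refine (abs_phi_le _ _).trans ?_
      rw [← Real.mul_rpow (by positivity) (by positivity),
        ← Real.mul_rpow (by positivity) (by positivity)]
      exact Real.rpow_le_rpow (abs_nonneg _) h1 hs0
    calc f z.1 * g z.2 * |phi s (x * z.1 + y * z.2)|
        ≤ f z.1 * g z.2 * ((x + y) ^ s * ((1 + |z.1|) ^ s * (1 + |z.2|) ^ s)) :=
          mul_le_mul_of_nonneg_left h2 hfg
      _ = _ := by ring

theorem phi_neg' (s x : ℝ) : phi s (-x) = -phi s x := by
  unfold phi
  rw [abs_neg, Real.sign_neg]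
  ring

theorem phi_nonneg {s x : ℝ} (hx : 0 ≤ x) : 0 ≤ phi s x := by
  rcases hx.lt_or_eq with h | h
  · unfold phi
    rw [Real.sign_of_pos h, one_mul]
    positivity
  · rw [← h]; unfold phi; simp

theorem phi_pos {s x : ℝ} (hx : 0 < x) : 0 < phi s x := by
  unfold phi
  rw [Real.sign_of_pos hx, one_mul]
  positivity

/-- even unimodal functions against `phi` -/
theorem even_phi {h : ℝ → ℝ} (hev : ∀ p, h (-p) = h p) (han : ∀ p q, |p| ≤ |q| → h q ≤ h p)
    {s x b : ℝ} (hx : 0 < x) (hb : 0 ≤ b) : 0 ≤ ∫ p, h p * phi s (x * p + b) := by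
  have e1 : ∫ p, h p * phi s (x * p + b) = |x⁻¹| * ∫ w, h ((w - b) / x) * phi s w := by
    have e2 := Measure.integral_comp_mul_left (fun w => h (w / x) * phi s (w + b)) x
    have e3 : ∀ p, h (x * p / x) * phi s (x * p + b) = h p * phi s (x * p + b) := fun p => by
      rw [mul_div_cancel_left₀ _ hx.ne']
    simp only [e3] at e2
    rw [e2, smul_eq_mul]
    congr 1
    have e4 := integral_add_right_eq_self (μ := (volume : Measure ℝ))
      (fun w => h ((w - b) / x) * phi s w) b
    rw [← e4]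
    congr 1
    funext w
    rw [add_sub_cancel_right]
  rw [e1]
  apply mul_nonneg (abs_nonneg _)
  by_cases hi : Integrable fun w => h ((w - b) / x) * phi s w
  · have hi2 : Integrable fun w => h ((-w - b) / x) * phi s (-w) := hi.comp_neg
    have e5 : ∫ w, h ((-w - b) / x) * phi s (-w) = ∫ w, h ((w - b) / x) * phi s w :=
      integral_neg_eq_self (fun w => h ((w - b) / x) * phi s w) volume
    have e6 : 0 ≤ ∫ w, (h ((w - b) / x) * phi s w + h ((-w - b) / x) * phi s (-w)) := by
      apply integral_nonneg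
      intro w
      show 0 ≤ h ((w - b) / x) * phi s w + h ((-w - b) / x) * phi s (-w)
      have e7 : h ((-w - b) / x) = h ((w + b) / x) := by
        rw [← hev]
        congr 1
        ring
      rw [phi_neg', e7]
      rcases le_total 0 w with hw | hw
      · have h1 : h ((w + b) / x) ≤ h ((w - b) / x) := by
          apply han
          rw [abs_div, abs_div]
          apply div_le_div_of_nonneg_right _ (abs_nonneg x)
          rw [abs_of_nonneg (by linarith : 0 ≤ w + b), abs_le]
          constructor <;> linarith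
        have h2 := phi_nonneg (s := s) hw
        nlinarith
      · have h1 : h ((w - b) / x) ≤ h ((w + b) / x) := by
          apply han
          rw [abs_div, abs_div]
          apply div_le_div_of_nonneg_right _ (abs_nonneg x)
          rw [abs_of_nonpos (by linarith : w - b ≤ 0), abs_le]
          constructor <;> linarith
        have h2 : phi s w ≤ 0 := by
          have := phi_nonneg (s := s) (x := -w) (by linarith)
          rw [phi_neg'] at this
          linarith
        nlinarith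
    rw [integral_add hi hi2, e5] at e6
    linarith
  · rw [integral_undef hi]

/-- right-heavy functions: positivity -/
theorem right_heavy {F H : ℝ → ℝ} (hF : Nice F) (hH : Nice H)
    (hF1 : ∀ p q, p ≤ q → q ≤ 0 → F p ≤ F q) (hF2 : ∀ p, 0 < p → F (-p) ≤ F p)
    (hH1 : ∀ p q, p ≤ q → q ≤ 0 → H p ≤ H q) (hH2 : ∀ p, 0 < p → H (-p) ≤ H p)
    {k l : ℝ} (hk : 0 ≤ k) (hl : 0 ≤ l) (hF3 : ∀ p, k < p → F (-p) < F p)
    (hH3 : ∀ p, l < p → H (-p) < H p) {s x y : ℝ} (hs : -1 < s) (hx : 0 < x) (hy : 0 < y) :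
    0 < ∫ z : ℝ × ℝ, F z.1 * H z.2 * phi s (x * z.1 + y * z.2) := by
  have key : ∀ f : ℝ → ℝ, Nice f → (∀ p, 0 < p → f (-p) ≤ f p) →
      Nice (fun p => f (-|p|)) ∧ Nice (fun p => if 0 < p then f p - f (-p) else 0) := by
    intro f hf hf2
    constructor
    · refine ⟨hf.1.comp (by fun_prop), fun p => hf.2.1 _, fun r => ?_⟩
      obtain ⟨C, hC⟩ := hf.2.2 r
      refine ⟨C, fun p => ?_⟩
      have := hC (-|p|)
      rwa [abs_neg, abs_abs] at this
    · refine ⟨Measurable.ite measurableSet_Ioi (hf.1.sub (hf.1.comp measurable_neg))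
        measurable_const, fun p => ?_, fun r => ?_⟩
      · show 0 ≤ if 0 < p then f p - f (-p) else 0
        split_ifs with hp
        · linarith [hf2 p hp]
        · exact le_rfl
      · obtain ⟨C, hC⟩ := hf.2.2 r
        refine ⟨C, fun p => ?_⟩
        show (if 0 < p then f p - f (-p) else 0) ≤ _
        split_ifs with hp
        · linarith [hC p, hf.2.1 (-p)]
        · exact (hf.2.1 p).trans (hC p)
  obtain ⟨hf1, hf2⟩ := key F hF hF2
  obtain ⟨hg1, hg2⟩ := key H hH hH2
  obtain ⟨f1, hf1d⟩ : ∃ f1 : ℝ → ℝ, f1 = fun p => F (-|p|) := ⟨_, rfl⟩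
  obtain ⟨f2, hf2d⟩ : ∃ f2 : ℝ → ℝ, f2 = fun p => if 0 < p then F p - F (-p) else 0 := ⟨_, rfl⟩
  obtain ⟨g1, hg1d⟩ : ∃ g1 : ℝ → ℝ, g1 = fun p => H (-|p|) := ⟨_, rfl⟩
  obtain ⟨g2, hg2d⟩ : ∃ g2 : ℝ → ℝ, g2 = fun p => if 0 < p then H p - H (-p) else 0 := ⟨_, rfl⟩
  rw [← hf1d] at hf1
  rw [← hf2d] at hf2
  rw [← hg1d] at hg1
  rw [← hg2d] at hg2
  have hdec : ∀ (f : ℝ → ℝ) (p : ℝ), f p = f (-|p|) + if 0 < p then f p - f (-p) else 0 := by
    intro f p
    split_ifs with hp
    · rw [abs_of_pos hp]; ring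
    · rw [abs_of_nonpos (not_lt.mp hp), neg_neg, add_zero]
  have hFd : ∀ p, F p = f1 p + f2 p := fun p => by rw [hf1d, hf2d]; exact hdec F p
  have hHd : ∀ p, H p = g1 p + g2 p := fun p => by rw [hg1d, hg2d]; exact hdec H p
  have hev : ∀ (f : ℝ → ℝ) (p : ℝ), f (-|(-p)|) = f (-|p|) := fun f p => by rw [abs_neg]
  have i11 := nice_int hf1 hg1 hs hx hy
  have i12 := nice_int hf1 hg2 hs hx hy
  have i21 := nice_int hf2 hg1 hs hx hy
  have i22 := nice_int hf2 hg2 hs hx hy
  have hsum : ∫ z : ℝ × ℝ, F z.1 * H z.2 * phi s (x * z.1 + y * z.2) =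
      (∫ z : ℝ × ℝ, f1 z.1 * g1 z.2 * phi s (x * z.1 + y * z.2)) +
      (∫ z : ℝ × ℝ, f1 z.1 * g2 z.2 * phi s (x * z.1 + y * z.2)) +
      ((∫ z : ℝ × ℝ, f2 z.1 * g1 z.2 * phi s (x * z.1 + y * z.2)) +
      ∫ z : ℝ × ℝ, f2 z.1 * g2 z.2 * phi s (x * z.1 + y * z.2)) := by
    have j1 : Integrable fun z : ℝ × ℝ => f1 z.1 * g1 z.2 * phi s (x * z.1 + y * z.2) +
      f1 z.1 * g2 z.2 * phi s (x * z.1 + y * z.2) := i11.add i12
    have j2 : Integrable fun z : ℝ × ℝ => f2 z.1 * g1 z.2 * phi s (x * z.1 + y * z.2) +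
      f2 z.1 * g2 z.2 * phi s (x * z.1 + y * z.2) := i21.add i22
    rw [← integral_add i11 i12, ← integral_add i21 i22, ← integral_add j1 j2]
    congr 1
    funext z
    rw [hFd, hHd]
    ring
  -- first term
  have t11 : ∫ z : ℝ × ℝ, f1 z.1 * g1 z.2 * phi s (x * z.1 + y * z.2) = 0 := by
    have h := integral_neg_eq_self
      (fun z : ℝ × ℝ => f1 z.1 * g1 z.2 * phi s (x * z.1 + y * z.2)) volume
    have e : ∀ z : ℝ × ℝ, f1 (-z).1 * g1 (-z).2 * phi s (x * (-z).1 + y * (-z).2) =
        -(f1 z.1 * g1 z.2 * phi s (x * z.1 + y * z.2)) := by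
      intro z
      rw [Prod.fst_neg, Prod.snd_neg, hf1d, hg1d]
      simp only [abs_neg]
      rw [show x * -z.1 + y * -z.2 = -(x * z.1 + y * z.2) by ring, phi_neg']
      ring
    simp only [e] at h
    rw [integral_neg] at h
    linarith
  have han : ∀ f : ℝ → ℝ, (∀ p q, p ≤ q → q ≤ 0 → f p ≤ f q) → ∀ p q : ℝ, |p| ≤ |q| →
      f (-|q|) ≤ f (-|p|) := fun f hf p q hpq =>
    hf _ _ (neg_le_neg hpq) (neg_nonpos.mpr (abs_nonneg p))
  -- second term
  have t12 : 0 ≤ ∫ z : ℝ × ℝ, f1 z.1 * g2 z.2 * phi s (x * z.1 + y * z.2) := by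
    have e0 : ∫ z : ℝ × ℝ, f1 z.1 * g2 z.2 * phi s (x * z.1 + y * z.2) =
        ∫ q, ∫ p, f1 p * g2 q * phi s (x * p + y * q) := integral_prod_symm _ i12
    rw [e0]
    apply integral_nonneg
    intro q
    show 0 ≤ ∫ p, f1 p * g2 q * phi s (x * p + y * q)
    have e1 : ∀ p, f1 p * g2 q * phi s (x * p + y * q) = g2 q * (f1 p * phi s (x * p + y * q)) :=
      fun p => by ring
    simp only [e1]
    rw [integral_const_mul]
    rcases le_or_gt q 0 with hq | hq
    · have : g2 q = 0 := by rw [hg2d]; exact if_neg (not_lt.mpr hq)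
      rw [this, zero_mul]
    · apply mul_nonneg (hg2.2.1 q)
      rw [hf1d]
      exact even_phi (h := fun p => F (-|p|)) (hev F) (han F hF1) hx (by positivity)
  have t21 : 0 ≤ ∫ z : ℝ × ℝ, f2 z.1 * g1 z.2 * phi s (x * z.1 + y * z.2) := by
    have e0 : ∫ z : ℝ × ℝ, f2 z.1 * g1 z.2 * phi s (x * z.1 + y * z.2) =
        ∫ p, ∫ q, f2 p * g1 q * phi s (x * p + y * q) := integral_prod _ i21
    rw [e0]
    apply integral_nonneg
    intro p
    show 0 ≤ ∫ q, f2 p * g1 q * phi s (x * p + y * q)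
    have e1 : ∀ q, f2 p * g1 q * phi s (x * p + y * q) = f2 p * (g1 q * phi s (y * q + x * p)) :=
      fun q => by rw [add_comm (x * p)]; ring
    simp only [e1]
    rw [integral_const_mul]
    rcases le_or_gt p 0 with hq | hq
    · have : f2 p = 0 := by rw [hf2d]; exact if_neg (not_lt.mpr hq)
      rw [this, zero_mul]
    · apply mul_nonneg (hf2.2.1 p)
      rw [hg1d]
      exact even_phi (h := fun p => H (-|p|)) (hev H) (han H hH1) hy (by positivity)
  have hnn : ∀ z : ℝ × ℝ, 0 ≤ f2 z.1 * g2 z.2 * phi s (x * z.1 + y * z.2) := by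
    intro z
    rcases le_or_gt z.1 0 with h1 | h1
    · have : f2 z.1 = 0 := by rw [hf2d]; exact if_neg (not_lt.mpr h1)
      rw [this]; simp
    · rcases le_or_gt z.2 0 with h2 | h2
      · have : g2 z.2 = 0 := by rw [hg2d]; exact if_neg (not_lt.mpr h2)
        rw [this]; simp
      · exact mul_nonneg (mul_nonneg (hf2.2.1 _) (hg2.2.1 _)) (phi_nonneg (by positivity))
  have t22 : 0 < ∫ z : ℝ × ℝ, f2 z.1 * g2 z.2 * phi s (x * z.1 + y * z.2) := by
    rw [integral_pos_iff_support_of_nonneg hnn i22]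
    have hsub : Ioi k ×ˢ Ioi l ⊆ Function.support fun z : ℝ × ℝ =>
        f2 z.1 * g2 z.2 * phi s (x * z.1 + y * z.2) := by
      rintro ⟨p, q⟩ ⟨hp, hq⟩
      have hp' : k < p := hp
      have hq' : l < q := hq
      have h1 : 0 < f2 p := by
        rw [hf2d]
        show 0 < if 0 < p then F p - F (-p) else 0
        rw [if_pos (by linarith)]
        linarith [hF3 p hp']
      have h2 : 0 < g2 q := by
        rw [hg2d]
        show 0 < if 0 < q then H q - H (-q) else 0
        rw [if_pos (by linarith)]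
        linarith [hH3 q hq']
      rw [Function.mem_support]
      have h3 : 0 < phi s (x * p + y * q) := by
        apply phi_pos
        have : 0 < p := by linarith
        have : 0 < q := by linarith
        positivity
      exact (mul_pos (mul_pos h1 h2) h3).ne'
    refine lt_of_lt_of_le ?_ (measure_mono hsub)
    have : (volume : Measure (ℝ × ℝ)) (Ioi k ×ˢ Ioi l) = ⊤ := by
      rw [Measure.volume_eq_prod, Measure.prod_prod, Real.volume_Ioi, Real.volume_Ioi]
      simp
    rw [this]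
    exact ENNReal.zero_lt_top
  rw [hsum, t11]
  linarith

end

end Pool.Agent.Q298.CQ
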