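import Pool.Agent.Q298.CQ.J6

/-!
# `sgn |x|^s` for `s > -1`: integrability and integration by parts
-/

set_option autoImplicit false

open MeasureTheory ProbabilityTheory Set Filter Topology

namespace Pool.Agent.Q298.CQ

noncomputable section

theorem measurable_phi (s : ℝ) : Measurable (phi s) := by
  have h1 : Measurable Real.sign := by
    unfold Real.sign
    exact Measurable.ite measurableSet_Iio measurable_const
      (Measurable.ite measurableSet_Ioi measurable_const measurable_const)
  unfold phi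
  exact h1.mul (measurable_id.abs.pow_const s)

theorem abs_phi_le (s x : ℝ) : |phi s x| ≤ |x| ^ s := by
  unfold phi
  rw [abs_mul, abs_of_nonneg (Real.rpow_nonneg (abs_nonneg x) s)]
  have h : |Real.sign x| ≤ 1 := by
    rcases Real.sign_apply_eq x with h | h | h <;> rw [h] <;> norm_num
  have := mul_le_mul_of_nonneg_right h (Real.rpow_nonneg (abs_nonneg x) s)
  linarith

/-- `|y|^s` cut off at one -/
def cut (s y : ℝ) : ℝ := (Icc (-1 : ℝ) 1).indicator (fun y => |y| ^ s) y

theorem integrable_cut {s : ℝ} (hs : -1 < s) : Integrable (cut s) := by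
  have h1 : IntegrableOn (fun y : ℝ => |y| ^ s) (Icc 0 1) := by
    have h := (intervalIntegral.intervalIntegrable_rpow' hs : IntervalIntegrable
      (fun x : ℝ => x ^ s) volume 0 1)
    rw [intervalIntegrable_iff_integrableOn_Icc_of_le zero_le_one] at h
    refine h.congr_fun (fun x hx => ?_) measurableSet_Icc
    show x ^ s = |x| ^ s
    rw [abs_of_nonneg hx.1]
  have h2 : IntegrableOn (fun y : ℝ => |y| ^ s) (Icc (-1) 0) := by
    have h := h1
    rw [← integrable_indicator_iff measurableSet_Icc] at h ⊢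
    have h3 := h.comp_neg
    refine h3.congr (Eventually.of_forall fun x => ?_)
    by_cases hx : x ∈ Icc (-1 : ℝ) 0
    · have hx' : -x ∈ Icc (0 : ℝ) 1 := ⟨by linarith [hx.2], by linarith [hx.1]⟩
      simp only [indicator_of_mem hx, indicator_of_mem hx', abs_neg]
    · have hx' : -x ∉ Icc (0 : ℝ) 1 := by
        intro h
        exact hx ⟨by linarith [h.2], by linarith [h.1]⟩
      simp only [indicator_of_notMem hx, indicator_of_notMem hx']
  have h3 : IntegrableOn (fun y : ℝ => |y| ^ s) (Icc (-1) 1) := by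
    rw [← Icc_union_Icc_eq_Icc (by norm_num : (-1 : ℝ) ≤ 0) zero_le_one]
    exact h2.union h1
  exact (integrable_indicator_iff measurableSet_Icc).mpr h3

theorem cut_nonneg (s y : ℝ) : 0 ≤ cut s y :=
  indicator_nonneg (fun y _ => Real.rpow_nonneg (abs_nonneg y) s) y

theorem abs_rpow_le_cut {s : ℝ} (hs : s < 0) (y : ℝ) : |y| ^ s ≤ cut s y + 1 := by
  unfold cut
  by_cases hy : y ∈ Icc (-1 : ℝ) 1
  · rw [indicator_of_mem hy]; linarith
  · rw [indicator_of_notMem hy, zero_add]
    have : 1 < |y| := by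
      by_contra h
      exact hy (abs_le.mp (not_lt.mp h))
    exact Real.rpow_le_one_of_one_le_of_nonpos this.le hs.le

/-- the integral of the cut off function against the exponential law -/
theorem cut_E1 {s c : ℝ} (hs : -1 < s) (hc : c ≠ 0) (x : ℝ) :
    Integrable (fun r => cut s (x + c * r)) E1 ∧
      ∫ r, cut s (x + c * r) ∂E1 ≤ |c|⁻¹ * ∫ y, cut s y := by
  have h1 : Integrable fun r => cut s (x + c * r) := by
    have h2 := (integrable_cut hs).comp_add_left x
    exact h2.comp_mul_left' hc
  have h2 : IntegrableOn (fun r => cut s (x + c * r) * Real.exp (-r)) (Ioi 0) := by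
    refine (h1.integrableOn (s := Ioi 0)).mono' ?_ ?_
    · have : Measurable fun r : ℝ => Real.exp (-r) := by fun_prop
      exact (h1.aestronglyMeasurable.restrict).mul this.aestronglyMeasurable
    · rw [ae_restrict_iff' measurableSet_Ioi]
      apply Eventually.of_forall
      intro r hr
      rw [Real.norm_eq_abs, abs_mul, abs_of_nonneg (cut_nonneg _ _), abs_of_pos (Real.exp_pos _)]
      have : Real.exp (-r) ≤ 1 := Real.exp_le_one_iff.mpr (by linarith [show (0:ℝ) < r from hr])
      have := mul_le_mul_of_nonneg_left this (cut_nonneg s (x + c * r))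
      linarith
  refine ⟨(integrable_E1_iff _).mpr h2, ?_⟩
  rw [integral_E1]
  calc ∫ r in Ioi (0 : ℝ), cut s (x + c * r) * Real.exp (-r)
      ≤ ∫ r in Ioi (0 : ℝ), cut s (x + c * r) := by
        apply setIntegral_mono_on h2 h1.integrableOn measurableSet_Ioi
        intro r hr
        have : Real.exp (-r) ≤ 1 := Real.exp_le_one_iff.mpr (by linarith [show (0:ℝ) < r from hr])
        have := mul_le_mul_of_nonneg_left this (cut_nonneg s (x + c * r))
        linarith
    _ ≤ ∫ r, cut s (x + c * r) :=
        setIntegral_le_integral h1 (Eventually.of_forall fun r => cut_nonneg _ _)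
    _ = |c|⁻¹ * ∫ y, cut s y := by
        have e1 := Measure.integral_comp_mul_left (fun y => cut s (x + y)) c
        rw [e1, integral_add_left_eq_self (cut s) x, abs_inv, smul_eq_mul]

/-- bounds for the integral of `|phi s|` -/
theorem phi_E1 (h1 : S1) {s c : ℝ} (hs : -1 < s) (hc : c ≠ 0) :
    ∃ R : ℝ → ℝ, PG R ∧ ∀ x, 0 ≤ R x ∧ Integrable (fun r => phi s (x + c * r)) E1 ∧
      ∫ r, |phi s (x + c * r)| ∂E1 ≤ R x := by
  have hmeas : ∀ x, AEStronglyMeasurable (fun r => phi s (x + c * r)) E1 := fun x =>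
    ((measurable_phi s).comp (by fun_prop : Measurable fun r : ℝ => x + c * r)).aestronglyMeasurable
  rcases lt_or_ge s 0 with hs0 | hs0
  · refine ⟨fun _ => |c|⁻¹ * (∫ y, cut s y) + 1, ⟨continuous_const,
      abs (|c|⁻¹ * (∫ y, cut s y) + 1), 0, by intro x; simp⟩, fun x => ?_⟩
    obtain ⟨i1, i2⟩ := cut_E1 hs hc x
    have i3 : Integrable (fun r => cut s (x + c * r) + 1) E1 := i1.add (integrable_const 1)
    have hle : ∀ r, |phi s (x + c * r)| ≤ cut s (x + c * r) + 1 := fun r =>
      (abs_phi_le _ _).trans (abs_rpow_le_cut hs0 _)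
    have i4 : Integrable (fun r => phi s (x + c * r)) E1 :=
      i3.mono' (hmeas x) (Eventually.of_forall hle)
    refine ⟨?_, i4, ?_⟩
    · have : 0 ≤ ∫ y, cut s y := integral_nonneg fun y => cut_nonneg s y
      positivity
    · calc ∫ r, |phi s (x + c * r)| ∂E1 ≤ ∫ r, (cut s (x + c * r) + 1) ∂E1 :=
          integral_mono i4.abs i3 hle
        _ = ∫ r, cut s (x + c * r) ∂E1 + 1 := by
          rw [integral_add i1 (integrable_const 1)]; simp
        _ ≤ _ := by linarith
  · refine ⟨A c (ab s), (h1.2.2.1 _ (h1.1 s hs0) c).1, fun x => ?_⟩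
    have i3 := (h1.2.2.2.1 _ (h1.1 s hs0) x c).1
    have hle : ∀ r, |phi s (x + c * r)| ≤ ab s (x + c * r) := fun r => abs_phi_le _ _
    have i4 : Integrable (fun r => phi s (x + c * r)) E1 :=
      i3.mono' (hmeas x) (Eventually.of_forall hle)
    refine ⟨?_, i4, ?_⟩
    · exact integral_nonneg fun r => Real.rpow_nonneg (abs_nonneg _) _
    · exact integral_mono i4.abs i3 hle

theorem hasDerivAt_ab {s : ℝ} {x : ℝ} (hx : x ≠ 0) :
    HasDerivAt (ab (s + 1)) ((s + 1) * phi s x) x := by
  unfold phi
  rcases lt_or_gt_of_ne hx with h | h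
  · have h1 : HasDerivAt (fun y : ℝ => (-y) ^ (s + 1)) (-1 * (s + 1) * (-x) ^ (s + 1 - 1)) x :=
      (hasDerivAt_neg x).rpow_const (p := s + 1) (Or.inl (by linarith))
    have h2 : ab (s + 1) =ᶠ[𝓝 x] fun y : ℝ => (-y) ^ (s + 1) := by
      filter_upwards [isOpen_Iio.mem_nhds h] with y hy
      have hy' : y < 0 := hy
      unfold ab
      rw [abs_of_neg hy']
    have h3 := h1.congr_of_eventuallyEq h2
    rw [add_sub_cancel_right] at h3
    refine HasDerivAt.congr_deriv h3 ?_
    rw [Real.sign_of_neg h, abs_of_neg h]; ring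
  · have h1 := (hasDerivAt_id x).rpow_const (p := s + 1) (Or.inl h.ne')
    have h2 : ab (s + 1) =ᶠ[𝓝 x] fun y : ℝ => id y ^ (s + 1) := by
      filter_upwards [isOpen_Ioi.mem_nhds h] with y hy
      have hy' : 0 < y := hy
      unfold ab
      rw [abs_of_pos hy']
      simp
    have h3 := h1.congr_of_eventuallyEq h2
    rw [add_sub_cancel_right] at h3
    refine HasDerivAt.congr_deriv h3 ?_
    rw [Real.sign_of_pos h, abs_of_pos h]
    simp

theorem A_parts_ab (h1 : S1) {s c : ℝ} (hs : -1 < s) (hc : c ≠ 0) (x : ℝ) :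
    A c (ab (s + 1)) x = ab (s + 1) x + (s + 1) * c * A c (phi s) x := by
  obtain ⟨R, _, hR⟩ := phi_E1 h1 hs hc
  have i1 := (integrable_E1_iff _).mp (hR x).2.1
  have hPG := h1.1 (s + 1) (by linarith)
  have i2 := (integrable_E1_iff _).mp (h1.2.2.2.1 _ hPG x c).1
  have hd : ∀ r, r ≠ -x / c → HasDerivAt (fun r => ab (s + 1) (x + c * r) * Real.exp (-r))
      ((s + 1) * c * (phi s (x + c * r) * Real.exp (-r)) -
        ab (s + 1) (x + c * r) * Real.exp (-r)) r := by
    intro r hr
    have hne : x + c * r ≠ 0 := by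
      intro h
      apply hr
      rw [eq_div_iff hc]
      linarith
    have hin : HasDerivAt (fun r => x + c * r) c r := by
      simpa using ((hasDerivAt_id r).const_mul c).const_add x
    have h3 := (hasDerivAt_ab (s := s) hne).comp r hin
    have h4 : HasDerivAt (fun r : ℝ => Real.exp (-r)) (-Real.exp (-r)) r := by
      have := (hasDerivAt_neg r).exp
      simpa using this
    refine HasDerivAt.congr_deriv (h3.mul h4) ?_
    show (s + 1) * phi s (x + c * r) * c * Real.exp (-r) +
      ab (s + 1) (x + c * r) * -Real.exp (-r) = _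
    ring
  have hcont : Continuous fun r => ab (s + 1) (x + c * r) * Real.exp (-r) :=
    (hPG.1.comp (by fun_prop)).mul (by fun_prop)
  have hint : IntegrableOn (fun r => (s + 1) * c * (phi s (x + c * r) * Real.exp (-r)) -
        ab (s + 1) (x + c * r) * Real.exp (-r)) (Ioi 0) := (i1.const_mul _).sub i2
  obtain ⟨b, hb0, hb1⟩ : ∃ b : ℝ, 0 ≤ b ∧ -x / c ≤ b :=
    ⟨max 0 (-x / c), le_max_left _ _, le_max_right _ _⟩
  have hlim : Tendsto (fun r => ab (s + 1) (x + c * r) * Real.exp (-r)) atTop (𝓝 0) :=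
    tendsto_zero_of_hasDerivAt_of_integrableOn_Ioi (a := b)
      (fun r hr => hd r (ne_of_gt (lt_of_le_of_lt hb1 hr)))
      (hint.mono_set (Ioi_subset_Ioi hb0)) (i2.mono_set (Ioi_subset_Ioi hb0))
  have h5 := intervalIntegral_tendsto_integral_Ioi 0 hint tendsto_id
  have h6 : ∀ᶠ R : ℝ in atTop, ∫ r in (0:ℝ)..id R, ((s + 1) * c * (phi s (x + c * r) * Real.exp (-r)) -
        ab (s + 1) (x + c * r) * Real.exp (-r)) =
        ab (s + 1) (x + c * R) * Real.exp (-R) - ab (s + 1) (x + c * 0) * Real.exp (-0) := by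
    filter_upwards [eventually_ge_atTop 0] with R hR0
    apply integral_eq_of_hasDerivAt_off_countable_of_le (fun r =>
      ab (s + 1) (x + c * r) * Real.exp (-r)) _ (by simpa using hR0)
      (countable_singleton (-x / c)) hcont.continuousOn
    · intro r hr
      exact hd r (by simpa using hr.2)
    · rw [intervalIntegrable_iff_integrableOn_Ioc_of_le (by simpa using hR0)]
      exact hint.mono_set Ioc_subset_Ioi_self
  have h7 : Tendsto (fun R : ℝ => ab (s + 1) (x + c * R) * Real.exp (-R) -
      ab (s + 1) (x + c * 0) * Real.exp (-0)) atTop (𝓝 (0 - ab (s + 1) (x + c * 0) *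
      Real.exp (-0))) := hlim.sub_const _
  have h8 := tendsto_nhds_unique (h5.congr' h6) h7
  rw [integral_sub (i1.const_mul _) i2, integral_const_mul, ← integral_E1, ← integral_E1] at h8
  simp only [mul_zero, add_zero, neg_zero, Real.exp_zero, mul_one, zero_sub] at h8
  unfold A
  linarith

end

end Pool.Agent.Q298.CQ
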