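import Pool.Agent.Q298.CQ.Stm

/-!
# The exponential law: one-variable identities
-/

set_option autoImplicit false

open MeasureTheory ProbabilityTheory Set Filter Topology

namespace Pool.Agent.Q298.CQ

noncomputable section

theorem gammaPDF_one (x : ℝ) : (gammaPDF 1 1 x).toReal = (Ici (0 : ℝ)).indicator
    (fun x => Real.exp (-x)) x := by
  unfold gammaPDF gammaPDFReal
  by_cases h : 0 ≤ x
  · rw [if_pos h, indicator_of_mem (by exact h)]
    rw [ENNReal.toReal_ofReal (by positivity)]
    simp
  · rw [if_neg h, indicator_of_notMem (by simpa using h)]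
    simp

theorem integral_E1 (h : ℝ → ℝ) : ∫ r, h r ∂E1 = ∫ r in Ioi (0 : ℝ), h r * Real.exp (-r) := by
  have hm : Measurable (gammaPDF 1 1) := (measurable_gammaPDFReal 1 1).ennreal_ofReal
  have hf : ∀ᵐ x, gammaPDF 1 1 x < ⊤ := Eventually.of_forall fun x => ENNReal.ofReal_lt_top
  unfold E1 expMeasure gammaMeasure
  rw [integral_withDensity_eq_integral_toReal_smul hm hf]
  rw [← integral_Ici_eq_integral_Ioi, ← integral_indicator measurableSet_Ici]
  congr 1
  funext x
  rw [gammaPDF_one, smul_eq_mul]
  by_cases hx : x ∈ Ici (0 : ℝ)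
  · rw [indicator_of_mem hx, indicator_of_mem hx, mul_comm]
  · rw [indicator_of_notMem hx, indicator_of_notMem hx, zero_mul]

theorem integrable_E1_iff (h : ℝ → ℝ) :
    Integrable h E1 ↔ IntegrableOn (fun r => h r * Real.exp (-r)) (Ioi 0) := by
  have hm : Measurable (gammaPDF 1 1) := (measurable_gammaPDFReal 1 1).ennreal_ofReal
  have hf : ∀ᵐ x, gammaPDF 1 1 x < ⊤ := Eventually.of_forall fun x => ENNReal.ofReal_lt_top
  unfold E1 expMeasure gammaMeasure
  rw [integrable_withDensity_iff_integrable_smul' hm hf]
  rw [← integrableOn_Ici_iff_integrableOn_Ioi, ← integrable_indicator_iff measurableSet_Ici]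
  have : (fun x => (gammaPDF 1 1 x).toReal • h x) =
      (Ici (0 : ℝ)).indicator fun r => h r * Real.exp (-r) := by
    funext x
    rw [gammaPDF_one, smul_eq_mul]
    by_cases hx : x ∈ Ici (0 : ℝ)
    · rw [indicator_of_mem hx, indicator_of_mem hx, mul_comm]
    · rw [indicator_of_notMem hx, indicator_of_notMem hx, zero_mul]
  rw [this]

/-- integration by parts against the exponential law -/
theorem A_parts {g g' : ℝ → ℝ} (hd : ∀ x, HasDerivAt g (g' x) x) (c x : ℝ)
    (hi : Integrable (fun r => g (x + c * r)) E1) (hi' : Integrable (fun r => g' (x + c * r)) E1) :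
    A c g x = g x + c * A c g' x := by
  have h1 := (integrable_E1_iff _).mp hi
  have h2 := (integrable_E1_iff _).mp hi'
  have hF : ∀ r ∈ Ici (0 : ℝ), HasDerivAt (fun r => g (x + c * r) * Real.exp (-r))
      (c * (g' (x + c * r) * Real.exp (-r)) - g (x + c * r) * Real.exp (-r)) r := by
    intro r _
    have hin : HasDerivAt (fun r => x + c * r) c r := by
      simpa using ((hasDerivAt_id r).const_mul c).const_add x
    have h3 := (hd (x + c * r)).comp r hin
    have h4 : HasDerivAt (fun r : ℝ => Real.exp (-r)) (-Real.exp (-r)) r := by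
      have := (hasDerivAt_neg r).exp
      simpa using this
    have h5 := h3.mul h4
    have e : g' (x + c * r) * c * Real.exp (-r) + (g ∘ fun r => x + c * r) r * -Real.exp (-r) =
        c * (g' (x + c * r) * Real.exp (-r)) - g (x + c * r) * Real.exp (-r) := by
      simp only [Function.comp]; ring
    rw [← e]
    exact h5
  have hint : IntegrableOn (fun r => c * (g' (x + c * r) * Real.exp (-r)) -
      g (x + c * r) * Real.exp (-r)) (Ioi 0) := (h2.const_mul c).sub h1
  have hlim := tendsto_zero_of_hasDerivAt_of_integrableOn_Ioi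
    (fun r hr => hF r (Ioi_subset_Ici_self hr)) hint h1
  have h6 := integral_Ioi_of_hasDerivAt_of_tendsto' hF hint hlim
  rw [integral_sub (h2.const_mul c) h1, integral_const_mul, ← integral_E1, ← integral_E1] at h6
  simp only [mul_zero, add_zero, neg_zero, Real.exp_zero, mul_one, zero_sub] at h6
  unfold A
  linarith

theorem phi_eq (t x : ℝ) : phi (t + 1) x = x * |x| ^ t := by
  unfold phi
  rcases lt_trichotomy x 0 with h | h | h
  · rw [Real.sign_of_neg h, Real.rpow_add_one (abs_pos.mpr h.ne).ne', abs_of_neg h]
    ring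
  · rw [h]; simp
  · rw [Real.sign_of_pos h, Real.rpow_add_one (abs_pos.mpr h.ne').ne', abs_of_pos h]
    ring

theorem hasDerivAt_phi {t : ℝ} (ht : 0 < t) (x : ℝ) :
    HasDerivAt (phi (t + 1)) ((t + 1) * ab t x) x := by
  unfold ab
  rcases lt_trichotomy x 0 with h | h | h
  · have h1 : HasDerivAt (fun y : ℝ => -((-y) ^ (t + 1))) (-(-1 * (t + 1) * (-x) ^ (t + 1 - 1))) x := by
      have := (hasDerivAt_neg x).rpow_const (p := t + 1) (Or.inl (by linarith))
      exact this.neg
    have h2 : phi (t + 1) =ᶠ[𝓝 x] fun y : ℝ => -((-y) ^ (t + 1)) := by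
      filter_upwards [isOpen_Iio.mem_nhds h] with y hy
      have hy' : y < 0 := hy
      unfold phi
      rw [Real.sign_of_neg hy', abs_of_neg hy']
      ring
    have h3 := h1.congr_of_eventuallyEq h2
    rw [abs_of_neg h]
    rw [add_sub_cancel_right] at h3
    have e : (t + 1) * (-x) ^ t = -(-1 * (t + 1) * (-x) ^ t) := by ring
    rw [e]
    exact h3
  · subst h
    rw [abs_zero, Real.zero_rpow ht.ne', mul_zero, hasDerivAt_iff_tendsto_slope]
    have h1 : Tendsto (fun y : ℝ => |y| ^ t) (𝓝[≠] 0) (𝓝 0) := by
      have : Continuous fun y : ℝ => |y| ^ t := by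
        exact continuous_abs.rpow_const fun _ => Or.inr ht.le
      have h := this.tendsto 0
      simp only [abs_zero, Real.zero_rpow ht.ne'] at h
      exact h.mono_left nhdsWithin_le_nhds
    refine h1.congr' ?_
    filter_upwards [self_mem_nhdsWithin] with y hy
    have hy' : y ≠ 0 := hy
    rw [slope_def_field, phi_eq, phi_eq]
    field_simp
    ring
  · have h1 := (hasDerivAt_id x).rpow_const (p := t + 1) (Or.inl h.ne')
    have h2 : phi (t + 1) =ᶠ[𝓝 x] fun y : ℝ => id y ^ (t + 1) := by
      filter_upwards [isOpen_Ioi.mem_nhds h] with y hy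
      have hy' : 0 < y := hy
      unfold phi
      rw [Real.sign_of_pos hy', abs_of_pos hy']
      simp
    have h3 := h1.congr_of_eventuallyEq h2
    rw [abs_of_pos h]
    simp only [id, add_sub_cancel_right, one_mul] at h3
    exact h3

theorem A_const_mul (c k : ℝ) (h : ℝ → ℝ) (x : ℝ) : A c (fun y => k * h y) x = k * A c h x := by
  unfold A
  rw [integral_const_mul]

theorem t3 (h1 : S1) : S3 := by
  intro t c x ht
  have hP := h1.2.1 (t + 1) (by linarith)
  have hA := h1.1 t ht.le
  have h := A_parts (hasDerivAt_phi ht) c x (h1.2.2.2.1 _ hP x c).1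
    ((h1.2.2.2.1 _ hA x c).1.const_mul (t + 1))
  rw [h, A_const_mul]
  ring

/-- `A` as an integral over a half line -/
theorem A_pos_eq {c : ℝ} (hc : 0 < c) (h : ℝ → ℝ) (x : ℝ) :
    A c h x = 1 / c * Real.exp (x / c) * ∫ y in Ioi x, h y * Real.exp (-y / c) := by
  unfold A
  rw [integral_E1]
  have e1 : ∫ r in Ioi (0 : ℝ), h (x + c * r) * Real.exp (-r) =
      c⁻¹ • ∫ y in Ioi (c * 0), h (x + y) * Real.exp (-y / c) := by
    rw [← integral_comp_mul_left_Ioi (fun y => h (x + y) * Real.exp (-y / c)) 0 hc]
    congr 1
    funext r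
    congr 2
    field_simp
  have e2 : ∫ y in Ioi (0 : ℝ), h (x + y) * Real.exp (-y / c) =
      Real.exp (x / c) * ∫ y in Ioi x, h y * Real.exp (-y / c) := by
    rw [← integral_const_mul, ← integral_indicator measurableSet_Ioi,
      ← integral_indicator measurableSet_Ioi,
      ← integral_add_left_eq_self (fun z => (Ioi x).indicator
        (fun y => Real.exp (x / c) * (h y * Real.exp (-y / c))) z) x]
    congr 1
    funext y
    by_cases hy : y ∈ Ioi (0 : ℝ)
    · have hy' : x + y ∈ Ioi x := by simpa using hy
      rw [indicator_of_mem hy, indicator_of_mem hy']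
      have : Real.exp (-y / c) = Real.exp (x / c) * Real.exp (-(x + y) / c) := by
        rw [← Real.exp_add]; congr 1; ring
      rw [this]; ring
    · have hy' : x + y ∉ Ioi x := by simpa using hy
      rw [indicator_of_notMem hy, indicator_of_notMem hy']
  rw [e1, mul_zero, e2, smul_eq_mul]
  ring

theorem integrableOn_half {c : ℝ} (hc : 0 < c) {h : ℝ → ℝ} (x : ℝ)
    (hi : Integrable (fun r => h (x + c * r)) E1) :
    IntegrableOn (fun y => h y * Real.exp (-y / c)) (Ioi x) := by
  have h1 := (integrable_E1_iff _).mp hi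
  have h2 : IntegrableOn (fun y => h (x + y) * Real.exp (-y / c)) (Ioi (c * 0)) := by
    rw [← integrableOn_Ioi_comp_mul_left_iff _ 0 hc]
    refine h1.congr_fun (fun r _ => ?_) measurableSet_Ioi
    show h (x + c * r) * Real.exp (-r) = h (x + c * r) * Real.exp (-(c * r) / c)
    congr 2
    field_simp
  rw [mul_zero, ← integrable_indicator_iff measurableSet_Ioi] at h2
  rw [← integrable_indicator_iff measurableSet_Ioi]
  have h3 := (h2.comp_add_left (-x)).const_mul (Real.exp (-x / c))
  refine h3.congr (Eventually.of_forall fun y => ?_)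
  by_cases hy : y ∈ Ioi x
  · have hy' : -x + y ∈ Ioi (0 : ℝ) := by
      have : x < y := hy
      show 0 < -x + y
      linarith
    simp only [indicator_of_mem hy, indicator_of_mem hy']
    have : Real.exp (-y / c) = Real.exp (-x / c) * Real.exp (-(-x + y) / c) := by
      rw [← Real.exp_add]; congr 1; ring
    rw [this, add_neg_cancel_left]; ring
  · have hy' : -x + y ∉ Ioi (0 : ℝ) := by
      intro h
      apply hy
      have : 0 < -x + y := h
      show x < y
      linarith
    simp only [indicator_of_notMem hy, indicator_of_notMem hy', mul_zero]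

theorem hasDerivAt_A_pos {c : ℝ} (hc : 0 < c) {h : ℝ → ℝ} (hh : Continuous h)
    (hi : ∀ x, Integrable (fun r => h (x + c * r)) E1) (x : ℝ) :
    HasDerivAt (A c h) ((A c h x - h x) / c) x := by
  have hk : Continuous fun y => h y * Real.exp (-y / c) := by fun_prop
  have hI : ∀ z, ∫ y in Ioi z, h y * Real.exp (-y / c) =
      (∫ y in Ioi x, h y * Real.exp (-y / c)) - ∫ y in x..z, h y * Real.exp (-y / c) := by
    intro z
    have := intervalIntegral.integral_Ioi_sub_Ioi' (integrableOn_half hc x (hi x))
      (integrableOn_half hc z (hi z))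
    linarith
  have hd1 : HasDerivAt (fun z => ∫ y in Ioi z, h y * Real.exp (-y / c))
      (-(h x * Real.exp (-x / c))) x := by
    have h1 : HasDerivAt (fun z => ∫ y in x..z, h y * Real.exp (-y / c))
        (h x * Real.exp (-x / c)) x :=
      intervalIntegral.integral_hasDerivAt_right (hk.intervalIntegrable _ _)
        (hk.stronglyMeasurableAtFilter _ _) hk.continuousAt
    have h2 := h1.const_sub (∫ y in Ioi x, h y * Real.exp (-y / c))
    exact h2.congr_of_eventuallyEq (Eventually.of_forall hI)
  have hd2 : HasDerivAt (fun z => 1 / c * Real.exp (z / c)) (1 / c * (Real.exp (x / c) * (1 / c))) x := by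
    have := ((hasDerivAt_id x).div_const c).exp
    simpa using this.const_mul (1 / c)
  have h3 := hd2.mul hd1
  have h4 : (A c h) = fun z => 1 / c * Real.exp (z / c) * ∫ y in Ioi z, h y * Real.exp (-y / c) := by
    funext z
    exact A_pos_eq hc h z
  have e : (A c h x - h x) / c = 1 / c * (Real.exp (x / c) * (1 / c)) *
      (∫ y in Ioi x, h y * Real.exp (-y / c)) +
      1 / c * Real.exp (x / c) * -(h x * Real.exp (-x / c)) := by
    rw [A_pos_eq hc h x]
    have : Real.exp (x / c) * Real.exp (-x / c) = 1 := by
      rw [← Real.exp_add, ← Real.exp_zero]; congr 1; ring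
    have e3 : 1 / c * Real.exp (x / c) * -(h x * Real.exp (-x / c)) = -(h x / c) := by
      rw [show 1 / c * Real.exp (x / c) * -(h x * Real.exp (-x / c)) =
        -(h x / c) * (Real.exp (x / c) * Real.exp (-x / c)) by ring, this, mul_one]
    rw [e3]
    ring
  rw [e, h4]
  exact h3

theorem A_neg (c : ℝ) (h : ℝ → ℝ) (x : ℝ) : A c h x = A (-c) (fun y => h (-y)) (-x) := by
  unfold A
  congr 1
  funext r
  congr 1
  ring

theorem hasDerivAt_A {c : ℝ} (hc : c ≠ 0) {h : ℝ → ℝ} (hh : Continuous h)
    (hi : ∀ x, Integrable (fun r => h (x + c * r)) E1) (x : ℝ) :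
    HasDerivAt (A c h) ((A c h x - h x) / c) x := by
  rcases lt_or_gt_of_ne hc with hneg | hpos
  · have h1 := hasDerivAt_A_pos (c := -c) (by linarith) (h := fun y => h (-y))
      (hh.comp continuous_neg) (fun x => by
        have := hi (-x)
        refine this.congr (Eventually.of_forall fun r => ?_)
        show h (-x + c * r) = h (-(x + -c * r))
        congr 1; ring) (-x)
    have h2 := h1.comp x (hasDerivAt_neg x)
    have h3 : A c h = (A (-c) fun y => h (-y)) ∘ fun y => -y := by
      funext y
      exact A_neg c h y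
    rw [← A_neg, neg_neg] at h2
    rw [h3]
    have e : (A c h x - h x) / c = (A c h x - h x) / -c * -1 := by
      field_simp
    have h4 : ((A (-c) fun y => h (-y)) ∘ fun y => -y) x = A c h x := (congrFun h3 x).symm
    rw [h4, e]
    exact h2
  · exact hasDerivAt_A_pos hpos hh hi x

theorem t5 (h1 : S1) : S5 := by
  intro h hPG
  have hi : ∀ g, PG g → ∀ x c : ℝ, Integrable (fun r => g (x + c * r)) E1 := fun g hg x c =>
    (h1.2.2.2.1 g hg x c).1
  have hA : ∀ c, PG (A c h) := fun c => (h1.2.2.1 h hPG c).1
  have hzero : ∀ (g : ℝ → ℝ) (x : ℝ), A 0 g x = g x := by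
    intro g x
    unfold A
    simp
  constructor
  · intro c d x hcd
    by_cases hd : d = 0
    · subst hd
      have : A 0 h = h := funext (hzero h)
      rw [this, sub_zero, zero_mul, sub_zero]
      field_simp
    · have h2 := A_parts (hasDerivAt_A hd hPG.1 (fun x => hi h hPG x d)) c x (hi _ (hA d) x c)
        (((hi _ (hA d) x c).sub (hi h hPG x c)).div_const d)
      have h3 : A c (fun y => (A d h y - h y) / d) x = (A c (A d h) x - A c h x) / d := by
        unfold A
        rw [integral_div, integral_sub]
        · exact hi _ (hA d) x c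
        · exact hi h hPG x c
      rw [h3] at h2
      have hcd' : c - d ≠ 0 := sub_ne_zero.mpr hcd
      field_simp at h2
      field_simp
      linear_combination -h2
  · intro c x
    by_cases hc : c = 0
    · subst hc
      rw [hzero, hzero]
      unfold B
      have e : ∫ r, r ∂E1 = 1 := by
        rw [integral_E1]
        have := Real.integral_rpow_mul_exp_neg_mul_Ioi (a := 2) (r := 1) (by norm_num) one_pos
        have h2 : Real.Gamma 2 = 1 := Real.Gamma_two
        norm_num [h2] at this
        exact this
      simp only [zero_mul, add_zero]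
      rw [integral_mul_const, e, one_mul]
    · -- F(r) = r e^{-r} (A c h)(x + c r)
      have hK := hasDerivAt_A hc hPG.1 (fun x => hi h hPG x c)
      have i1 := (integrable_E1_iff _).mp (hi _ (hA c) x c)
      have i2 := (integrable_E1_iff _).mp (h1.2.2.2.1 h hPG x c).2
      have i3 := (integrable_E1_iff _).mp (h1.2.2.2.1 _ (hA c) x c).2
      have hF : ∀ r ∈ Ici (0 : ℝ), HasDerivAt (fun r => r * A c h (x + c * r) * Real.exp (-r))
          (A c h (x + c * r) * Real.exp (-r) - r * h (x + c * r) * Real.exp (-r)) r := by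
        intro r _
        have hin : HasDerivAt (fun r => x + c * r) c r := by
          simpa using ((hasDerivAt_id r).const_mul c).const_add x
        have h3 := (hK (x + c * r)).comp r hin
        have h4 : HasDerivAt (fun r : ℝ => Real.exp (-r)) (-Real.exp (-r)) r := by
          have := (hasDerivAt_neg r).exp
          simpa using this
        have h5 := ((hasDerivAt_id r).mul h3).mul h4
        refine HasDerivAt.congr_deriv h5 ?_
        show (1 * A c h (x + c * r) + r * ((A c h (x + c * r) - h (x + c * r)) / c * c)) *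
          Real.exp (-r) + r * A c h (x + c * r) * -Real.exp (-r) = _
        field_simp
        ring
      have hint := i1.sub i2
      have hlim := tendsto_zero_of_hasDerivAt_of_integrableOn_Ioi
        (fun r hr => hF r (Ioi_subset_Ici_self hr)) hint i3
      have h6 := integral_Ioi_of_hasDerivAt_of_tendsto' hF hint hlim
      rw [integral_sub i1 i2] at h6
      simp only [zero_mul, sub_zero] at h6
      show ∫ r, A c h (x + c * r) ∂E1 = ∫ r, r * h (x + c * r) ∂E1
      rw [integral_E1, integral_E1]
      linarith

end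

end Pool.Agent.Q298.CQ
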