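import Pool.Agent.Q298.CQ.J7

/-!
# Gaussian integration by parts
-/

set_option autoImplicit false

open MeasureTheory ProbabilityTheory Set Filter Topology

namespace Pool.Agent.Q298.CQ

noncomputable section

theorem PG.shift {f : ℝ → ℝ} (hf : PG f) (w : ℝ) : PG fun x => f (x + w) := by
  obtain ⟨hf1, C1, N1, hf2⟩ := hf
  refine ⟨hf1.comp (continuous_id.add continuous_const), |C1| * (1 + |w|) ^ N1, N1, fun x => ?_⟩
  have h1 : 1 + |x + w| ≤ (1 + |w|) * (1 + |x|) := by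
    nlinarith [abs_add_le x w, abs_nonneg x, abs_nonneg w, mul_nonneg (abs_nonneg x) (abs_nonneg w)]
  calc |f (x + w)| ≤ C1 * (1 + |x + w|) ^ N1 := hf2 _
    _ ≤ |C1| * (1 + |x + w|) ^ N1 := by
        gcongr; exact le_abs_self _
    _ ≤ |C1| * ((1 + |w|) * (1 + |x|)) ^ N1 := by gcongr
    _ = _ := by rw [mul_pow]; ring

theorem PG.of_deriv {h h' : ℝ → ℝ} (hd : ∀ x, HasDerivAt h (h' x) x) (hf : PG h') : PG h := by
  obtain ⟨_, C1, N1, hf2⟩ := hf
  refine ⟨continuous_iff_continuousAt.mpr fun x => (hd x).continuousAt, |h 0| + |C1|, N1 + 1,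
    fun x => ?_⟩
  have h1 : (1 : ℝ) ≤ 1 + |x| := by linarith [abs_nonneg x]
  have hb : ∀ y ∈ Icc (-|x|) |x|, ‖h' y‖ ≤ |C1| * (1 + |x|) ^ N1 := by
    intro y hy
    rw [Real.norm_eq_abs]
    calc |h' y| ≤ C1 * (1 + |y|) ^ N1 := hf2 y
      _ ≤ |C1| * (1 + |y|) ^ N1 := by gcongr; exact le_abs_self _
      _ ≤ |C1| * (1 + |x|) ^ N1 := by
          have : |y| ≤ |x| := abs_le.mpr hy
          gcongr
  have h2 := (convex_Icc (-|x|) |x|).norm_image_sub_le_of_norm_hasDerivWithin_le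
    (fun y _ => (hd y).hasDerivWithinAt) hb (x := 0) (y := x)
    ⟨by simp, abs_nonneg x⟩ ⟨neg_abs_le x, le_abs_self x⟩
  rw [Real.norm_eq_abs, Real.norm_eq_abs, sub_zero] at h2
  have h3 : |h x| ≤ |h 0| + |h x - h 0| := by
    have := abs_add_le (h 0) (h x - h 0)
    rwa [add_sub_cancel] at this
  have h4 : (1 : ℝ) ≤ (1 + |x|) ^ (N1 + 1) := one_le_pow₀ h1
  have h5 : |C1| * (1 + |x|) ^ N1 * |x| ≤ |C1| * (1 + |x|) ^ (N1 + 1) := by
    rw [pow_succ, mul_assoc]
    gcongr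
    linarith
  calc |h x| ≤ |h 0| + |C1| * (1 + |x|) ^ N1 * |x| := by linarith
    _ ≤ |h 0| * (1 + |x|) ^ (N1 + 1) + |C1| * (1 + |x|) ^ (N1 + 1) := by
        have : |h 0| ≤ |h 0| * (1 + |x|) ^ (N1 + 1) := le_mul_of_one_le_right (abs_nonneg _) h4
        linarith
    _ = _ := by ring

/-- one-dimensional integrability -/
theorem int_one (h1 : S1) {h : ℝ → ℝ} (hPG : PG h) (a w : ℝ) :
    Integrable (fun x : ℝ => h (a * (x ^ 2 - 1) + w)) (gaussianReal 0 1) ∧
    Integrable (fun x : ℝ => x ^ 2 * h (a * (x ^ 2 - 1) + w)) (gaussianReal 0 1) := by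
  obtain ⟨i1, i2⟩ := h1.2.2.2.2 1 (fun _ => a) _ (hPG.shift w)
  have i2' := i2 0
  have hmp : MeasurePreserving (Function.eval (0 : Fin 1)) (G 1) (gaussianReal 0 1) :=
    measurePreserving_eval (fun _ : Fin 1 => gaussianReal 0 1) 0
  have hS : ∀ g : Fin 1 → ℝ, S (fun _ : Fin 1 => a) g = a * (g 0 ^ 2 - 1) := by
    intro g
    unfold S
    simp
  have hc : Continuous fun x : ℝ => h (a * (x ^ 2 - 1) + w) := hPG.1.comp (by fun_prop)
  have hc2 : Continuous fun x : ℝ => x ^ 2 * h (a * (x ^ 2 - 1) + w) := (by fun_prop :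
    Continuous fun x : ℝ => x ^ 2).mul hc
  constructor
  · rw [← hmp.integrable_comp hc.aestronglyMeasurable]
    refine i1.congr (Eventually.of_forall fun g => ?_)
    show h (S (fun _ : Fin 1 => a) g + w) = h (a * (g 0 ^ 2 - 1) + w)
    rw [hS]
  · rw [← hmp.integrable_comp hc2.aestronglyMeasurable]
    refine i2'.congr (Eventually.of_forall fun g => ?_)
    show g 0 ^ 2 * h (S (fun _ : Fin 1 => a) g + w) = g 0 ^ 2 * h (a * (g 0 ^ 2 - 1) + w)
    rw [hS]

theorem integrable_gauss_iff (f : ℝ → ℝ) :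
    Integrable f (gaussianReal 0 1) ↔ Integrable fun x => gaussianPDFReal 0 1 x * f x := by
  rw [gaussianReal_of_var_ne_zero _ one_ne_zero,
    integrable_withDensity_iff_integrable_smul' (measurable_gaussianPDF _ _)
      (ae_of_all _ fun _ => gaussianPDF_lt_top)]
  simp only [toReal_gaussianPDF, smul_eq_mul]

theorem hasDerivAt_pdf (x : ℝ) :
    HasDerivAt (gaussianPDFReal 0 1) (-x * gaussianPDFReal 0 1 x) x := by
  unfold gaussianPDFReal
  have h1 : HasDerivAt (fun x : ℝ => -(x - 0) ^ 2 / (2 * ((1 : NNReal) : ℝ))) (-x) x := by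
    have := ((((hasDerivAt_id x).sub_const 0).pow 2).neg).div_const (2 * ((1 : NNReal) : ℝ))
    refine HasDerivAt.congr_deriv this ?_
    simp
    ring
  have h2 := (h1.exp).const_mul ((Real.sqrt (2 * Real.pi * ((1 : NNReal) : ℝ)))⁻¹)
  refine HasDerivAt.congr_deriv h2 ?_
  ring

theorem one_dim (h1 : S1) {h h' : ℝ → ℝ} (hd : ∀ x, HasDerivAt h (h' x) x) (hPG' : PG h')
    (a w : ℝ) : ∫ x, (x ^ 2 - 1) * h (a * (x ^ 2 - 1) + w) ∂gaussianReal 0 1 =
      2 * a * ∫ x, x ^ 2 * h' (a * (x ^ 2 - 1) + w) ∂gaussianReal 0 1 := by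
  have hPG := PG.of_deriv hd hPG'
  obtain ⟨i1, i2⟩ := int_one h1 hPG a w
  obtain ⟨i3, i4⟩ := int_one h1 hPG' a w
  have j1 := (integrable_gauss_iff _).mp i1
  have j2 := (integrable_gauss_iff _).mp i2
  have j4 := (integrable_gauss_iff _).mp i4
  have hF : ∀ x : ℝ, HasDerivAt (fun x => x * h (a * (x ^ 2 - 1) + w) * gaussianPDFReal 0 1 x)
      (gaussianPDFReal 0 1 x * h (a * (x ^ 2 - 1) + w) +
        2 * a * (gaussianPDFReal 0 1 x * (x ^ 2 * h' (a * (x ^ 2 - 1) + w))) -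
        gaussianPDFReal 0 1 x * (x ^ 2 * h (a * (x ^ 2 - 1) + w))) x := by
    intro x
    have hin : HasDerivAt (fun x : ℝ => a * (x ^ 2 - 1) + w) (a * (2 * x)) x := by
      have := ((((hasDerivAt_id x).pow 2).sub_const 1).const_mul a).add_const w
      refine HasDerivAt.congr_deriv this ?_
      simp
    have h3 := (hd (a * (x ^ 2 - 1) + w)).comp x hin
    have h5 := ((hasDerivAt_id x).mul h3).mul (hasDerivAt_pdf x)
    refine HasDerivAt.congr_deriv h5 ?_
    show (1 * h (a * (x ^ 2 - 1) + w) + x * (h' (a * (x ^ 2 - 1) + w) * (a * (2 * x)))) *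
      gaussianPDFReal 0 1 x + x * h (a * (x ^ 2 - 1) + w) * (-x * gaussianPDFReal 0 1 x) = _
    ring
  have hcont : Continuous fun x : ℝ => x * h (a * (x ^ 2 - 1) + w) * gaussianPDFReal 0 1 x :=
    continuous_iff_continuousAt.mpr fun x => (hF x).continuousAt
  have hFi : Integrable fun x : ℝ => x * h (a * (x ^ 2 - 1) + w) * gaussianPDFReal 0 1 x := by
    refine (j1.norm.add j2.norm).mono' hcont.aestronglyMeasurable (Eventually.of_forall fun x => ?_)
    show ‖x * h (a * (x ^ 2 - 1) + w) * gaussianPDFReal 0 1 x‖ ≤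
      ‖gaussianPDFReal 0 1 x * h (a * (x ^ 2 - 1) + w)‖ +
      ‖gaussianPDFReal 0 1 x * (x ^ 2 * h (a * (x ^ 2 - 1) + w))‖
    simp only [norm_mul, Real.norm_eq_abs, abs_pow, sq_abs]
    have e1 : |x| ≤ 1 + x ^ 2 := by nlinarith [abs_nonneg x, sq_abs x, sq_nonneg (|x| - 1)]
    have e2 : 0 ≤ |h (a * (x ^ 2 - 1) + w)| * |gaussianPDFReal 0 1 x| := by positivity
    nlinarith [mul_le_mul_of_nonneg_right e1 e2]
  have j5 : Integrable fun x => gaussianPDFReal 0 1 x * h (a * (x ^ 2 - 1) + w) +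
      2 * a * (gaussianPDFReal 0 1 x * (x ^ 2 * h' (a * (x ^ 2 - 1) + w))) :=
    j1.add (j4.const_mul (2 * a))
  have h0 := integral_eq_zero_of_hasDerivAt_of_integrable hF (j5.sub j2) hFi
  rw [integral_sub j5 j2, integral_add j1 (j4.const_mul (2 * a)), integral_const_mul] at h0
  have e1 : ∫ x, (x ^ 2 - 1) * h (a * (x ^ 2 - 1) + w) ∂gaussianReal 0 1 =
      (∫ x, x ^ 2 * h (a * (x ^ 2 - 1) + w) ∂gaussianReal 0 1) -
      ∫ x, h (a * (x ^ 2 - 1) + w) ∂gaussianReal 0 1 := by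
    rw [← integral_sub i2 i1]
    congr 1
    funext x
    ring
  rw [e1]
  simp only [integral_gaussianReal_eq_integral_smul one_ne_zero, smul_eq_mul]
  linarith

theorem S_insertNth {m : ℕ} (a : Fin (m + 1) → ℝ) (i : Fin (m + 1)) (x : ℝ) (g : Fin m → ℝ) :
    S a (i.insertNth x g) = a i * (x ^ 2 - 1) + S (fun k => a (i.succAbove k)) g := by
  unfold S
  rw [Fin.sum_univ_succAbove _ i]
  simp

theorem split_integral {m : ℕ} (i : Fin (m + 1)) (f : (Fin (m + 1) → ℝ) → ℝ)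
    (hf : Integrable f (G (m + 1))) :
    ∫ g, f g ∂G (m + 1) = ∫ g, ∫ x, f (i.insertNth x g) ∂gaussianReal 0 1 ∂G m := by
  have hmp := (measurePreserving_piFinSuccAbove (fun _ : Fin (m + 1) => gaussianReal 0 1) i).symm
  have h1 := hmp.integral_comp' (g := f)
  have h2 : Integrable (fun z : ℝ × (Fin m → ℝ) => f (i.insertNth z.1 z.2))
      ((gaussianReal 0 1).prod (G m)) := by
    have := (hmp.integrable_comp_emb (MeasurableEquiv.measurableEmbedding _)).mpr hf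
    exact this
  have h3 : ∫ g, f g ∂G (m + 1) = ∫ z : ℝ × (Fin m → ℝ), f (i.insertNth z.1 z.2)
      ∂((gaussianReal 0 1).prod (G m)) := h1.symm
  rw [h3, integral_prod_symm _ h2]

theorem t6 (h1 : S1) : S6 := by
  intro n a i h h' hd hPG'
  obtain ⟨m, rfl⟩ : ∃ m, n = m + 1 := ⟨n - 1, by have := i.2; omega⟩
  have hPG := PG.of_deriv hd hPG'
  obtain ⟨i1, i2⟩ := h1.2.2.2.2 (m + 1) a h hPG
  obtain ⟨i3, i4⟩ := h1.2.2.2.2 (m + 1) a h' hPG'
  have i5 : Integrable (fun g : Fin (m + 1) → ℝ => (g i ^ 2 - 1) * h (S a g)) (G (m + 1)) := by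
    refine ((i2 i).sub i1).congr (Eventually.of_forall fun g => ?_)
    show g i ^ 2 * h (S a g) - h (S a g) = _
    ring
  rw [split_integral i _ i5, split_integral i _ (i4 i), ← integral_const_mul]
  congr 1
  funext g
  simp only [S_insertNth, Fin.insertNth_apply_same]
  exact one_dim h1 hd hPG' _ _

end

end Pool.Agent.Q298.CQ
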