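import Pool.Agent.Q298.CQ.J5

/-!
# Size bias and the identity for `L`
-/

set_option autoImplicit false

open MeasureTheory ProbabilityTheory Set Filter Topology

namespace Pool.Agent.Q298.CQ

noncomputable section

theorem PG.sub {f g : ℝ → ℝ} (hf : PG f) (hg : PG g) : PG fun x => f x - g x := by
  obtain ⟨hf1, C1, N1, hf2⟩ := hf
  obtain ⟨hg1, C2, N2, hg2⟩ := hg
  refine ⟨hf1.sub hg1, |C1| + |C2|, N1 + N2, fun x => ?_⟩
  have h1 : (1 : ℝ) ≤ 1 + |x| := by linarith [abs_nonneg x]
  have e1 : (1 + |x|) ^ N1 ≤ (1 + |x|) ^ (N1 + N2) := pow_le_pow_right₀ h1 (Nat.le_add_right _ _)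
  have e2 : (1 + |x|) ^ N2 ≤ (1 + |x|) ^ (N1 + N2) := pow_le_pow_right₀ h1 (Nat.le_add_left _ _)
  have p1 : (0 : ℝ) ≤ (1 + |x|) ^ N1 := by positivity
  have p2 : (0 : ℝ) ≤ (1 + |x|) ^ N2 := by positivity
  calc |f x - g x| ≤ |f x| + |g x| := abs_sub _ _
    _ ≤ C1 * (1 + |x|) ^ N1 + C2 * (1 + |x|) ^ N2 := add_le_add (hf2 x) (hg2 x)
    _ ≤ |C1| * (1 + |x|) ^ N1 + |C2| * (1 + |x|) ^ N2 := by
        gcongr <;> exact le_abs_self _
    _ ≤ |C1| * (1 + |x|) ^ (N1 + N2) + |C2| * (1 + |x|) ^ (N1 + N2) := by gcongr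
    _ = _ := by ring

theorem PG.const_mul {f : ℝ → ℝ} (k : ℝ) (hf : PG f) : PG fun x => k * f x := by
  obtain ⟨hf1, C1, N1, hf2⟩ := hf
  refine ⟨continuous_const.mul hf1, |k| * C1, N1, fun x => ?_⟩
  rw [abs_mul, mul_assoc]
  exact mul_le_mul_of_nonneg_left (hf2 x) (abs_nonneg k)

theorem t7 (h1 : S1) (h6 : S6) : S7 := by
  intro n a i h hPG
  have hint := fun g (hg : PG g) => h1.2.2.2.2 n a g hg
  by_cases hc : 2 * a i = 0
  · have ha : a i = 0 := by linarith
    rw [hc]
    have hA0 : A 0 h = h := by funext x; unfold A; simp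
    rw [hA0]
    -- independence
    let X : Fin n → ℝ → ℝ := fun j x => if j = i then x ^ 2 else a j * (x ^ 2 - 1)
    have hX : ∀ j, Measurable (X j) := by
      intro j
      show Measurable fun x => if j = i then x ^ 2 else a j * (x ^ 2 - 1)
      split_ifs <;> fun_prop
    have hind : iIndepFun (fun j (g : Fin n → ℝ) => X j (g j)) (G n) :=
      iIndepFun_pi (fun j => (hX j).aemeasurable)
    have h2 := hind.indepFun_finsetSum_of_notMem (fun j => (hX j).comp (measurable_pi_apply j))
      (Finset.notMem_erase i Finset.univ)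
    have h3 := (h2.comp hPG.1.measurable measurable_id).integral_fun_mul_eq_mul_integral
      (by
        apply Measurable.aestronglyMeasurable
        apply hPG.1.measurable.comp
        have hm : Measurable fun g : Fin n → ℝ => ∑ j ∈ Finset.univ.erase i, X j (g j) :=
          Finset.measurable_sum _ (fun j _ => (hX j).comp (measurable_pi_apply j))
        convert hm using 1
        funext g
        rw [Finset.sum_apply])
      (by
        apply Measurable.aestronglyMeasurable
        exact measurable_id.comp ((hX i).comp (measurable_pi_apply i)))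
    have hS : ∀ g : Fin n → ℝ, (∑ j ∈ Finset.univ.erase i, fun (g : Fin n → ℝ) => X j (g j)) g =
        S a g := by
      intro g
      unfold S
      rw [Finset.sum_apply, ← Finset.add_sum_erase Finset.univ _ (Finset.mem_univ i), ha, zero_mul,
        zero_add]
      apply Finset.sum_congr rfl
      intro j hj
      show (if j = i then g j ^ 2 else a j * (g j ^ 2 - 1)) = _
      rw [if_neg (Finset.ne_of_mem_erase hj)]
    have hXi : ∀ g : Fin n → ℝ, X i (g i) = g i ^ 2 := by
      intro g
      show (if i = i then g i ^ 2 else a i * (g i ^ 2 - 1)) = _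
      rw [if_pos rfl]
    simp only [Function.comp, hS, hXi, id] at h3
    have h4 : ∫ g : Fin n → ℝ, g i ^ 2 ∂G n = 1 := by
      have h5 := h6 n a i (fun _ => 1) (fun _ => 0) (fun x => hasDerivAt_const x 1)
        ⟨continuous_const, 0, 0, by simp⟩
      have h7 := (hint (fun _ => 1) ⟨continuous_const, 1, 0, by simp⟩).2 i
      simp only [mul_one, mul_zero, integral_zero] at h5 h7
      rw [integral_sub h7 (integrable_const _)] at h5
      simp only [integral_const, probReal_univ, smul_eq_mul, mul_one] at h5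
      linarith
    rw [h4, mul_one] at h3
    unfold ES
    rw [← h3]
    congr 1
    funext g
    ring
  · have hPGA : PG (A (2 * a i) h) := (h1.2.2.1 h hPG _).1
    have hK := hasDerivAt_A hc hPG.1 (fun x => (h1.2.2.2.1 h hPG x _).1)
    have hPG' : PG fun x => (A (2 * a i) h x - h x) / (2 * a i) := by
      have := (hPGA.sub hPG).const_mul (2 * a i)⁻¹
      convert this using 2
      ring
    have h2 := h6 n a i _ _ hK hPG'
    have i1 := (hint _ hPGA).2 i
    have i2 := (hint _ hPG).2 i
    have i3 := (hint _ hPGA).1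
    have e1 : ∫ g, (g i ^ 2 - 1) * A (2 * a i) h (S a g) ∂G n =
        (∫ g, g i ^ 2 * A (2 * a i) h (S a g) ∂G n) - ∫ g, A (2 * a i) h (S a g) ∂G n := by
      rw [← integral_sub i1 i3]
      congr 1
      funext g
      ring
    have e2 : 2 * a i * ∫ g, g i ^ 2 * ((A (2 * a i) h (S a g) - h (S a g)) / (2 * a i)) ∂G n =
        (∫ g, g i ^ 2 * A (2 * a i) h (S a g) ∂G n) - ∫ g, g i ^ 2 * h (S a g) ∂G n := by
      rw [← integral_sub i1 i2, ← integral_const_mul]
      congr 1
      funext g
      rw [← mul_sub]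
      rw [show 2 * a i * (g i ^ 2 * ((A (2 * a i) h (S a g) - h (S a g)) / (2 * a i))) =
        g i ^ 2 * (2 * a i * ((A (2 * a i) h (S a g) - h (S a g)) / (2 * a i))) by ring,
        mul_div_cancel₀ _ hc]
    rw [e1, e2] at h2
    unfold ES
    linarith

theorem t10 (h1 : S1) (h3 : S3) (h5 : S5) (h7 : S7) : S10 := by
  intro n t a c ht
  have hPG : PG (ab t) := h1.1 t ht.le
  have hPGA : ∀ c, PG (A c (ab t)) := fun c => (h1.2.2.1 _ hPG c).1
  have hPGB : ∀ c, PG (B c (ab t)) := fun c => (h1.2.2.1 _ hPG c).2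
  have hPGphi : PG (phi (t + 1)) := h1.2.1 _ (by linarith)
  have hint : ∀ h, PG h → Integrable (fun g => h (S a g)) (G n) := fun h hh =>
    (h1.2.2.2.2 n a h hh).1
  have hint2 : ∀ h, PG h → ∀ i, Integrable (fun g => g i ^ 2 * h (S a g)) (G n) := fun h hh =>
    (h1.2.2.2.2 n a h hh).2
  -- pointwise
  have hpt : ∀ x, A c (phi (t + 1)) x = x * A c (ab t) x + c * B c (ab t) x := by
    intro x
    obtain ⟨j1, j2⟩ := h1.2.2.2.1 _ hPG x c
    unfold A B
    rw [← integral_const_mul, ← integral_const_mul, ← integral_add (j1.const_mul x)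
      (j2.const_mul c)]
    congr 1
    funext r
    rw [phi_eq]
    unfold ab
    ring
  have hpt2 : ∀ x, phi (t + 1) x + (t + 1) * c * A c (ab t) x =
      x * A c (ab t) x + c * B c (ab t) x := by
    intro x
    rw [← hpt, h3 t c x ht]
  have hL : ∫ g, (phi (t + 1) (S a g) + (t + 1) * c * A c (ab t) (S a g)) ∂G n =
      mu t a + (t + 1) * c * L t a c := by
    rw [integral_add (hint _ hPGphi) ((hint _ (hPGA c)).const_mul _), integral_const_mul]
    rfl
  have hi3 : ∀ j, Integrable (fun g : Fin n → ℝ => a j * ((g j ^ 2 - 1) * A c (ab t) (S a g)))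
      (G n) := by
    intro j
    have := ((hint2 _ (hPGA c) j).sub (hint _ (hPGA c))).const_mul (a j)
    refine this.congr (Eventually.of_forall fun g => ?_)
    show a j * (g j ^ 2 * A c (ab t) (S a g) - A c (ab t) (S a g)) = _
    ring
  have hR : ∫ g, (S a g * A c (ab t) (S a g) + c * B c (ab t) (S a g)) ∂G n =
      ∑ j, a j * ((∫ g, g j ^ 2 * A c (ab t) (S a g) ∂G n) - L t a c) + c * L2 t a c := by
    have e1 : ∀ g : Fin n → ℝ, S a g * A c (ab t) (S a g) =
        ∑ j, a j * ((g j ^ 2 - 1) * A c (ab t) (S a g)) := by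
      intro g
      have e0 : S a g = ∑ j, a j * (g j ^ 2 - 1) := rfl
      rw [e0, Finset.sum_mul]
      apply Finset.sum_congr rfl
      intro j _
      rw [mul_assoc]
    have i1 : Integrable (fun g => S a g * A c (ab t) (S a g)) (G n) := by
      simp only [e1]
      exact integrable_finsetSum _ (fun j _ => hi3 j)
    rw [integral_add i1 ((hint _ (hPGB c)).const_mul c), integral_const_mul]
    congr 1
    simp only [e1]
    rw [integral_finsetSum _ (fun j _ => hi3 j)]
    apply Finset.sum_congr rfl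
    intro j _
    rw [integral_const_mul]
    congr 1
    unfold L ES
    rw [← integral_sub (hint2 _ (hPGA c) j) (hint _ (hPGA c))]
    congr 1
    funext g
    ring
  have hmain : mu t a + (t + 1) * c * L t a c =
      ∑ j, a j * ((∫ g, g j ^ 2 * A c (ab t) (S a g) ∂G n) - L t a c) + c * L2 t a c := by
    rw [← hL, ← hR]
    congr 1
    funext g
    exact hpt2 _
  rw [hmain]
  congr 1
  apply Finset.sum_congr rfl
  intro j _
  congr 1
  rw [h7 n a j _ (hPGA c)]
  by_cases hj : 2 * a j = c
  · rw [if_pos hj, hj]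
    congr 1
    unfold ES L2 ES
    congr 1
    funext g
    exact (h5 _ hPG).2 c (S a g)
  · rw [if_neg hj]
    have e : ES a (A (2 * a j) (A c (ab t))) =
        (2 * a j * L t a (2 * a j) - c * L t a c) / (2 * a j - c) := by
      unfold ES L ES
      rw [← integral_const_mul, ← integral_const_mul, ← integral_sub, ← integral_div]
      · congr 1
        funext g
        exact (h5 _ hPG).1 (2 * a j) c (S a g) hj
      · exact (hint _ (hPGA _)).const_mul _
      · exact (hint _ (hPGA c)).const_mul c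
    rw [e]
    have h8 : 2 * a j - c ≠ 0 := sub_ne_zero.mpr hj
    have h9 : c - 2 * a j ≠ 0 := sub_ne_zero.mpr (Ne.symm hj)
    field_simp
    ring

end

end Pool.Agent.Q298.CQ
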